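import Pool.Agent.Mg.Fc4ca5b.G49a985
import Pool.Agent.MP_c4ca5b_lc.Defs

section

set_option linter.unusedSectionVars false

namespace Pool.Agent.MP_c4ca5b_lc

open Finset

variable {n : ℕ}

lemma div_close {x x' D m : ℤ} (hm : 0 < m) (h : |x - x'| ≤ D * m) : |x / m - x' / m| ≤ D := by
  rw [abs_le] at h ⊢
  have h1 : x / m ≤ (x' + D * m) / m := Int.ediv_le_ediv hm (by linarith [h.2])
  have h2 : x' / m ≤ (x + D * m) / m := Int.ediv_le_ediv hm (by linarith [h.1])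
  rw [Int.add_mul_ediv_right _ _ hm.ne'] at h1 h2
  constructor <;> linarith

lemma pow_succ_dvd_iff {P : ℕ} (hP : 0 < P) (V j : ℕ) :
    P ^ (j + 1) ∣ V + 1 ↔ P ^ j ∣ V + 1 ∧ V / P ^ j % P + 1 = P := by
  have hpj : 0 < P ^ j := by positivity
  have key : ∀ m, V + 1 = P ^ j * (m + 1) → V / P ^ j = m := by
    intro m hm
    refine Nat.div_eq_of_lt_le ?_ ?_
    · rw [mul_add, mul_comm] at hm; omega
    · rw [mul_comm]; omega
  constructor
  · rintro ⟨m, hm⟩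
    obtain ⟨m, rfl⟩ : ∃ m', m = m' + 1 := ⟨m - 1, by
      rcases m with _ | m
      · simp at hm
      · simp⟩
    have h1 : P * (m + 1) = P * m + (P - 1) + 1 := by rw [mul_add]; omega
    rw [pow_succ, mul_assoc, h1] at hm
    refine ⟨⟨_, hm⟩, ?_⟩
    rw [key _ hm, Nat.mul_add_mod, Nat.mod_eq_of_lt (by omega)]; omega
  · rintro ⟨⟨m, hm⟩, h2⟩
    obtain ⟨m, rfl⟩ : ∃ m', m = m' + 1 := ⟨m - 1, by
      rcases m with _ | m
      · simp at hm
      · simp⟩
    rw [key _ hm] at h2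
    have := Nat.div_add_mod m P
    refine ⟨m / P + 1, ?_⟩
    rw [hm, pow_succ, mul_assoc]; congr 1; rw [mul_add]; omega

def dg (n i j : ℕ) : Fin (6 ^ n) := ⟨i / (6 ^ n) ^ j % 6 ^ n, Nat.mod_lt _ (by positivity)⟩

structure Reg (n : ℕ) : Type where
  K : ℕ
  a : ℕ
  v : ℕ → Z n
  ψ : Z n → Z n

namespace Reg

variable (k0 : Fin n) (ρ : Reg n)

def M : ℕ := (6 ^ n) ^ ρ.a

def col (i : ℕ) : ℤ := anc ρ.a (ρ.ψ (ρ.v i)) k0

def isSt (j : ℕ) (C : Z n) (i : ℕ) : Prop := i < ρ.M ∧ j ≤ ρ.a ∧ anc j (ρ.ψ (ρ.v i)) = C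

open Classical in
noncomputable def X (j : ℕ) (C : Z n) : Z n :=
  if h : ∃ i, ρ.isSt j C i then ρ.v h.choose else Classical.epsilon fun u => anc j (ρ.ψ u) = C

noncomputable def hh (j : ℕ) (C : Z n) : Z n := fun k => ρ.X j C k / 6 ^ j

noncomputable def V (t : ℤ) : ℕ := ((range ρ.M).filter fun i => ρ.col k0 i < t).card

def W (t : ℤ) : Prop := ∃ i, i < ρ.M ∧ ρ.col k0 i = t

def cl (j : ℕ) (C : Z n) : ℤ := anc (ρ.a - j) C k0

open Classical in
noncomputable def reg (j : ℕ) (C : Z n) : Lam n where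
  sp := j = ρ.K
  hi := ρ.a ≤ j
  top := j = ρ.a
  G := (3:ℤ) ^ (ρ.a - j) ∣ C k0 + 1
  W := ρ.W k0 (ρ.cl k0 j C)
  cin := ρ.W k0 (ρ.cl k0 j C) ∧ (6 ^ n) ^ j ∣ ρ.V k0 (ρ.cl k0 j C) + 1
  done := ρ.M ≤ ρ.V k0 (ρ.cl k0 j C)
  g := j = ρ.a ∧ ∃ i, i < ρ.M ∧ ρ.col k0 i = C k0 ∧ ∀ k, C k ≤ anc ρ.a (ρ.ψ (ρ.v i)) k
  st := ∃ i, ρ.isSt j C i
  Fm k := C k = 0
  Fp k := C k + 1 = 3 ^ (ρ.K - j)
  d := clamp (ρ.hh j C - (6:ℤ) • ρ.hh (j + 1) (par C))
  inc k := clamp (ρ.hh j (C + e k) - ρ.hh j C)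
  s := dg n (ρ.V k0 (ρ.cl k0 j C)) j
  ptr := if h : ∃ k i, i < ρ.M ∧ ρ.col k0 i = C k0 ∧ C k < anc ρ.a (ρ.ψ (ρ.v i)) k
    then some h.choose else none
  ch := pos (anc (j - 1) (ρ.ψ (ρ.X j C)))

structure OK : Prop where
  grid : IsGrid ρ.ψ
  a1 : 1 ≤ ρ.a
  aK : ρ.a < ρ.K
  inP : ∀ i, i < ρ.M → Sub ρ.K 0 (ρ.ψ (ρ.v i))
  mono : ∀ i i', i < i' → i' < ρ.M → ρ.col k0 i < ρ.col k0 i'
  dig : ∀ i, i < ρ.M → ∀ j, j < ρ.a → ∀ k, ρ.v i k / 6 ^ j % 6 = emb (dg n i j) k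

variable {k0 ρ} (h : ρ.OK k0)
include h

lemma OK.col_inj {i i' : ℕ} (hi : i < ρ.M) (hi' : i' < ρ.M) (hc : ρ.col k0 i = ρ.col k0 i') :
    i = i' := by
  rcases lt_trichotomy i i' with h1 | h1 | h1
  · have := h.mono i i' h1 hi'; omega
  · exact h1
  · have := h.mono i' i h1 hi; omega

omit h in
lemma isSt.cl {j : ℕ} {C : Z n} {i : ℕ} (hs : ρ.isSt j C i) : ρ.cl k0 j C = ρ.col k0 i := by
  unfold Reg.cl Reg.col
  rw [← hs.2.2, ← anc_add, show j + (ρ.a - j) = ρ.a by have := hs.2.1; omega]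

lemma OK.X_st {j : ℕ} {C : Z n} {i : ℕ} (hs : ρ.isSt j C i) : ρ.X j C = ρ.v i := by
  have hex : ∃ i, ρ.isSt j C i := ⟨i, hs⟩
  unfold Reg.X
  rw [dif_pos hex, h.col_inj hex.choose_spec.1 hs.1
    (by rw [← hex.choose_spec.cl (k0 := k0), hs.cl])]

lemma OK.X_spec (j : ℕ) (C : Z n) : anc j (ρ.ψ (ρ.X j C)) = C := by
  by_cases hex : ∃ i, ρ.isSt j C i
  · obtain ⟨i, hi⟩ := hex
    rw [h.X_st hi]; exact hi.2.2
  · unfold Reg.X
    rw [dif_neg hex]
    obtain ⟨u, hu⟩ := h.grid.surj (((3:ℤ) ^ j) • C)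
    exact Classical.epsilon_spec (p := fun u => anc j (ρ.ψ u) = C) ⟨u, by rw [hu, anc_smul]⟩

lemma OK.close {j : ℕ} {u u' : Z n} (hu : nb (ρ.ψ u - ρ.ψ u') (3 ^ (j + 1))) (k : Fin n) :
    |u k / 6 ^ j - u' k / 6 ^ j| ≤ 3 * Mc n + C1 n := by
  refine div_close (by positivity) ((h.grid.coarse u' u (by positivity) hu k).trans ?_)
  have h1 : (3:ℤ) ^ j ≤ 6 ^ j := pow_le_pow_left₀ (by norm_num) (by norm_num) j
  have h2 : (1:ℤ) ≤ 6 ^ j := one_le_pow₀ (by norm_num)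
  have := Mc_pos n; have := C1_pos n
  rw [pow_succ]; nlinarith

lemma OK.d_val (j : ℕ) (C : Z n) :
    (ρ.reg k0 j C).d.1 = ρ.hh j C - (6:ℤ) • ρ.hh (j + 1) (par C) := by
  refine clamp_val fun k => ?_
  have h1 := h.close (j := j) (u := ρ.X j C) (u' := ρ.X (j + 1) (par C)) (fun l => by
    have a1 := (anc_eq_iff (j + 1) _ _).1
      (show anc (j + 1) (ρ.ψ (ρ.X j C)) = par C by rw [anc_succ, h.X_spec]) l
    have a2 := (anc_eq_iff (j + 1) _ _).1 (h.X_spec (j + 1) (par C)) l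
    rw [Pi.sub_apply, abs_le]; constructor <;> linarith [a1.1, a1.2, a2.1, a2.2]) k
  simp only [Pi.sub_apply, Pi.smul_apply, smul_eq_mul, Reg.hh, Bd]
  rw [pow_succ (6:ℤ) j, ← Int.ediv_ediv_of_nonneg (by positivity)]
  rw [abs_le] at h1 ⊢
  omega

lemma OK.inc_val (j : ℕ) (C : Z n) (k : Fin n) :
    ((ρ.reg k0 j C).inc k).1 = ρ.hh j (C + e k) - ρ.hh j C := by
  refine clamp_val fun l => ?_
  have h1 := h.close (j := j) (u := ρ.X j (C + e k)) (u' := ρ.X j C) (fun l => by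
    have a1 := (anc_eq_iff j _ _).1 (h.X_spec j (C + e k)) l
    have a2 := (anc_eq_iff j _ _).1 (h.X_spec j C) l
    have : (0:ℤ) < 3 ^ j := by positivity
    rw [Pi.add_apply, e_apply] at a1
    rw [Pi.sub_apply, abs_le, pow_succ]
    split_ifs at a1 <;> constructor <;> linarith [a1.1, a1.2, a2.1, a2.2]) l
  simp only [Pi.sub_apply, Reg.hh, Bd]
  omega

open Classical in
lemma OK.V_succ (t : ℤ) : ρ.V k0 (t + 1) = ρ.V k0 t + if ρ.W k0 t then 1 else 0 := by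
  unfold Reg.V
  split_ifs with hW
  · obtain ⟨i, hi, hc⟩ := hW
    rw [← Finset.card_insert_of_notMem (a := i) (by simp [hc])]
    congr 1
    ext i'
    simp only [mem_filter, mem_range, mem_insert]
    constructor
    · rintro ⟨h1, h2⟩
      by_cases h3 : ρ.col k0 i' = t
      · left; exact h.col_inj h1 hi (by rw [h3, hc])
      · right; exact ⟨h1, by omega⟩
    · rintro (rfl | ⟨h1, h2⟩)
      · exact ⟨hi, by omega⟩
      · exact ⟨h1, by omega⟩
  · rw [add_zero]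
    congr 1
    ext i'
    simp only [mem_filter, mem_range]
    refine and_congr_right fun h1 => ⟨fun h2 => ?_, fun h2 => by omega⟩
    have : ρ.col k0 i' ≠ t := fun h3 => hW ⟨i', h1, h3⟩
    omega

lemma OK.V_col {i : ℕ} (hi : i < ρ.M) : ρ.V k0 (ρ.col k0 i) = i := by
  unfold Reg.V
  conv_rhs => rw [← Finset.card_range i]
  congr 1
  ext i'
  simp only [mem_filter, mem_range]
  constructor
  · rintro ⟨h1, h2⟩
    by_contra h3
    rcases (not_lt.1 h3).lt_or_eq with h4 | h4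
    · have := h.mono i i' h4 h1; omega
    · subst h4; omega
  · intro h1; exact ⟨by omega, h.mono i' i h1 hi⟩

lemma OK.A_sub {i : ℕ} (hi : i < ρ.M) (k : Fin n) :
    0 ≤ anc ρ.a (ρ.ψ (ρ.v i)) k ∧ anc ρ.a (ρ.ψ (ρ.v i)) k < 3 ^ (ρ.K - ρ.a) := by
  have := (h.inP i hi).anc ρ.a (by have := h.aK; omega)
  rw [zero_add] at this
  exact (sub_iff.1 this).2 k

lemma OK.V_zero : ρ.V k0 0 = 0 := by
  unfold Reg.V
  rw [Finset.card_eq_zero, Finset.filter_eq_empty_iff]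
  intro i hi
  have := (h.A_sub (mem_range.1 hi) k0).1
  unfold Reg.col; omega

lemma OK.V_top : ρ.V k0 (3 ^ (ρ.K - ρ.a)) = ρ.M := by
  unfold Reg.V
  rw [Finset.filter_true_of_mem, Finset.card_range]
  intro i hi
  exact (h.A_sub (mem_range.1 hi) k0).2

open Classical in
lemma OK.done_iff (t : ℤ) : ρ.M ≤ ρ.V k0 (t + 1) ↔
    ρ.M ≤ ρ.V k0 t ∨ (ρ.W k0 t ∧ (6 ^ n) ^ ρ.a ∣ ρ.V k0 t + 1) := by
  rw [h.V_succ]
  by_cases hW : ρ.W k0 t
  · obtain ⟨i, hi, rfl⟩ := hW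
    rw [if_pos ⟨i, hi, rfl⟩, h.V_col hi]
    constructor
    · intro h1
      exact Or.inr ⟨⟨i, hi, rfl⟩, by rw [show i + 1 = ρ.M by omega]; exact dvd_rfl⟩
    · rintro (h1 | ⟨-, h1⟩)
      · omega
      · exact Nat.le_of_dvd (by omega) h1
  · simp [hW]

omit h in
lemma cl_top (C : Z n) : ρ.cl k0 ρ.a C = C k0 := by simp [Reg.cl]

lemma OK.sr {j : ℕ} {C : Z n} (hC : Sub ρ.K j C) : (sys k0).SR (ρ.reg k0 j C) := by
  refine ⟨?_, ?_, ?_, ?_, ?_, ?_, ?_⟩
  · rintro (rfl : j = ρ.K)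
    rw [hC.root]
    exact ⟨h.aK.le, fun k => ⟨rfl, by simp [Reg.reg]⟩⟩
  · rintro (rfl : j = ρ.a); simp [Reg.reg]
  · intro _ (h1 : C k0 = 0)
    have : ρ.cl k0 j C = 0 := by simp [Reg.cl, anc, h1]
    simp [Reg.reg, dg, this, h.V_zero]
  · rintro (rfl : j = ρ.a) (h1 : C k0 = 0)
    have : 0 < ρ.M := by unfold Reg.M; positivity
    simp only [Reg.reg, cl_top, h1, h.V_zero]; omega
  · rintro (rfl : j = ρ.a) (h1 : C k0 + 1 = _)
    simp only [Reg.reg, cl_top]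
    rw [← h.done_iff, h1, h.V_top]
  · rintro (rfl : j = ρ.a) ⟨i, hi, h1⟩ h2
    rw [cl_top] at h1
    refine ⟨rfl, i, hi, h1, fun k => ?_⟩
    by_cases hk : k = k0
    · rw [hk, ← h1]; rfl
    · rw [show C k = 0 from h2 k hk]; exact (h.A_sub hi k).1
  · rintro ⟨rfl, i, hi, h1, h2⟩
    by_cases hex : ∃ k i, i < ρ.M ∧ ρ.col k0 i = C k0 ∧ C k < anc ρ.a (ρ.ψ (ρ.v i)) k
    · right
      obtain ⟨i', h3, h4, h5⟩ := hex.choose_spec
      refine ⟨hex.choose, fun h6 => ?_, by simp only [Reg.reg]; rw [dif_pos hex], fun h6 => ?_⟩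
      · rw [h6, ← h4] at h5; exact lt_irrefl _ h5
      · have := (h.A_sub h3 hex.choose).2
        simp only [Reg.reg] at h6
        omega
    · left
      refine ⟨by simp only [Reg.reg]; rw [dif_neg hex], i, hi, le_rfl, funext fun k => ?_⟩
      have h3 : ¬ C k < anc ρ.a (ρ.ψ (ρ.v i)) k := fun h3 => hex ⟨k, i, hi, h1, h3⟩
      have := h2 k
      omega

omit h in
lemma cl_par {j : ℕ} (hj : j < ρ.a) (C : Z n) : ρ.cl k0 (j + 1) (par C) = ρ.cl k0 j C := by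
  unfold Reg.cl
  rw [← anc_succ', show ρ.a - (j + 1) + 1 = ρ.a - j by omega]

omit h in
lemma isSt.par {j : ℕ} {C : Z n} {i : ℕ} (hs : ρ.isSt j C i) (hj : j < ρ.a) :
    ρ.isSt (j + 1) (par C) i := ⟨hs.1, hj, by rw [anc_succ, hs.2.2]⟩

lemma OK.st_iff {j : ℕ} (hj : j < ρ.a) (C : Z n) : (ρ.reg k0 j C).st ↔
    (ρ.reg k0 (j + 1) (par C)).st ∧ (ρ.reg k0 (j + 1) (par C)).ch = pos C := by
  simp only [Reg.reg, Nat.add_sub_cancel]
  constructor
  · rintro ⟨i, hi⟩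
    exact ⟨⟨i, hi.par hj⟩, by rw [h.X_st (hi.par hj), hi.2.2]⟩
  · rintro ⟨⟨i, hi⟩, h2⟩
    rw [h.X_st hi] at h2
    exact ⟨i, hi.1, hj.le, eq_of_par_pos (by rw [← anc_succ]; exact hi.2.2) h2⟩

lemma OK.vr {j : ℕ} (C : Z n) (hj : j < ρ.K) :
    (sys k0).VR (pos C) (ρ.reg k0 j C) (ρ.reg k0 (j + 1) (par C)) := by
  refine ⟨fun k => ⟨?_, ?_⟩, ?_, ?_, fun h1 => ⟨?_, ?_, ?_, h.st_iff (not_le.1 h1) C, ?_⟩⟩
  · simp only [Reg.reg, par, pos_zero_iff]; omega
  · simp only [Reg.reg, par, pos_two_iff, pow_sub_succ hj]; omega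
  · simp only [Reg.reg]; omega
  · simp only [Reg.reg]; omega
  · have hj : j < ρ.a := not_le.1 h1
    simp only [Reg.reg, par, pos_two_iff, pow_sub_succ hj]
    constructor
    · rintro ⟨m, h1⟩
      rw [mul_assoc] at h1
      exact ⟨⟨m, by omega⟩, by omega⟩
    · rintro ⟨⟨m, h1⟩, h2⟩
      exact ⟨m, by rw [mul_assoc]; omega⟩
  · simp only [Reg.reg, cl_par (not_le.1 h1)]
  · simp only [Reg.reg, cl_par (not_le.1 h1), dg]
    rw [pow_succ_dvd_iff (by positivity), and_assoc]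
  · rintro ⟨i, hi⟩
    have hj : j < ρ.a := not_le.1 h1
    rw [h.d_val]
    funext k
    have : (ρ.reg k0 j C).s = dg n i j := by simp only [Reg.reg]; rw [hi.cl, h.V_col hi.1]
    rw [this, ← h.dig i hi.1 j hj k]
    simp only [Pi.sub_apply, Pi.smul_apply, smul_eq_mul, Reg.hh, h.X_st hi, h.X_st (hi.par hj)]
    rw [pow_succ (6:ℤ) j, ← Int.ediv_ediv_of_nonneg (by positivity)]
    omega

omit h in
lemma cl_add_ne {j : ℕ} (C : Z n) {k : Fin n} (hk : k ≠ k0) :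
    ρ.cl k0 j (C + e k) = ρ.cl k0 j C := by
  simp [Reg.cl, anc, e_ne hk.symm]

omit h in
lemma cl_add_dvd {j : ℕ} {C : Z n} (hd : (3:ℤ) ^ (ρ.a - j) ∣ C k0 + 1) :
    ρ.cl k0 j (C + e k0) = ρ.cl k0 j C + 1 := by
  obtain ⟨m, hm⟩ := hd
  have hp : (0:ℤ) < 3 ^ (ρ.a - j) := by positivity
  simp only [Reg.cl, anc, Pi.add_apply, e_same]
  rw [hm, Int.mul_ediv_cancel_left _ hp.ne', show C k0 = (3 ^ (ρ.a - j) - 1) +
    (m - 1) * 3 ^ (ρ.a - j) by linarith, Int.add_mul_ediv_right _ _ hp.ne',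
    Int.ediv_eq_zero_of_lt (by omega) (by omega)]
  ring

omit h in
lemma cl_add_not {j : ℕ} {C : Z n} (hd : ¬ (3:ℤ) ^ (ρ.a - j) ∣ C k0 + 1) :
    ρ.cl k0 j (C + e k0) = ρ.cl k0 j C := by
  have hp : (0:ℤ) < 3 ^ (ρ.a - j) := by positivity
  simp only [Reg.cl, anc, Pi.add_apply, e_same]
  have h1 := Int.mul_ediv_add_emod (C k0) (3 ^ (ρ.a - j))
  have h2 := Int.emod_nonneg (C k0) hp.ne'
  have h3 := Int.emod_lt_of_pos (C k0) hp
  have h4 : C k0 % 3 ^ (ρ.a - j) + 1 ≠ 3 ^ (ρ.a - j) := fun h4 =>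
    hd ⟨C k0 / 3 ^ (ρ.a - j) + 1, by rw [mul_add]; omega⟩
  rw [show C k0 + 1 = (C k0 % 3 ^ (ρ.a - j) + 1) + (C k0 / 3 ^ (ρ.a - j)) * 3 ^ (ρ.a - j) by
    linarith, Int.add_mul_ediv_right _ _ hp.ne', Int.ediv_eq_zero_of_lt (by omega) (by omega),
    zero_add]

lemma OK.hr (j : ℕ) (C : Z n) (k : Fin n) :
    (sys k0).HR k (pos C) (ρ.reg k0 j C) (ρ.reg k0 j (C + e k)) (ρ.reg k0 (j + 1) (par C)) := by
  intro _ _
  refine ⟨Iff.rfl, ?_, fun _ => ?_, ?_, ?_⟩
  · rw [h.inc_val, h.d_val, h.d_val, h.inc_val]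
    split_ifs with h1
    · rw [par_add_e_of_eq h1, smul_sub]; abel
    · rw [par_add_e_of_ne h1]; abel
  · simp only [Reg.reg, dg]
    by_cases hk : k = k0
    · subst hk
      by_cases hd : (3:ℤ) ^ (ρ.a - j) ∣ C k + 1
      · rw [cl_add_dvd hd, h.V_succ]
        by_cases hW : ρ.W k (ρ.cl k j C)
        · simp only [hW, hd, true_and, if_true]
          rw [Nat.succ_div]
          split_ifs
          · rw [Nat.mod_add_mod]
          · rfl
        · simp [hW]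
      · rw [cl_add_not hd]; simp [hd]
    · rw [cl_add_ne C hk]; simp [hk]
  · rintro (rfl : j = ρ.a) rfl
    simp only [Reg.reg, cl_top, Pi.add_apply, e_same]
    exact h.done_iff _
  · rintro ⟨rfl, i, hi, h1, h2⟩ h3
    simp only [Reg.reg] at h3
    split_ifs at h3 with hex
    obtain ⟨i', h4, h5, h6⟩ := hex.choose_spec
    rw [Option.some.inj h3] at h6
    obtain rfl : i' = i := h.col_inj h4 hi (by rw [h5, h1])
    have hk : k ≠ k0 := by
      rintro rfl; rw [← h5] at h6; exact lt_irrefl _ h6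
    refine ⟨rfl, i', hi, by simp [h1, e_ne hk.symm], fun l => ?_⟩
    have := h2 l
    rw [Pi.add_apply, e_apply]
    split_ifs with hl
    · subst hl; omega
    · omega

lemma OK.ps {j : ℕ} {C : Z n} (hj : j + 1 < ρ.a) (hp : pos C = ctr)
    (hs : ∀ i, i < ρ.M → anc j (ρ.ψ (ρ.v i)) ≠ C) : (sys k0).PS (ρ.reg k0 (j + 1) (par C)) := by
  refine ⟨not_le.2 hj, fun h1 => ?_⟩
  obtain ⟨i, hi⟩ := (h.st_iff (j := j) (by omega) C).2 (by rw [hp]; exact h1)
  exact hs i hi.1 hi.2.2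

lemma OK.low (c : Z n) : ¬ (ρ.reg k0 0 c).hi ∧ ((ρ.reg k0 0 c).cin ↔ (ρ.reg k0 0 c).W) := by
  have := h.a1
  refine ⟨by simp only [Reg.reg]; omega, by simp [Reg.reg]⟩

lemma OK.inc0 (c : Z n) (k : Fin n) :
    ((ρ.reg k0 0 c).inc k).1 = ρ.X 0 (c + e k) - ρ.X 0 c := by
  rw [h.inc_val]; funext l; simp [Reg.hh]

end Reg

end Pool.Agent.MP_c4ca5b_lc

end

section

set_option linter.unusedSectionVars false

namespace Pool.Agent.MP_c4ca5b_lc

open Finset

variable {n : ℕ}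

def kst (n : ℕ) : ℕ := (n * Rw n + n + 5).toNat

def N0 (n : ℕ) : ℕ := 3 ^ kst n

lemma N0_gt (n : ℕ) : n * Rw n + n + 5 < (N0 n : ℤ) := by
  have h1 : kst n < 3 ^ kst n := Nat.lt_pow_self (by norm_num)
  have h2 : (0:ℤ) ≤ n * Rw n := mul_nonneg (by positivity) (by have := Rw_pos n; omega)
  have h3 : ((kst n : ℕ) : ℤ) = n * Rw n + n + 5 := by unfold kst; omega
  unfold N0; omega

instance : NeZero (N0 n) := ⟨by unfold N0; positivity⟩

structure Lab (n : ℕ) : Type where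
  pb : Fin n → ZMod (N0 n)
  off : Bx n
  mp : Mk n (Lam n) × Pay n (Lam n)

instance : Finite (Lab n) :=
  Finite.of_injective (fun m : Lab n => (m.pb, m.off, m.mp)) (by
    rintro ⟨⟩ ⟨⟩ h; simp only [Prod.mk.injEq] at h; simp only [Lab.mk.injEq]; exact h)

instance : Inhabited (Lab n) := ⟨⟨0, default, default⟩⟩

def cong (l l' : Lab n) (c : Z n) : Prop := ∀ k, l'.pb k - l.pb k = (c k : ZMod (N0 n))

lemma cong_unique {l l' : Lab n} {c c' : Z n} (h : cong l l' c) (h' : cong l l' c')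
    (hb : nb (c - c') (n * Rw n + n + 5)) : c = c' := by
  funext k
  have h1 : ((c k - c' k : ℤ) : ZMod (N0 n)) = 0 := by push_cast; rw [← h k, ← h' k]; ring
  rw [ZMod.intCast_zmod_eq_zero_iff_dvd] at h1
  have h2 := hb k
  have h3 := N0_gt n
  have := Int.eq_zero_of_abs_lt_dvd h1 (by simp only [Pi.sub_apply] at h2; omega)
  omega

def wit (l : Lab n) : Prop := l.mp.1.lam.st ∧ l.off.1 = 0

structure Rule (k0 : Fin n) (z : Z n → Lab n) : Prop where
  r1 : ∀ i, ∃ t, nb t 1 ∧ cong (z 0) (z (e i)) t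
  r2 : ∀ i, ∃ t, nb t 1 ∧ cong (z 0) (z (Mc n • e i)) (((n : ℤ) + 1) • e i + t)
  r3p : ∀ k, ∃ y, nb y (Rw n) ∧ cong (z 0) (z y) (e k)
  r3m : ∀ k, ∃ y, nb y (Rw n) ∧ cong (z 0) (z y) (-e k)
  p1 : ∀ y, nb y (Rw n) → cong (z 0) (z y) 0 →
    (z y).mp = (z 0).mp ∧ y + (z y).off.1 = (z 0).off.1
  p2 : ∀ y k, nb y (Rw n) → cong (z 0) (z y) (e k) →
    (sys k0).Rel k (z 0).mp.1 (z y).mp.1 ∧ (z 0).mp.2.fp k = (z y).mp.2.fm k ∧
    (¬ (z 0).mp.1.lam.Fp k → ¬ (z y).mp.1.lam.Fm k →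
      ((z 0).mp.1.lam.inc k).1 = y + (z y).off.1 - (z 0).off.1)
  p3 : (sys k0).K0 (z 0).mp.2 ∧ (∀ k, (sys k0).Chk k (z 0).mp.1 ((z 0).mp.2.fp k)) ∧
    ¬ (z 0).mp.1.lam.hi ∧ ((z 0).mp.1.lam.cin ↔ (z 0).mp.1.lam.W)
  p4 : (z 0).mp.1.lam.st → wit (z (z 0).off.1)

lemma nb_Mc (i : Fin n) : nb (Mc n • e i) (Mc n) := fun k => by
  have := Mc_pos n
  simp only [Pi.smul_apply, smul_eq_mul, e_apply]
  split_ifs
  · rw [mul_one, abs_of_nonneg (by omega)]
  · simp; omega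

lemma Mc_le_Rw (n : ℕ) : Mc n ≤ Rw n := by unfold Rw; have := C1_pos n; omega

lemma Rule.local {k0 : Fin n} {z z' : Z n → Lab n} (h : Rule k0 z)
    (hz : ∀ y, nb y (Bd n) → z' y = z y) : Rule k0 z' := by
  have h0 : z' 0 = z 0 := hz 0 (nb_zero (Bd_pos n))
  have hR : ∀ y, nb y (Rw n) → z' y = z y := fun y hy => hz y (hy.mono (Bd_ge n))
  constructor
  · intro i
    rw [h0, hR _ ((nb_e i).mono (by have := Rw_pos n; omega))]; exact h.r1 i
  · intro i
    rw [h0, hR _ ((nb_Mc i).mono (Mc_le_Rw n))]; exact h.r2 i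
  · intro k
    obtain ⟨y, h1, h2⟩ := h.r3p k
    exact ⟨y, h1, by rw [h0, hR y h1]; exact h2⟩
  · intro k
    obtain ⟨y, h1, h2⟩ := h.r3m k
    exact ⟨y, h1, by rw [h0, hR y h1]; exact h2⟩
  · intro y hy
    rw [h0, hR y hy]; exact h.p1 y hy
  · intro y k hy
    rw [h0, hR y hy]; exact h.p2 y k hy
  · rw [h0]; exact h.p3
  · rw [h0, hz _ (z 0).off.2]; exact h.p4

def mainLCL (k0 : Fin n) : LCL n where
  Label := Lab n
  finite_label := inferInstance
  radius := (Bd n).toNat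
  allowed := {p | ∃ z, Rule k0 z ∧ ∀ v, p v = z v.1}

lemma mainLCL_iff (k0 : Fin n) (z : Z n → Lab n) :
    (fun v : {v : Fin n → ℤ // ∀ i, |v i| ≤ ((mainLCL k0).radius : ℤ)} => z v.1) ∈
      (mainLCL k0).allowed ↔ Rule k0 z := by
  refine ⟨fun ⟨z', h1, h2⟩ => h1.local fun y hy => ?_, fun h => ⟨z, h, fun _ => rfl⟩⟩
  exact h2 ⟨y, fun i => by
    have := hy i; have := Bd_pos n
    show |y i| ≤ ((Bd n).toNat : ℤ); omega⟩

/-- the 2-adic neighbourhood filter of `0` -/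
def tw (n : ℕ) : Filter (Z n) where
  sets := {S | ∃ b : ℕ, ∀ v : Z n, ((2:ℤ) ^ b) • v ∈ S}
  univ_sets := ⟨0, fun _ => trivial⟩
  sets_of_superset := fun ⟨b, hb⟩ h => ⟨b, fun v => h (hb v)⟩
  inter_sets := fun ⟨b, hb⟩ ⟨b', hb'⟩ => ⟨b + b', fun v =>
    ⟨by rw [pow_add, mul_smul]; exact hb _, by rw [pow_add, mul_comm, mul_smul]; exact hb' _⟩⟩

section NoToeplitz

variable {k0 : Fin n} {z : Z n → Lab n}

lemma exists_psi (hz : ∀ u, Rule k0 (fun v => z (u + v))) :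
    ∃ ψ : Z n → Z n, IsGrid ψ ∧ ∀ u u', cong (z u) (z u') (ψ u' - ψ u) := by
  have h1 : ∀ u i, ∃ t, nb t 1 ∧ cong (z u) (z (u + e i)) t := fun u i => by
    simpa using (hz u).r1 i
  choose g hg1 hg2 using h1
  have hn : (0:ℤ) ≤ n * Rw n := mul_nonneg (by positivity) (by have := Rw_pos n; omega)
  have flat : ∀ i k u, g (u + e k) i - g u i = g (u + e i) k - g u k := by
    intro i k u
    have a1 : cong (z u) (z (u + e k + e i)) (g u k + g (u + e k) i) := fun l => by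
      have := hg2 u k l; have := hg2 (u + e k) i l
      simp only [Pi.add_apply]; push_cast; grind
    have a2 : cong (z u) (z (u + e k + e i)) (g u i + g (u + e i) k) := fun l => by
      have := hg2 u i l; have h3 := hg2 (u + e i) k l
      rw [show u + e i + e k = u + e k + e i by abel] at h3
      simp only [Pi.add_apply]; push_cast; grind
    have := cong_unique a1 a2 ((((hg1 _ _).add (hg1 _ _)).sub ((hg1 _ _).add (hg1 _ _))).mono
      (by omega))
    funext l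
    have := congrFun this l
    simp only [Pi.add_apply, Pi.sub_apply] at this ⊢
    linarith
  have h2 : ∀ l, ∃ F : Z n → ℤ, ∀ i u, F (u + e i) - F u = g u i l := fun l =>
    exists_potential (fun i u => g u i l) (fun i k u => congrFun (flat i k u) l)
  choose F hF using h2
  let ψ : Z n → Z n := fun u l => F l u
  have hc : ∀ u u', cong (z u) (z u') (ψ u' - ψ u) := by
    intro u u'
    refine unit_induction (P := fun u' => cong (z u) (z u') (ψ u' - ψ u)) u ?_ ?_ u'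
    · intro l; simp
    · intro w k
      refine forall_congr' fun l => ?_
      have a1 := hg2 w k l
      have a2 : ((F l (w + e k) : ℤ) : ZMod (N0 n)) - (F l w : ℤ) = (g w k l : ℤ) := by
        rw [← hF l k w]; push_cast; ring
      simp only [Pi.sub_apply, ψ]; push_cast
      constructor <;> intro h <;> grind
  have hlip : ∀ u i k, |ψ (u + e i) k - ψ u k| ≤ 1 := fun u i k => by
    simp only [ψ]; rw [hF]; exact hg1 u i k
  have hlip' : ∀ u y R, nb y R → nb (ψ (u + y) - ψ u) (n * R) := fun u y R hy k =>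
    lip_nb (F := fun u => ψ u k) (fun u i => hlip u i k) u y hy
  refine ⟨ψ, ⟨hlip, fun u i k => ?_, fun u k => ?_, fun u k => ?_⟩, hc⟩
  · obtain ⟨t, h1, h2⟩ := (hz u).r2 i
    simp only [add_zero] at h2
    have h3 : nb (((n : ℤ) + 1) • e i) (n + 1) := fun l => by
      simp only [Pi.smul_apply, smul_eq_mul, e_apply]
      split_ifs
      · rw [mul_one, abs_of_nonneg (by omega)]
      · simp; omega
    have := cong_unique (hc _ _) h2 (((hlip' u _ _ ((nb_Mc i).mono (Mc_le_Rw n))).sub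
      (h3.add h1)).mono (by omega))
    have := congrFun this k
    simp only [Pi.sub_apply, Pi.add_apply, Pi.smul_apply, smul_eq_mul] at this
    rw [this, add_sub_cancel_left]; exact h1 k
  · obtain ⟨y, h1, h2⟩ := (hz u).r3p k
    simp only [add_zero] at h2
    have := cong_unique (hc _ _) h2 (((hlip' u _ _ h1).sub (nb_e k)).mono (by omega))
    exact ⟨y, h1, by rw [← this]; abel⟩
  · obtain ⟨y, h1, h2⟩ := (hz u).r3m k
    simp only [add_zero] at h2
    have := cong_unique (hc _ _) h2 (((hlip' u _ _ h1).sub (nb_e k).neg).mono (by omega))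
    exact ⟨y, h1, by rw [← sub_eq_zero, ← add_neg_cancel (e k), ← this]; abel⟩

/-- iterated derived configurations -/
def zs (k0 : Fin n) (ζ : Cfg n (Lam n)) (j : ℕ) : Cfg n (Lam n) := (der k0)^[j] ζ

def ancA (k0 : Fin n) (ζ : Cfg n (Lam n)) (c : Z n) : ℕ → Z n
  | 0 => c
  | j + 1 => par (ancA k0 ζ c j - offs (zs k0 ζ j))

lemma zs_succ (ζ : Cfg n (Lam n)) (j : ℕ) : zs k0 ζ (j + 1) = der k0 (zs k0 ζ j) :=
  Function.iterate_succ_apply' _ _ _

variable [Nontrivial (Fin n)]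

lemma zs_valid {ζ : Cfg n (Lam n)} (h : (sys k0).Valid ζ) (j : ℕ) : (sys k0).Valid (zs k0 ζ j) := by
  induction j with
  | zero => exact h
  | succ j ih => rw [zs_succ]; exact ih.der k0

lemma standardize {ζ : Cfg n (Lam n)} (h : (sys k0).Valid ζ) (K : ℕ) (E : Z n) :
    ∃ b : ℕ → Z n, b K = E ∧ (sys k0).Pyr K (fun j C => (zs k0 ζ j (C + b j)).1.lam) ∧
      ∀ j, j ≤ K → ∀ c, ancA k0 ζ (c + b 0) j = anc j c + b j := by
  let cor : ℕ → Z n := fun d => Nat.rec E (fun d C => (3:ℤ) • C + offs (zs k0 ζ (K - (d + 1)))) d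
  let b : ℕ → Z n := fun j => cor (K - j)
  have hb : ∀ j, j < K → b j = (3:ℤ) • b (j + 1) + offs (zs k0 ζ j) := by
    intro j hj
    simp only [b]
    rw [show K - j = K - (j + 1) + 1 by omega]
    simp only [cor]
    rw [show K - (K - (j + 1) + 1) = j by omega]
  have hpos : ∀ j C, j < K → (zs k0 ζ j (C + b j)).1.ps = pos C := by
    intro j C hj
    rw [(zs_valid h j).ps_eq, hb j hj,
      show C + ((3:ℤ) • b (j + 1) + offs (zs k0 ζ j)) - offs (zs k0 ζ j) = C + (3:ℤ) • b (j + 1)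
        by abel, pos_add_smul]
  have hpar : ∀ j C, j < K → par (C + b j - offs (zs k0 ζ j)) = par C + b (j + 1) := by
    intro j C hj
    rw [hb j hj,
      show C + ((3:ℤ) • b (j + 1) + offs (zs k0 ζ j)) - offs (zs k0 ζ j) = C + (3:ℤ) • b (j + 1)
        by abel, par_add_smul]
  have hpc : ∀ j C, j < K → (sys k0).PC (zs k0 ζ j (C + b j)).1
      (zs k0 ζ (j + 1) (par C + b (j + 1))).1.lam := by
    intro j C hj
    have := (zs_valid h j).pc k0 (C + b j)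
    rwa [hpar j C hj, ← zs_succ] at this
  refine ⟨b, by simp [b, cor], ⟨?_, ?_, ?_, ?_⟩, ?_⟩
  · intro j C _
    exact ((zs_valid h j).rel (C + b j) k0).2.2.1
  · intro j C hj _ hs
    exact ⟨by rw [← hpos j C hj]; exact ((zs_valid h j).rel (C + b j) k0).2.2.2.1 hs,
      (hpc j C hj).1 hs⟩
  · intro j C hj _ hs
    have := (((zs_valid h j).rel (C + b j) k0).2.2.2.2 hs).1
    rwa [hpos j C hj, (hpc j C hj).2 hs] at this
  · intro j C k hj _ _ hs
    have := (((zs_valid h j).rel (C + b j) k).2.2.2.2 hs).2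
    rwa [hpos j C hj, (hpc j C hj).2 hs, show C + b j + e k = C + e k + b j by abel] at this
  · intro j
    induction j with
    | zero => intro _ c; simp [ancA]
    | succ j ih =>
      intro hj c
      rw [ancA, ih (by omega), hpar j _ (by omega), anc_succ]

lemma lift_all {α : Type} (F : Filter α) {ζ : Cfg n (Lam n)} (h : (sys k0).Valid ζ)
    (τ : α → Z n) (hτ : ∀ c, ∀ᶠ v in F, ζ (c + τ v) = ζ c) (c : Z n) (j : ℕ) :
    ∃ τ' : α → Z n, (∀ C, ∀ᶠ v in F, zs k0 ζ j (C + τ' v) = zs k0 ζ j C) ∧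
      ∀ᶠ v in F, ancA k0 ζ (c + τ v) j = ancA k0 ζ c j + τ' v := by
  induction j with
  | zero => exact ⟨τ, hτ, Filter.Eventually.of_forall fun _ => rfl⟩
  | succ j ih =>
    obtain ⟨τ1, h1, h2⟩ := ih
    obtain ⟨τ2, h3, h4⟩ := (zs_valid h j).lift F k0 τ1 h1
    refine ⟨τ2, by rw [zs_succ]; exact h4, ?_⟩
    filter_upwards [h2, h3] with v h5 h6
    rw [ancA, ancA, h5, h6, ← par_add_smul]
    congr 1; abel

theorem no_toeplitz (hz : ∀ u, Rule k0 (fun v => z (u + v)))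
    (hT : ∀ w, ∀ᶠ v in tw n, z (w + v) = z w) : False := by
  obtain ⟨ψ, hψ, hc⟩ := exists_psi hz
  choose σ hσ using hψ.surj
  let ζ : Cfg n (Lam n) := fun c => (z (σ c)).mp
  let x : Z n → Z n := fun c => σ c + (z (σ c)).off.1
  have hzu : ∀ u, ζ (ψ u) = (z u).mp ∧ x (ψ u) = u + (z u).off.1 := by
    intro u
    have := (hz u).p1 (σ (ψ u) - u) (hψ.fibre (hσ _)) (by
      have := hc u (σ (ψ u))
      rw [hσ, sub_self] at this
      simpa using this)
    simp only [add_sub_cancel, add_zero] at this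
    exact ⟨this.1, by rw [← this.2]; simp only [x]; abel⟩
  have hp2 : ∀ c k, (sys k0).Rel k (ζ c).1 (ζ (c + e k)).1 ∧ (ζ c).2.fp k = (ζ (c + e k)).2.fm k ∧
      (¬ (ζ c).1.lam.Fp k → ¬ (ζ (c + e k)).1.lam.Fm k →
        ((ζ c).1.lam.inc k).1 = x (c + e k) - x c) := by
    intro c k
    obtain ⟨y, h1, h2⟩ := hψ.surp (σ c) k
    have := (hz (σ c)).p2 y k h1 (by
      have := hc (σ c) (σ c + y)
      rw [h2, add_sub_cancel_left] at this
      simpa using this)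
    rw [hσ] at h2
    simp only [add_zero] at this
    rw [← h2, (hzu _).1, (hzu _).2]
    refine ⟨this.1, this.2.1, fun a b => ?_⟩
    rw [this.2.2 a b]; simp only [x]; abel
  have hp3 : ∀ c, (sys k0).K0 (ζ c).2 ∧ (∀ k, (sys k0).Chk k (ζ c).1 ((ζ c).2.fp k)) ∧
      ¬ (ζ c).1.lam.hi ∧ ((ζ c).1.lam.cin ↔ (ζ c).1.lam.W) := fun c => by
    simpa using (hz (σ c)).p3
  have hV : (sys k0).Valid ζ :=
    ⟨fun c => (hp3 c).1, fun c k => (hp2 c k).1, fun c k => (hp2 c k).2.1, fun c => (hp3 c).2.1⟩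
  have hB : ∀ (K : ℕ) (b : ℕ → Z n),
      Base K (fun j C => (zs k0 ζ j (C + b j)).1.lam) (fun c => x (c + b 0)) := fun K b =>
    ⟨fun c _ => (hp3 _).2.2, fun c k _ _ => by
      rw [show c + e k + b 0 = c + b 0 + e k by abel]; exact (hp2 _ k).2.2⟩
  -- a non-witness
  obtain ⟨u1, hu1⟩ : ∃ u1, ¬ (z u1).mp.1.lam.st := by
    obtain ⟨b, -, h1, -⟩ := standardize hV 1 0
    obtain ⟨c, hc⟩ := exists_not_st h1 (hB 1 b)
    exact ⟨_, hc⟩
  obtain ⟨b1, hb1⟩ := hT u1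
  -- large cells with holes of bounded level
  obtain ⟨m, hm⟩ : ∃ m : ℕ, ∀ L, ∃ (K : ℕ) (b : ℕ → Z n), L ≤ K ∧
      (sys k0).Pyr K (fun j C => (zs k0 ζ j (C + b j)).1.lam) ∧
      ∀ c, Sub K 0 c → (∀ j, j < m → ¬ (zs k0 ζ j (ancA k0 ζ (c + b 0) j)).1.lam.sp) →
        Free K (fun j C => (zs k0 ζ j (C + b j)).1.lam) 0 c := by
    by_cases hbd : ∃ m, ∀ K E, (zs k0 ζ K E).1.lam.sp → K < m
    · obtain ⟨m, hm⟩ := hbd
      refine ⟨m, fun L => ?_⟩
      obtain ⟨b, -, h1, h2⟩ := standardize hV L 0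
      refine ⟨L, b, le_rfl, h1, fun c _ h3 i hi hT => ?_⟩
      have h4 := hT.1
      simp only [zero_add] at h4
      exact h3 i (hm _ _ h4) (by rw [h2 i (by omega)]; exact h4)
    · push Not at hbd
      refine ⟨b1, fun L => ?_⟩
      obtain ⟨K, E, h0, hK⟩ := hbd L
      obtain ⟨b, hbK, h1, h2⟩ := standardize hV K E
      obtain ⟨a, h3, h4⟩ := cover h1 (hB K b) (by simpa [hbK] using h0)
      have hab : a < b1 := by
        by_contra hab
        obtain ⟨c, -, h5, h6⟩ := h4 u1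
        have h7 := (hz (σ (c + b 0))).p4 (by rw [add_zero]; exact h5)
        simp only [add_zero] at h7
        have h8 : ∀ k, ∃ t, x (c + b 0) k - u1 k = 2 ^ b1 * t := fun k =>
          (((pow_dvd_pow (2:ℤ) (by omega : b1 ≤ a)).trans
            (pow_dvd_pow_of_dvd (by norm_num : (2:ℤ) ∣ 6) a)).trans (h6 k))
        choose t ht using h8
        have h9 : x (c + b 0) = u1 + ((2:ℤ) ^ b1) • t := by
          funext k; simp only [Pi.add_apply, Pi.smul_apply, smul_eq_mul]; rw [← ht k]; ring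
        have h10 : z (u1 + ((2:ℤ) ^ b1) • t) = z u1 := hb1 t
        change wit (z (x (c + b 0))) at h7
        rw [h9, h10] at h7
        exact hu1 h7.1
      refine ⟨K, b, hK, h1, fun c hc h5 => ?_⟩
      by_cases haK : a ≤ K
      · exact h3 c hc fun j hj => by rw [← h2 j (by omega)]; exact h5 j (by omega)
      · intro i hi hT
        have h4 := hT.1
        simp only [zero_add] at h4
        exact h5 i (by omega) (by rw [h2 i (by omega)]; exact h4)
  -- a base point that is free up to level `m`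
  obtain ⟨c0, hc0⟩ : ∃ c0, ∀ j, j < m → ¬ (zs k0 ζ j (ancA k0 ζ c0 j)).1.lam.sp := by
    obtain ⟨b, -, h1, h2⟩ := standardize hV m 0
    refine ⟨0 + b 0, fun j hj => ?_⟩
    rw [h2 j hj.le]
    have : anc j (0 : Z n) = 0 := by funext k; simp [anc]
    rw [this]
    exact (free_zero k0 j).not_sp h1 hj (sub_zero' hj.le)
  set u0 := σ c0 with hu0
  have hτ : ∀ w, ∀ᶠ v in tw n, ψ (w + v) - ψ w = ψ (u0 + v) - ψ u0 := by
    refine unit_induction u0 (Filter.Eventually.of_forall fun _ => rfl) fun w k => ?_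
    have : ∀ᶠ v in tw n, ψ (w + e k + v) - ψ (w + e k) = ψ (w + v) - ψ w := by
      filter_upwards [hT w, hT (w + e k)] with v h1 h2
      have a1 := hc (w + v) (w + e k + v)
      rw [h1, h2] at a1
      have a2 : nb (ψ (w + e k + v) - ψ (w + v)) 1 := fun l => by
        rw [show w + e k + v = w + v + e k by abel]; exact hψ.lip _ _ _
      have a3 : nb (ψ (w + e k) - ψ w) 1 := fun l => hψ.lip _ _ _
      have hn : (0:ℤ) ≤ n * Rw n := mul_nonneg (by positivity) (by have := Rw_pos n; omega)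
      have := cong_unique a1 (hc w (w + e k)) ((a2.sub a3).mono (by omega))
      rw [sub_eq_sub_iff_sub_eq_sub]; exact this
    constructor <;> intro h <;> filter_upwards [h, this] with v h1 h2
    · rw [h2, h1]
    · rw [← h2, h1]
  have hτ' : ∀ c, ∀ᶠ v in tw n, ζ (c + (ψ (u0 + v) - ψ u0)) = ζ c := by
    intro c
    filter_upwards [hτ (σ c), hT (σ c)] with v h1 h2
    rw [← h1, hσ, add_sub_cancel, (hzu _).1, h2]
  have hfree : ∀ᶠ v in tw n, ∀ j ∈ Finset.range m,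
      ¬ (zs k0 ζ j (ancA k0 ζ (ψ (u0 + v)) j)).1.lam.sp := by
    rw [Filter.eventually_all_finset]
    intro j hj
    obtain ⟨τ', h1, h2⟩ := lift_all (tw n) hV _ hτ' c0 j
    filter_upwards [h1 (ancA k0 ζ c0 j), h2] with v h3 h4
    rw [hu0, hσ, add_sub_cancel] at h4
    rw [hu0, h4, h3]
    exact hc0 j (Finset.mem_range.1 hj)
  obtain ⟨b2, hb2⟩ := hfree.and (hT u0)
  obtain ⟨K, b, hK, hP, hF⟩ := hm (n * 2 ^ (b2 + 1) + 1)
  set uE := σ (b 0 + ((3:ℤ) ^ (K - 1)) • one) with huE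
  have key : ∀ q : Z n, nb (u0 + ((2:ℤ) ^ b2) • q - uE) (2 ^ (b2 + 1)) →
      (6:ℤ) ∣ u0 k0 + 2 ^ b2 * q k0 + (z u0).off.1 k0 - (z u0).mp.1.lam.d.1 k0 -
        (x (0 + b 0) - Hs (fun j C => (zs k0 ζ j (C + b j)).1.lam) 1 0) k0 := by
    intro q hq
    obtain ⟨h1, h2⟩ := hb2 q
    set u := u0 + ((2:ℤ) ^ b2) • q with hu
    have h3 := hψ.lip_nb uE _ hq
    rw [add_sub_cancel, huE, hσ] at h3
    have h4 : Sub K 0 (ψ u - b 0) := by
      rw [sub_iff]
      refine ⟨by omega, fun k => ?_⟩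
      have a1 := h3 k
      have a2 : n * 2 ^ (b2 + 1) < 3 ^ (K - 1) :=
        lt_of_le_of_lt (by omega) (Nat.lt_pow_self (by norm_num) : K - 1 < 3 ^ (K - 1))
      have a3 : (n : ℤ) * 2 ^ (b2 + 1) < 3 ^ (K - 1) := by exact_mod_cast a2
      have a4 : (3:ℤ) ^ (K - 0) = 3 * 3 ^ (K - 1) := pow_sub_succ (by omega)
      simp only [Pi.sub_apply, Pi.add_apply, Pi.smul_apply, one, smul_eq_mul, mul_one] at a1 ⊢
      rw [abs_le] at a1
      constructor <;> linarith [a1.1, a1.2]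
    have h5 := hF _ h4 fun j hj => by
      rw [sub_add_cancel]; exact h1 j (Finset.mem_range.2 hj)
    have h6 := rigid hP (hB K b) (a := 1) (by omega) h4 h5 k0
    have h7 : zs k0 ζ 0 = ζ := rfl
    simp only [Hs, range_one, sum_singleton, pow_zero, one_smul, anc_zero, sub_add_cancel, h7,
      pow_one] at h6 ⊢
    rw [(hzu u).1, (hzu u).2, h2] at h6
    simpa [hu] using h6
  let q : Z n := fun k => (uE k - u0 k) / 2 ^ b2
  have hq : ∀ k, 0 ≤ uE k - u0 k - 2 ^ b2 * q k ∧ uE k - u0 k - 2 ^ b2 * q k < 2 ^ b2 := fun k => by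
    have hp : (0:ℤ) < 2 ^ b2 := by positivity
    have h1 := Int.mul_ediv_add_emod (uE k - u0 k) (2 ^ b2)
    have h2 := Int.emod_nonneg (uE k - u0 k) hp.ne'
    have h3 := Int.emod_lt_of_pos (uE k - u0 k) hp
    simp only [q]; constructor <;> linarith
  have k1 := key q fun k => by
    have := hq k
    simp only [Pi.sub_apply, Pi.add_apply, Pi.smul_apply, smul_eq_mul]
    rw [abs_le, pow_succ]; constructor <;> linarith [this.1, this.2]
  have k2 := key (q + e k0) fun k => by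
    have := hq k
    simp only [Pi.sub_apply, Pi.add_apply, Pi.smul_apply, smul_eq_mul, e_apply]
    rw [abs_le, pow_succ]
    split_ifs <;> constructor <;> linarith [this.1, this.2]
  have k3 := dvd_sub k2 k1
  simp only [Pi.add_apply, e_same] at k3
  have k4 : (6:ℤ) ∣ 2 ^ b2 := by
    obtain ⟨t, ht⟩ := k3
    exact ⟨t, by rw [← ht]; ring⟩
  have := Int.prime_three.dvd_of_dvd_pow ((by norm_num : (3:ℤ) ∣ 6).trans k4)
  omega

end NoToeplitz

end Pool.Agent.MP_c4ca5b_lc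

end

section

set_option linter.unusedSectionVars false

namespace Pool.Agent.MP_c4ca5b_lc

open Finset

variable {n : ℕ}

structure Plan (n : ℕ) : Type where
  K : ℕ → ℕ
  a : ℕ → ℕ
  S : ℕ → ℤ
  v : ℕ → ℕ → Z n
  O : ℕ → ℕ → Set (Z n)

namespace Plan

variable (k0 : Fin n) (p : Plan n)

structure OK : Prop where
  pr : ParOK n p.K p.S
  aa : ∀ t s, t < s → p.K t + 2 ≤ p.a s
  a1 : ∀ s, 1 ≤ p.a s
  aK : ∀ s, p.a s + 3 ≤ p.K s
  kk : ∀ s, kst n ≤ p.K s
  sep : ∀ s t, Sep (p.O s t) (2 * Rp n t (p.K t) (p.S t))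
  agree : ∀ s t w, w ∈ p.O s t → ∀ t', t' < t → ∀ y, nb y (Rp n t (p.K t) (p.S t)) →
    (w + y ∈ p.O s t' ↔ y ∈ p.O t t')
  vin : ∀ s i, i < (6 ^ n) ^ p.a s → nb (p.v s i) (3 ^ (p.K s - 2))
  vgap : ∀ s i i', i < i' → i' < (6 ^ n) ^ p.a s → p.v s i k0 + 8 * 3 ^ p.a s ≤ p.v s i' k0
  vdig : ∀ s i, i < (6 ^ n) ^ p.a s → ∀ j, j < p.a s → ∀ k,
    p.v s i k / 6 ^ j % 6 = emb (dg n i j) k
  vfree : ∀ s t i w, t < s → i < (6 ^ n) ^ p.a s → w ∈ p.O s t →
    ¬ nb (p.v s i - w) (rho n (p.K t))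

noncomputable def ψ (s : ℕ) : Z n → Z n := psi (p.O s) p.K p.S s

noncomputable def rg (s : ℕ) : Reg n := ⟨p.K s, p.a s, p.v s, p.ψ s⟩

noncomputable def qq (s t : ℕ) (w : Z n) : Z n := anc (p.K t) (p.ψ s w)

def Hole (s t : ℕ) (w : Z n) (j : ℕ) (C : Z n) : Prop :=
  t < s ∧ w ∈ p.O s t ∧ j ≤ p.K t ∧ anc (p.K t - j) C = p.qq s t w

noncomputable def tr (s t : ℕ) (w : Z n) (j : ℕ) (C : Z n) : Z n :=
  C - ((3:ℤ) ^ (p.K t - j)) • p.qq s t w

open Classical in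
noncomputable def lab (s : ℕ) (j : ℕ) (C : Z n) : Lam n × Z n :=
  if h : ∃ r : ℕ × Z n, p.Hole s r.1 r.2 j C then
    ((lab h.choose.1 j (p.tr s h.choose.1 h.choose.2 j C)).1,
      h.choose.2 + (lab h.choose.1 j (p.tr s h.choose.1 h.choose.2 j C)).2)
  else ((p.rg s).reg k0 j C, (p.rg s).X j C)
termination_by s
decreasing_by all_goals exact h.choose_spec.1

noncomputable def lam (s j : ℕ) (C : Z n) : Lam n := (p.lab k0 s j C).1

noncomputable def xx (s : ℕ) (c : Z n) : Z n := (p.lab k0 s 0 c).2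

variable {k0 p}

lemma lab_free {s j : ℕ} {C : Z n} (h : ¬ ∃ t w, p.Hole s t w j C) :
    p.lab k0 s j C = ((p.rg s).reg k0 j C, (p.rg s).X j C) := by
  rw [lab, dif_neg]
  rintro ⟨r, hr⟩; exact h ⟨r.1, r.2, hr⟩

lemma hole_iff {s t j : ℕ} {w C : Z n} : p.Hole s t w j C ↔
    t < s ∧ w ∈ p.O s t ∧ Sub (p.K t) j (p.tr s t w j C) := by
  unfold Hole Sub tr
  rw [sub_eq_add_neg, ← smul_neg, anc_add_smul, add_neg_eq_zero]

lemma tr_add (s t j : ℕ) (w C y : Z n) : p.tr s t w j (C + y) = p.tr s t w j C + y := by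
  unfold tr; abel

lemma tr_par {s t j : ℕ} (w C : Z n) (hj : j < p.K t) :
    p.tr s t w (j + 1) (par C) = par (p.tr s t w j C) ∧ pos (p.tr s t w j C) = pos C := by
  unfold tr
  rw [pow_smul_succ hj, sub_eq_add_neg C, ← smul_neg, par_add_smul, pos_add_smul, sub_eq_add_neg]
  exact ⟨rfl, rfl⟩

lemma Hole.par {s t j : ℕ} {w C : Z n} (h : p.Hole s t w j C) (hj : j < p.K t) :
    p.Hole s t w (j + 1) (par C) := by
  rw [hole_iff] at h ⊢
  exact ⟨h.1, h.2.1, by rw [(tr_par w C hj).1]; exact h.2.2.par hj⟩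

lemma Hole.of_par {s t j : ℕ} {w C : Z n} (h : p.Hole s t w (j + 1) (Pool.Agent.MP_c4ca5b_lc.par C)) :
    p.Hole s t w j C := by
  have hj : j < p.K t := h.2.2.1
  rw [hole_iff] at h ⊢
  refine ⟨h.1, h.2.1, sub_of_anc (i := 1) ?_⟩
  rw [anc_succ, anc_zero, ← (tr_par w C hj).1]; exact h.2.2

variable (h : p.OK k0)
include h

lemma OK.grid (s : ℕ) : IsGrid (p.ψ s) := psi_grid h.pr (h.sep s) s

lemma OK.inZ {s : ℕ} {u : Z n} (hu : nb u (3 ^ (p.K s - 2))) : InZ (p.K s) 0 (p.ψ s u) := by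
  have h1 := h.aK s
  rw [inZ_iff]
  refine ⟨by omega, fun k => ?_⟩
  have h2 := psi_bound h.pr (h.sep s) (fun t ht => h.aa t s ht) u k
  have h3 := hu k
  obtain ⟨d, hd⟩ : ∃ d, p.K s = d + 3 := ⟨p.K s - 3, by omega⟩
  have h4 : (3:ℤ) ^ p.a s ≤ 3 ^ d := pow_le_pow_right₀ (by norm_num) (by omega)
  have h5 : (1:ℤ) ≤ 3 ^ d := one_le_pow₀ (by norm_num)
  rw [hd] at h2 h3 ⊢
  rw [show d + 3 - 2 = d + 1 by omega, abs_le] at h3
  rw [show d + 3 - 1 - 0 = d + 2 by omega]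
  simp only [pow_succ, ψ] at h2 h3 ⊢
  omega

lemma OK.rg_ok (s : ℕ) : (p.rg s).OK k0 := by
  refine ⟨h.grid s, h.a1 s, by have := h.aK s; simp only [rg]; omega,
    fun i hi => (h.inZ (h.vin s i hi)).sub, fun i i' hi hi' => ?_, h.vdig s⟩
  have h1 := psi_bound h.pr (h.sep s) (fun t ht => h.aa t s ht) (p.v s i) k0
  have h2 := psi_bound h.pr (h.sep s) (fun t ht => h.aa t s ht) (p.v s i') k0
  have h3 := h.vgap s i i' hi hi'
  have hp : (0:ℤ) < 3 ^ p.a s := by positivity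
  simp only [Reg.col, rg, anc, ψ]
  have h4 : (psi (p.O s) p.K p.S s (p.v s i) k0 + 1 * 3 ^ p.a s) / 3 ^ p.a s ≤
      psi (p.O s) p.K p.S s (p.v s i') k0 / 3 ^ p.a s := Int.ediv_le_ediv hp (by omega)
  rw [Int.add_mul_ediv_right _ _ hp.ne'] at h4
  omega

lemma OK.copy {s t : ℕ} {w : Z n} (hts : t < s) (hw : w ∈ p.O s t) :
    pos (p.qq s t w) = ctr ∧ ∀ y, nb y (rho n (p.K t)) →
      p.ψ s (w + y) = p.ψ t y + ((3:ℤ) ^ p.K t) • p.qq s t w := by
  obtain ⟨q, h1, h2⟩ := psi_copy h.pr (h.sep s) (h.sep t) hts hw (h.agree s t w hw)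
  have h3 : p.qq s t w = q := by
    have := h2 0 (nb_zero (rho_nonneg _ _))
    rw [add_zero] at this
    have h4 := (h.inZ (s := t) (u := 0) (nb_zero (by positivity))).sub.2
    rw [qq, ψ, this, anc_add_smul]
    rw [Nat.sub_zero, ψ] at h4
    rw [h4, zero_add]
  rw [h3]; exact ⟨h1, h2⟩

lemma OK.near {s : ℕ} {u u' : Z n} {K : ℕ} (hu : nb (p.ψ s u - p.ψ s u') (2 * 3 ^ K)) :
    nb (u - u') (rho n K) := (h.grid s).coarse u' u (by positivity) hu

omit h in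
lemma same_anc {K : ℕ} {c c' : Z n} (hc : anc K c = anc K c') : nb (c - c') (3 ^ K) := fun k => by
  have a1 := (anc_eq_iff K _ _).1 hc k
  have a2 := (anc_eq_iff K _ _).1 (rfl : anc K c' = anc K c') k
  rw [Pi.sub_apply, abs_le]; constructor <;> linarith [a1.1, a1.2, a2.1, a2.2]

lemma OK.hole_near {s t t1 j : ℕ} {w w1 C : Z n} (h1 : p.Hole s t w j C) (h2 : p.Hole s t1 w1 j C)
    (ht : t ≤ t1) : nb (w - w1) (rho n (p.K t1)) := by
  have key : ∀ {t w}, p.Hole s t w j C → nb (p.ψ s w - ((3:ℤ) ^ j) • C) (3 ^ p.K t) := by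
    intro t w h1
    refine same_anc ?_
    have := h1.2.2.1
    conv_rhs => rw [show p.K t = j + (p.K t - j) by omega, anc_add, anc_smul, h1.2.2.2]
    rfl
  have h3 : (3:ℤ) ^ p.K t ≤ 3 ^ p.K t1 := pow_le_pow_right₀ (by norm_num) (by
    rcases ht.lt_or_eq with h4 | h4
    · exact (h.pr.kk _ _ h4).le
    · rw [h4])
  refine h.near (s := s) ?_
  have := (key h1).sub (key h2)
  rw [sub_sub_sub_cancel_right] at this
  exact this.mono (by omega)

lemma OK.hole_nest {s t t1 j : ℕ} {w w1 C : Z n} (h1 : p.Hole s t w j C) (h2 : p.Hole s t1 w1 j C)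
    (ht : t < t1) : p.Hole t1 t (w - w1) j (p.tr s t1 w1 j C) ∧
      p.tr t1 t (w - w1) j (p.tr s t1 w1 j C) = p.tr s t w j C := by
  have h3 := h.hole_near h1 h2 ht.le
  have h4 := (h.copy h2.1 h2.2.1).2 _ h3
  rw [add_sub_cancel] at h4
  have h5 := h.pr.kk _ _ ht
  have h6 := h1.2.2.1
  have h7 : p.qq s t w = p.qq t1 t (w - w1) + ((3:ℤ) ^ (p.K t1 - p.K t)) • p.qq s t1 w1 := by
    rw [show p.qq t1 t (w - w1) = anc (p.K t) (p.ψ t1 (w - w1)) from rfl,
      ← anc_add_smul, smul_smul, ← pow_add, show p.K t + (p.K t1 - p.K t) = p.K t1 by omega,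
      ← h4, qq]
  have h8 : p.tr t1 t (w - w1) j (p.tr s t1 w1 j C) = p.tr s t w j C := by
    unfold tr
    rw [h7, smul_add, smul_smul, ← pow_add,
      show p.K t - j + (p.K t1 - p.K t) = p.K t1 - j by omega]
    abel
  refine ⟨hole_iff.2 ⟨ht, ?_, h8 ▸ (hole_iff.1 h1).2.2⟩, h8⟩
  exact (h.agree s t1 w1 h2.2.1 t ht _ (h3.mono (h.pr.rho_le t1))).1 (by simpa using h1.2.1)

lemma OK.lab_hole : ∀ (s : ℕ) {t j : ℕ} {w C : Z n}, p.Hole s t w j C →
    p.lab k0 s j C = ((p.lab k0 t j (p.tr s t w j C)).1, w + (p.lab k0 t j (p.tr s t w j C)).2) := by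
  intro s
  induction s using Nat.strong_induction_on with
  | _ s ih =>
    have key : ∀ {t t1 j : ℕ} {w w1 C : Z n}, p.Hole s t w j C → p.Hole s t1 w1 j C → t ≤ t1 →
        ((p.lab k0 t j (p.tr s t w j C)).1, w + (p.lab k0 t j (p.tr s t w j C)).2) =
        ((p.lab k0 t1 j (p.tr s t1 w1 j C)).1, w1 + (p.lab k0 t1 j (p.tr s t1 w1 j C)).2) := by
      intro t t1 j w w1 C h1 h2 ht
      rcases ht.lt_or_eq with ht | rfl
      · obtain ⟨h3, h4⟩ := h.hole_nest h1 h2 ht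
        rw [ih t1 h2.1 h3, h4]
        refine Prod.ext rfl ?_
        dsimp only
        abel
      · have h3 := h.hole_near h1 h2 le_rfl
        have := h.pr.rho_le t
        have := h.pr.Rpos t
        rw [h.sep s t w h1.2.1 w1 h2.2.1 (h3.mono (by omega))]
    intro t j w C h1
    have hex : ∃ r : ℕ × Z n, p.Hole s r.1 r.2 j C := ⟨(t, w), h1⟩
    rw [lab, dif_pos hex]
    rcases le_total t hex.choose.1 with h2 | h2
    · exact (key h1 hex.choose_spec h2).symm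
    · exact key hex.choose_spec h1 h2

lemma OK.lam_hole {s t j : ℕ} {w C : Z n} (h1 : p.Hole s t w j C) :
    p.lam k0 s j C = p.lam k0 t j (p.tr s t w j C) := by
  unfold lam; rw [h.lab_hole s h1]

lemma OK.xx_hole {s t : ℕ} {w C : Z n} (h1 : p.Hole s t w 0 C) :
    p.xx k0 s C = w + p.xx k0 t (p.tr s t w 0 C) := by
  unfold xx; rw [h.lab_hole s h1]

omit h in
lemma lam_free {s j : ℕ} {C : Z n} (h : ¬ ∃ t w, p.Hole s t w j C) :
    p.lam k0 s j C = (p.rg s).reg k0 j C := by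
  unfold lam; rw [lab_free h]

omit h in
lemma xx_free {s : ℕ} {C : Z n} (h : ¬ ∃ t w, p.Hole s t w 0 C) :
    p.xx k0 s C = (p.rg s).X 0 C := by
  unfold xx; rw [lab_free h]

lemma OK.face_free {s j : ℕ} {C : Z n} {k : Fin n} (hC : C k = 0 ∨ C k + 1 = 3 ^ (p.K s - j)) :
    ¬ ∃ t w, p.Hole s t w j C := by
  rintro ⟨t, w, h1⟩
  have h2 := (pos_eq_ctr_iff _).1 (h.copy h1.1 h1.2.1).1 k
  rw [← h1.2.2.2] at h2
  have h3 := h.pr.kk _ _ h1.1
  have h4 := h1.2.2.1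
  simp only [anc] at h2
  rcases hC with hC | hC
  · rw [hC] at h2; simp at h2
  · have hp : (0:ℤ) < 3 ^ (p.K t - j) := by positivity
    rw [show p.K s - j = p.K s - p.K t - 1 + 1 + (p.K t - j) by omega, pow_add, pow_succ] at hC
    rw [show C k = (3 ^ (p.K t - j) - 1) + (3 ^ (p.K s - p.K t - 1) * 3 - 1) * 3 ^ (p.K t - j) by
      linarith, Int.add_mul_ediv_right _ _ hp.ne', Int.ediv_eq_zero_of_lt (by omega) (by omega)]
      at h2
    omega

lemma OK.lam_root (t : ℕ) : p.lam k0 t (p.K t) 0 = (p.rg t).reg k0 (p.K t) 0 :=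
  lam_free (h.face_free (k := k0) (Or.inl rfl))

lemma OK.root_sp (t : ℕ) : (p.lam k0 t (p.K t) 0).sp := by
  rw [h.lam_root]; rfl

lemma OK.waive_p {s t j : ℕ} {w C : Z n} {k : Fin n} (h1 : p.Hole s t w j C)
    (h2 : ¬ p.Hole s t w j (C + e k)) : (p.lam k0 s j C).Fp k := by
  rw [h.lam_hole h1]
  rw [hole_iff] at h1 h2
  rw [tr_add] at h2
  have h3 : p.tr s t w j C k + 1 = 3 ^ (p.K t - j) := by
    by_contra h3
    refine h2 ⟨h1.1, h1.2.1, sub_iff.2 ⟨h1.2.2.1, fun l => ?_⟩⟩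
    have := (sub_iff.1 h1.2.2).2 l
    rw [Pi.add_apply, e_apply]
    split_ifs with hl
    · subst hl; omega
    · omega
  rw [lam_free (h.face_free (Or.inr h3))]
  exact h3

lemma OK.waive_m {s t j : ℕ} {w C : Z n} {k : Fin n} (h1 : p.Hole s t w j (C + e k))
    (h2 : ¬ p.Hole s t w j C) : (p.lam k0 s j (C + e k)).Fm k := by
  rw [h.lam_hole h1]
  rw [hole_iff] at h1 h2
  have h3 : p.tr s t w j (C + e k) k = 0 := by
    by_contra h3
    refine h2 ⟨h1.1, h1.2.1, sub_iff.2 ⟨h1.2.2.1, fun l => ?_⟩⟩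
    have := (sub_iff.1 h1.2.2).2 l
    rw [tr_add] at this h3
    rw [Pi.add_apply, e_apply] at this
    split_ifs at this with hl
    · subst hl; simp only [Pi.add_apply, e_same] at h3; omega
    · omega
  rw [lam_free (h.face_free (Or.inl h3))]
  exact h3

lemma OK.pair_cases {s j : ℕ} {C : Z n} {k : Fin n} (h1 : ¬ (p.lam k0 s j C).Fp k)
    (h2 : ¬ (p.lam k0 s j (C + e k)).Fm k) :
    (∃ t w, p.Hole s t w j C ∧ p.Hole s t w j (C + e k)) ∨
      ((¬ ∃ t w, p.Hole s t w j C) ∧ ¬ ∃ t w, p.Hole s t w j (C + e k)) := by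
  by_cases h3 : ∃ t w, p.Hole s t w j C ∧ p.Hole s t w j (C + e k)
  · exact Or.inl h3
  · right
    constructor
    · rintro ⟨t, w, h4⟩
      exact h1 (h.waive_p h4 fun h5 => h3 ⟨t, w, h4, h5⟩)
    · rintro ⟨t, w, h4⟩
      exact h2 (h.waive_m h4 fun h5 => h3 ⟨t, w, h5, h4⟩)

lemma OK.valid : ∀ s, (sys k0).Pyr (p.K s) (p.lam k0 s) ∧ Base (p.K s) (p.lam k0 s) (p.xx k0 s) ∧
    ∀ c, Sub (p.K s) 0 c → p.ψ s (p.xx k0 s c) = c := by
  intro s
  induction s using Nat.strong_induction_on with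
  | _ s ih =>
    have hr := h.rg_ok s
    have vert : ∀ j C, j < p.K s →
        ((p.lam k0 s j C).sp → pos C = ctr ∧ (sys k0).PS (p.lam k0 s (j + 1) (par C))) ∧
        (¬ (p.lam k0 s j C).sp →
          (sys k0).VR (pos C) (p.lam k0 s j C) (p.lam k0 s (j + 1) (par C))) := by
      intro j C hj
      by_cases c1 : ∃ t w, p.Hole s t w (j + 1) (par C)
      · obtain ⟨t, w, h1⟩ := c1
        have h2 := h1.of_par
        have h3 : j < p.K t := h1.2.2.1
        rw [h.lam_hole h1, h.lam_hole h2, (tr_par w C h3).1, ← (tr_par (s := s) w C h3).2]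
        exact ⟨(ih t h1.1).1.spc j _ h3 (hole_iff.1 h2).2.2,
          (ih t h1.1).1.vr j _ h3 (hole_iff.1 h2).2.2⟩
      · rw [lam_free c1]
        by_cases c2 : ∃ t w, p.Hole s t w j C
        · obtain ⟨t, w, h1⟩ := c2
          obtain rfl : j = p.K t := by
            by_contra h2
            exact c1 ⟨t, w, h1.par (lt_of_le_of_ne h1.2.2.1 h2)⟩
          have h2 : C = p.qq s t w := by simpa using h1.2.2.2
          have h3 : pos C = ctr := by rw [h2]; exact (h.copy h1.1 h1.2.1).1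
          rw [h.lam_hole h1, (hole_iff.1 h1).2.2.root]
          refine ⟨fun _ => ⟨h3, hr.ps (by have := h.aa t s h1.1; simp only [rg]; omega) h3
            fun i hi h4 => ?_⟩, fun h4 => absurd (h.root_sp t) h4⟩
          refine h.vfree s t i w h1.1 hi h1.2.1 (h.near (s := s) ((same_anc (K := p.K t) ?_).mono ?_))
          · rw [h2] at h4; exact h4
          · have : (0:ℤ) < 3 ^ p.K t := by positivity
            omega
        · rw [lam_free c2]
          exact ⟨fun h1 => absurd h1 hj.ne, fun _ => hr.vr C hj⟩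
    refine ⟨⟨fun j C hC => ?_, fun j C hj _ => (vert j C hj).1, fun j C hj _ => (vert j C hj).2,
      fun j C k _ _ _ hs h1 h2 => ?_⟩, ⟨fun c _ => ?_, fun c k _ _ h1 h2 => ?_⟩, fun c _ => ?_⟩
    · by_cases c2 : ∃ t w, p.Hole s t w j C
      · obtain ⟨t, w, h1⟩ := c2
        rw [h.lam_hole h1]
        exact (ih t h1.1).1.sr j _ (hole_iff.1 h1).2.2
      · rw [lam_free c2]; exact hr.sr hC
    · rcases h.pair_cases h1 h2 with ⟨t, w, h3, h4⟩ | ⟨h3, h4⟩
      · have s1 := (hole_iff.1 h3).2.2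
        have s2 := (hole_iff.1 h4).2.2
        rw [tr_add] at s2
        have hj := lt_of_pair s1 s2
        rw [h.lam_hole h3] at hs h1
        rw [h.lam_hole h4, tr_add] at h2
        rw [h.lam_hole h3, h.lam_hole h4, h.lam_hole (h3.par hj), (tr_par w C hj).1,
          ← (tr_par (s := s) w C hj).2, tr_add]
        exact (ih t h3.1).1.hr j _ k hj s1 s2 hs h1 h2
      · have h5 : ¬ ∃ t w, p.Hole s t w (j + 1) (par C) := by
          rintro ⟨t, w, h5⟩; exact h3 ⟨t, w, h5.of_par⟩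
        rw [lam_free h3] at h1
        rw [lam_free h4] at h2
        rw [lam_free h3, lam_free h4, lam_free h5]
        exact hr.hr j C k h1 h2
    · by_cases c2 : ∃ t w, p.Hole s t w 0 c
      · obtain ⟨t, w, h1⟩ := c2
        rw [h.lam_hole h1]
        exact (ih t h1.1).2.1.low _ (hole_iff.1 h1).2.2
      · rw [lam_free c2]; exact hr.low c
    · rcases h.pair_cases h1 h2 with ⟨t, w, h3, h4⟩ | ⟨h3, h4⟩
      · have s1 := (hole_iff.1 h3).2.2
        have s2 := (hole_iff.1 h4).2.2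
        rw [tr_add] at s2
        rw [h.lam_hole h3] at h1
        rw [h.lam_hole h4, tr_add] at h2
        rw [h.lam_hole h3, h.xx_hole h3, h.xx_hole h4, tr_add,
          (ih t h3.1).2.1.inc _ k s1 s2 h1 h2]
        abel
      · rw [lam_free h3, xx_free h3, xx_free h4]
        exact hr.inc0 c k
    · by_cases c2 : ∃ t w, p.Hole s t w 0 c
      · obtain ⟨t, w, h1⟩ := c2
        have s1 := (hole_iff.1 h1).2.2
        have h2 := (ih t h1.1).2.2 _ s1
        have h3 : nb (p.xx k0 t (p.tr s t w 0 c)) (rho n (p.K t)) := by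
          have := h.near (s := t) (u := p.xx k0 t (p.tr s t w 0 c)) (u' := 0) (K := p.K t)
            ((same_anc (K := p.K t) (by
              have a1 := s1.2
              have a2 := (h.inZ (s := t) (u := 0) (nb_zero (by positivity))).sub.2
              rw [Nat.sub_zero] at a1 a2
              rw [h2, a1, a2])).mono (by
              have : (0:ℤ) < 3 ^ p.K t := by positivity
              omega))
          simpa using this
        rw [h.xx_hole h1, (h.copy h1.1 h1.2.1).2 _ h3, h2]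
        simp [tr]
      · rw [xx_free c2]
        have := hr.X_spec 0 c
        rwa [anc_zero] at this

omit h in
variable (k0 p) in
noncomputable def zz (s : ℕ) (u : Z n) : Lab n :=
  ⟨fun k => (p.ψ s u k : ZMod (N0 n)), clamp (p.xx k0 s (p.ψ s u) - u),
    (sys k0).enc (p.lam k0 s) 0 (p.ψ s u)⟩

variable [Nontrivial (Fin n)]

lemma OK.zz_copy {s t : ℕ} {w y : Z n} (hts : t < s) (hw : w ∈ p.O s t)
    (hy : nb y (3 ^ (p.K t - 2))) : p.zz k0 s (w + y) = p.zz k0 t y := by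
  have h1 := (h.copy hts hw).2 y (hy.mono (by
    have := rho_pos n (p.K t)
    have h2 : (3:ℤ) ^ (p.K t - 2) ≤ 3 ^ p.K t := pow_le_pow_right₀ (by norm_num) (by omega)
    have : (0:ℤ) < 3 ^ p.K t := by positivity
    omega))
  have hole : ∀ j C, Sub (p.K t) j C →
      p.Hole s t w j (C + ((3:ℤ) ^ (p.K t - j)) • p.qq s t w) ∧
      p.tr s t w j (C + ((3:ℤ) ^ (p.K t - j)) • p.qq s t w) = C := by
    intro j C hC
    have : p.tr s t w j (C + ((3:ℤ) ^ (p.K t - j)) • p.qq s t w) = C := by simp [tr]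
    exact ⟨hole_iff.2 ⟨hts, hw, by rw [this]; exact hC⟩, this⟩
  unfold zz
  rw [h1]
  congr 1
  · funext k
    obtain ⟨d, hd⟩ := Nat.exists_eq_add_of_le (h.kk t)
    have : ((3 : ZMod (N0 n))) ^ kst n = 0 := by
      have := ZMod.natCast_self (N0 n)
      rw [← this]; unfold N0; push_cast; rfl
    simp only [Pi.add_apply, Pi.smul_apply, smul_eq_mul]
    push_cast
    rw [hd, pow_add, this]; simp
  · have := hole 0 _ (h.inZ hy).sub
    rw [Nat.sub_zero] at this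
    rw [h.xx_hole this.1, this.2]
    congr 1; abel
  · exact (sys k0).enc_translate (fun j C hC => by
      rw [h.lam_hole (hole j C hC).1, (hole j C hC).2]) (h.root_sp t) (h.inZ hy)

omit h in
lemma zz_cong (s : ℕ) (u u' : Z n) : cong (p.zz k0 s u) (p.zz k0 s u') (p.ψ s u' - p.ψ s u) :=
  fun k => by simp [zz]

lemma OK.off_val {s : ℕ} {u : Z n} (hu : nb u (3 ^ (p.K s - 2))) :
    (p.zz k0 s u).off.1 = p.xx k0 s (p.ψ s u) - u :=
  clamp_val (((h.grid s).fibre ((h.valid s).2.2 _ (h.inZ hu).sub)).mono (Bd_ge n))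

lemma OK.zz_rule {s : ℕ} {u : Z n} (hu : nb u (3 ^ (p.K s - 2) - Bd n)) :
    Rule k0 (fun v => p.zz k0 s (u + v)) := by
  have hg := h.grid s
  obtain ⟨hP, hB, hx⟩ := h.valid s
  have hn : (0:ℤ) ≤ n * Rw n := mul_nonneg (by positivity) (by have := Rw_pos n; omega)
  have hin : ∀ y, nb y (Bd n) → nb (u + y) (3 ^ (p.K s - 2)) := fun y hy => by
    simpa using hu.add hy
  have hu0 : nb u (3 ^ (p.K s - 2)) := by simpa using hin 0 (nb_zero (Bd_pos n))
  have z0 := h.inZ hu0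
  have hK : 0 < p.K s := z0.1
  have tru : ∀ y c, nb y (Rw n) → nb c 1 → cong (p.zz k0 s u) (p.zz k0 s (u + y)) c →
      p.ψ s (u + y) = p.ψ s u + c := by
    intro y c hy hc h1
    rw [← cong_unique (zz_cong s u (u + y)) h1 (((hg.lip_nb u y hy).sub hc).mono (by omega))]
    abel
  constructor <;> simp only [add_zero]
  · intro i
    exact ⟨_, fun k => hg.lip u i k, zz_cong s _ _⟩
  · intro i
    refine ⟨p.ψ s (u + Mc n • e i) - p.ψ s u - ((n : ℤ) + 1) • e i, fun k => hg.exp u i k, ?_⟩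
    rw [add_sub_cancel]; exact zz_cong s _ _
  · intro k
    obtain ⟨y, h1, h2⟩ := hg.surp u k
    refine ⟨y, h1, ?_⟩
    have := zz_cong (k0 := k0) (p := p) s u (u + y)
    rwa [h2, add_sub_cancel_left] at this
  · intro k
    obtain ⟨y, h1, h2⟩ := hg.surm u k
    refine ⟨y, h1, ?_⟩
    have := zz_cong (k0 := k0) (p := p) s u (u + y)
    rwa [← h2, sub_add_cancel_left] at this
  · intro y hy h1
    have h2 := tru y 0 hy (nb_zero zero_le_one) h1
    rw [add_zero] at h2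
    rw [h.off_val hu0, h.off_val (hin y (hy.mono (Bd_ge n))), h2]
    exact ⟨by simp only [zz]; rw [h2], by abel⟩
  · intro y k hy h1
    have h2 := tru y _ hy (nb_e k) h1
    rw [h.off_val hu0, h.off_val (hin y (hy.mono (Bd_ge n)))]
    simp only [zz, h2, Sys.enc]
    refine ⟨hP.rel hK z0.sub (z0.sub_add k), by rw [add_sub_cancel_right], fun h3 h4 => ?_⟩
    rw [show (((sys k0).mk' (p.lam k0 s) 0 (p.ψ s u)).lam.inc k).1 = _ from
      hB.inc _ k z0.sub (z0.sub_add k) h3 h4]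
    abel
  · exact ⟨hP.k0 (p.K s) 0 _ (by omega) z0, fun k => hP.chk k hK z0.sub, hB.low _ z0.sub⟩
  · intro h1
    have h2 := hin _ (p.zz k0 s u).off.2
    have h3 : p.ψ s (u + (p.zz k0 s u).off.1) = p.ψ s u := by
      rw [h.off_val hu0, add_sub_cancel, hx _ z0.sub]
    refine ⟨?_, ?_⟩
    · have : (p.zz k0 s (u + (p.zz k0 s u).off.1)).mp = (p.zz k0 s u).mp := by
        rw [zz, h3]; rfl
      rw [this]; exact h1
    · rw [h.off_val h2, h3, h.off_val hu0]; abel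

end Plan

end Pool.Agent.MP_c4ca5b_lc

end

section

set_option linter.unusedSectionVars false
set_option linter.style.haveILetI false

namespace Pool.Agent.MP_c4ca5b_lc

open Finset Filter Topology

variable {n : ℕ}

@[reducible] noncomputable def actY (n p : ℕ) [Fact p.Prime] : AddAction (Fin n → ℤ) (Fin n → ℤ_[p]) where
  vadd v y := fun k => (v k : ℤ_[p]) + y k
  zero_vadd y := by funext k; show ((0 : ℤ) : ℤ_[p]) + y k = y k; simp
  add_vadd v w y := by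
    funext k
    show ((v k + w k : ℤ) : ℤ_[p]) + y k = (v k : ℤ_[p]) + ((w k : ℤ_[p]) + y k)
    push_cast; ring

theorem toeplitz {P : LCL n} (h : InBaire P) (p : ℕ) [hp : Fact p.Prime] :
    ∃ z : Z n → P.Label,
      (∀ u, (fun v : {v : Fin n → ℤ // ∀ i, |v i| ≤ (P.radius : ℤ)} => z (u + v.1)) ∈ P.allowed) ∧
      ∀ w, ∃ b : ℕ, ∀ v : Z n, z (w + ((p : ℤ) ^ b) • v) = z w := by
  letI := actY n p
  have hv : ∀ (v : Z n) (y : Fin n → ℤ_[p]), v +ᵥ y = (fun k => (v k : ℤ_[p])) + y :=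
    fun _ _ => rfl
  have hcont : ∀ v : Z n, Continuous fun y : Fin n → ℤ_[p] => v +ᵥ y := fun v => by
    simp only [hv]; fun_prop
  have hopen : ∀ v : Z n, IsOpenMap fun y : Fin n → ℤ_[p] => v +ᵥ y := fun v => by
    simp only [hv]; exact isOpenMap_add_left _
  obtain ⟨f, hf, Y0, hY0, -, hval⟩ := @h (Fin n → ℤ_[p]) _ _ (borel _) (@BorelSpace.mk _ _ (borel _) rfl) _
    (fun v => by
      letI := borel (Fin n → ℤ_[p])
      haveI : BorelSpace (Fin n → ℤ_[p]) := ⟨rfl⟩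
      exact (hcont v).measurable)
    (fun v y hv0 h => hv0 (by
      funext k
      have := congrFun h k
      rw [hv] at this
      simpa using this))
  have := P.finite_label
  choose O hO1 hO2 using fun l => (hf l).residualEq_isOpen
  have hG : ∀ᶠ y in residual (Fin n → ℤ_[p]), y ∈ Y0 ∧ ∀ l, (f y = l ↔ y ∈ O l) := by
    refine Filter.Eventually.and hY0 ?_
    rw [eventually_countable_forall]
    intro l
    filter_upwards [hO2 l] with y hy
    exact iff_of_eq hy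
  have hG' : ∀ᶠ y in residual (Fin n → ℤ_[p]), ∀ v : Z n,
      v +ᵥ y ∈ Y0 ∧ ∀ l, (f (v +ᵥ y) = l ↔ v +ᵥ y ∈ O l) := by
    rw [eventually_countable_forall]
    intro v
    exact (tendsto_residual_of_isOpenMap (hcont v) (hopen v)).eventually hG
  obtain ⟨y, hy⟩ := (dense_of_mem_residual hG').nonempty
  refine ⟨fun v => f (v +ᵥ y), fun u => ?_, fun w => ?_⟩
  · have := hval _ (hy u).1
    simp only [← add_vadd] at this
    simpa only [add_comm] using this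
  · have h1 : w +ᵥ y ∈ O (f (w +ᵥ y)) := ((hy w).2 _).1 rfl
    obtain ⟨ε, hε, h2⟩ := Metric.isOpen_iff.1 (hO1 _) _ h1
    have hp1 : (1 : ℝ) < p := by exact_mod_cast hp.out.one_lt
    obtain ⟨b, hb⟩ : ∃ b : ℕ, ((p : ℝ)⁻¹) ^ b < ε :=
      exists_pow_lt_of_lt_one hε (inv_lt_one_of_one_lt₀ hp1)
    refine ⟨b, fun v => ((hy _).2 _).2 (h2 ?_)⟩
    rw [Metric.mem_ball, dist_pi_lt_iff hε]
    intro k
    rw [hv, hv, dist_eq_norm]
    simp only [Pi.add_apply, Pi.smul_apply, smul_eq_mul]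
    push_cast
    rw [show (w k : ℤ_[p]) + (p : ℤ_[p]) ^ b * (v k : ℤ_[p]) + y k - ((w k : ℤ_[p]) + y k) =
      (p : ℤ_[p]) ^ b * (v k : ℤ_[p]) by ring, norm_mul, norm_pow, PadicInt.norm_p]
    have h3 := PadicInt.norm_le_one (v k : ℤ_[p])
    have h4 : (0:ℝ) ≤ ((p : ℝ)⁻¹) ^ b := by positivity
    nlinarith

theorem main_not_inBaire [Nontrivial (Fin n)] (k0 : Fin n) : ¬ InBaire (mainLCL k0) := by
  intro h
  obtain ⟨z, h1, h2⟩ := toeplitz h 2
  exact no_toeplitz (k0 := k0) (z := z) (fun u => (mainLCL_iff k0 (fun v => z (u + v))).1 (h1 u))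
    (fun w => h2 w)

/-! ### Actions that are not totally transitive -/

def castv (m : ℕ) (v : Z n) : Fin n → ZMod m := fun k => (v k : ZMod m)

lemma castv_add (m : ℕ) (v w : Z n) : castv m (v + w) = castv m v + castv m w := by
  funext k; simp [castv]

def perRule (m : ℕ) (z : Z n → Set (Fin n → ZMod m)) : Prop :=
  (z 0).Nonempty ∧ z 0 ≠ Set.univ ∧ ∀ i r, r ∈ z (e i) ↔ r + castv m (e i) ∈ z 0

def perLCL (n a : ℕ) : LCL n where
  Label := Set (Fin n → ZMod (6 ^ a))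
  finite_label := inferInstance
  radius := 1
  allowed := {p | ∃ z, perRule (6 ^ a) z ∧ ∀ v, p v = z v.1}

lemma perLCL_iff (a : ℕ) (z : Z n → Set (Fin n → ZMod (6 ^ a))) :
    (fun v : {v : Fin n → ℤ // ∀ i, |v i| ≤ ((perLCL n a).radius : ℤ)} => z v.1) ∈
      (perLCL n a).allowed ↔ perRule (6 ^ a) z := by
  refine ⟨fun ⟨z', h1, h2⟩ => ?_, fun h => ⟨z, h, fun _ => rfl⟩⟩
  have h0 : z 0 = z' 0 := h2 ⟨0, fun i => by simp⟩
  have h3 : ∀ i, z (e i) = z' (e i) := fun i => h2 ⟨e i, nb_e i⟩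
  unfold perRule at *
  simp only [h0, h3]; exact h1

theorem per_not_inBaire (a : ℕ) : ¬ InBaire (perLCL n a) := by
  intro h
  have : Fact (Nat.Prime 5) := ⟨by norm_num⟩
  obtain ⟨z, h1, h2⟩ := toeplitz h 5
  have h3 : ∀ u, perRule (6 ^ a) (fun v => z (u + v)) := fun u =>
    (perLCL_iff a (fun v => z (u + v))).1 (h1 u)
  let z' : Z n → Set (Fin n → ZMod (6 ^ a)) := z
  have h4 : ∀ u r, r ∈ z' u ↔ r + castv _ u ∈ z' 0 := by
    refine unit_induction 0 (fun r => by rw [show castv (6 ^ a) (0 : Z n) = 0 by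
      funext k; simp [castv], add_zero]) fun u i => ?_
    have h5 : ∀ r, r ∈ z' (u + e i) ↔ r + castv _ (e i) ∈ z' u := fun r => by
      have := (h3 u).2.2 i r
      simpa using this
    constructor
    · intro h6 r
      rw [h5, h6, castv_add]; rw [add_assoc, add_comm (castv _ (e i))]
    · intro h6 r
      have := h6 (r - castv _ (e i))
      rw [h5, sub_add_cancel, castv_add] at this
      rw [this]; rw [show r - castv (6 ^ a) (e i) + (castv (6 ^ a) u + castv (6 ^ a) (e i)) =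
        r + castv (6 ^ a) u by abel]
  obtain ⟨b, hb⟩ := h2 0
  obtain ⟨⟨r0, hr0⟩, h5, -⟩ := h3 0
  simp only [add_zero] at hr0 h5
  apply h5
  rw [Set.eq_univ_iff_forall]
  intro r
  have hu : IsUnit ((5 : ZMod (6 ^ a)) ^ b) := by
    refine IsUnit.pow _ ?_
    have := (ZMod.isUnit_iff_coprime 5 (6 ^ a)).2 (Nat.Coprime.pow_right _ (by norm_num))
    simpa using this
  obtain ⟨s, hs⟩ := hu.exists_right_inv
  let v : Z n := fun k => ((s * (r k - r0 k)).val : ℤ)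
  have h6 := (h4 (((5 : ℕ) : ℤ) ^ b • v) r0).1 (by
    have := hb v
    rw [zero_add] at this
    show r0 ∈ z' _
    simp only [z']
    rw [this]; exact hr0)
  have h7 : r0 + castv (6 ^ a) (((5 : ℕ) : ℤ) ^ b • v) = r := by
    funext k
    simp only [castv, v, Pi.add_apply, Pi.smul_apply, smul_eq_mul]
    push_cast
    rw [ZMod.natCast_zmod_val, ← mul_assoc, hs]; ring
  rwa [h7] at h6

section Dyn

variable {X : Type} [TopologicalSpace X] [AddAction (Fin n → ℤ) X]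
  [ContinuousConstVAdd (Fin n → ℤ) X]

/-- total topological transitivity along the subgroups `6^a ℤ^n` -/
def TT (n : ℕ) (X : Type) [TopologicalSpace X] [AddAction (Fin n → ℤ) X] : Prop :=
  ∀ (a : ℕ) (r : Z n) (U V : Set X), IsOpen U → IsOpen V → U.Nonempty → V.Nonempty →
    ∃ v : Z n, (∀ k, (6:ℤ) ^ a ∣ v k - r k) ∧ ∃ x ∈ U, v +ᵥ x ∈ V

lemma sat_residual (hd : ∃ x : X, Dense (AddAction.orbit (Fin n → ℤ) x)) {U : Set X}
    (hU : IsOpen U) (hne : U.Nonempty) : {x : X | ∃ v : Z n, v +ᵥ x ∈ U} ∈ residual X := by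
  obtain ⟨x0, hx0⟩ := hd
  refine residual_of_dense_open ?_ (hx0.mono ?_)
  · rw [Set.ofPred_exists]
    exact isOpen_iUnion fun v => hU.preimage (continuous_const_vadd v)
  · obtain ⟨y, hy, w, rfl⟩ := hx0.inter_open_nonempty U hU hne
    rintro _ ⟨v, rfl⟩
    exact ⟨w - v, by simpa [← add_vadd] using hy⟩

theorem per_solved [PolishSpace X] (hd : ∃ x : X, Dense (AddAction.orbit (Fin n → ℤ) x))
    (h : ¬ TT n X) : ∃ a, HasBaireLabelling (perLCL n a) X := by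
  unfold TT at h
  push Not at h
  obtain ⟨a, r, U, V, hU, hV, hUn, hVn, h⟩ := h
  let f : X → Set (Fin n → ZMod (6 ^ a)) := fun x => {ρ | ∃ v : Z n, castv _ v = ρ ∧ v +ᵥ x ∈ U}
  refine ⟨a, f, fun l => ?_, {x : X | ∃ v : Z n, v +ᵥ x ∈ U} ∩ {x : X | ∃ v : Z n, v +ᵥ x ∈ V},
    inter_mem (sat_residual hd hU hUn) (sat_residual hd hV hVn), ?_, ?_⟩
  · borelize X
    refine MeasurableSet.baireMeasurableSet ?_
    have h1 : ∀ ρ, MeasurableSet {x : X | ρ ∈ f x} := fun ρ => by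
      refine IsOpen.measurableSet ?_
      simp only [f, Set.mem_ofPred_eq]
      rw [Set.ofPred_exists]
      refine isOpen_iUnion fun v => ?_
      by_cases hv : castv (6 ^ a) v = ρ
      · simp only [hv, true_and]; exact hU.preimage (continuous_const_vadd v)
      · simp [hv]
    let l' : Set (Fin n → ZMod (6 ^ a)) := l
    have : f ⁻¹' {l} = ⋂ ρ, {x : X | ρ ∈ f x ↔ ρ ∈ l'} := by
      ext x
      simp only [Set.mem_preimage, Set.mem_iInter, Set.mem_ofPred_eq]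
      exact Set.ext_iff
    erw [this]
    refine MeasurableSet.iInter fun ρ => ?_
    by_cases hρ : ρ ∈ l'
    · simpa [hρ] using h1 ρ
    · simp only [hρ, iff_false]; exact (h1 ρ).compl
  · rintro w y ⟨⟨v, hv⟩, ⟨v', hv'⟩⟩
    exact ⟨⟨v - w, by simpa [← add_vadd] using hv⟩, ⟨v' - w, by simpa [← add_vadd] using hv'⟩⟩
  · rintro y ⟨⟨v, hv⟩, ⟨g, hg⟩⟩
    refine (perLCL_iff a (fun v => f (v +ᵥ y))).2 ⟨⟨castv _ v, v, rfl, by simpa using hv⟩, ?_, ?_⟩
    · intro h1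
      have : castv (6 ^ a) (g - r) ∈ f ((0 : Z n) +ᵥ y) := Set.eq_univ_iff_forall.1 h1 _
      obtain ⟨w, h2, h3⟩ := this
      rw [zero_vadd] at h3
      refine h (g - w) (fun k => ?_) _ h3 (by simpa [← add_vadd] using hg)
      have h4 := congrFun h2 k
      simp only [castv] at h4
      have := (ZMod.intCast_eq_intCast_iff_dvd_sub _ _ _).1 h4
      push_cast at this
      convert this using 1
      simp only [Pi.sub_apply]; ring
    · intro i ρ
      simp only [f, Set.mem_ofPred_eq, zero_vadd, ← add_vadd]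
      constructor
      · rintro ⟨w, rfl, hw⟩
        exact ⟨w + e i, castv_add _ _ _, hw⟩
      · rintro ⟨w, h1, hw⟩
        refine ⟨w - e i, ?_, by simpa using hw⟩
        have := castv_add (6 ^ a) (w - e i) (e i)
        rw [sub_add_cancel, h1] at this
        exact (add_right_cancel this).symm

end Dyn

end Pool.Agent.MP_c4ca5b_lc

end

section

set_option linter.unusedSectionVars false

namespace Pool.Agent.MP_c4ca5b_lc

open Finset Filter Topology

variable {n : ℕ}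

noncomputable def seqRec {α : Type} [Inhabited α] (st : ℕ → (ℕ → α) → α) (s : ℕ) : α :=
  st s (fun t => if _h : t < s then seqRec st t else default)
termination_by s

lemma exists_seq {α : Type} [Inhabited α] (Self : ℕ → α → Prop) (Pair : ℕ → ℕ → α → α → Prop)
    (H : ∀ s (f : ℕ → α), (∀ t, t < s → Self t (f t)) →
      (∀ t t', t < t' → t' < s → Pair t t' (f t) (f t')) →
      ∃ d, Self s d ∧ ∀ t, t < s → Pair t s (f t) d) :
    ∃ f : ℕ → α, (∀ s, Self s (f s)) ∧ ∀ t s, t < s → Pair t s (f t) (f s) := by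
  choose! st hst using H
  have key : ∀ s, Self s (seqRec st s) ∧ ∀ t, t < s → Pair t s (seqRec st t) (seqRec st s) := by
    intro s
    induction s using Nat.strong_induction_on with
    | _ s ih =>
      have := hst s (fun t => if _h : t < s then seqRec st t else default)
        (fun t ht => by simp only [ht, dif_pos]; exact (ih t ht).1)
        (fun t t' h1 h2 => by
          simp only [h2, h1.trans h2, dif_pos]; exact (ih t' h2).2 t h1)
      have e1 : seqRec st s = st s (fun t => if _h : t < s then seqRec st t else default) := by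
        rw [seqRec]
      rw [← e1] at this
      exact ⟨this.1, fun t ht => by simpa only [ht, dif_pos] using this.2 t ht⟩
  exact ⟨seqRec st, fun s => (key s).1, fun t s h => (key s).2 t h⟩

lemma exists_bound (g : ℕ → ℤ) (s : ℕ) (b : ℤ) : ∃ S, b ≤ S ∧ ∀ t, t < s → g t ≤ S := by
  induction s with
  | zero => exact ⟨b, le_rfl, by simp⟩
  | succ s ih =>
    obtain ⟨S, h1, h2⟩ := ih
    refine ⟨max S (g s), h1.trans (le_max_left _ _), fun t ht => ?_⟩
    rcases Nat.lt_succ_iff_lt_or_eq.1 ht with ht | rfl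
    · exact (h2 t ht).trans (le_max_left _ _)
    · exact le_max_right _ _

lemma six_digits : ∀ (a : ℕ) (x : ℤ) (d : ℕ → ℤ), (∀ j, 0 ≤ d j ∧ d j < 6) →
    (6:ℤ) ^ a ∣ x - ∑ j ∈ range a, 6 ^ j * d j → ∀ j, j < a → x / 6 ^ j % 6 = d j := by
  intro a
  induction a with
  | zero => intro _ _ _ _ j hj; omega
  | succ a ih =>
    rintro x d hd ⟨m, hm⟩ j hj
    rw [sum_range_succ'] at hm
    have h1 : ∑ k ∈ range a, 6 ^ (k + 1) * d (k + 1) = 6 * ∑ k ∈ range a, 6 ^ k * d (k + 1) := by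
      rw [Finset.mul_sum]; exact Finset.sum_congr rfl fun k _ => by ring
    rw [h1, pow_zero, one_mul, pow_succ', mul_assoc] at hm
    have h0 := hd 0
    rcases j with _ | j
    · simp only [pow_zero, Int.ediv_one]; omega
    · rw [pow_succ', ← Int.ediv_ediv_of_nonneg (by norm_num)]
      exact ih (x / 6) (fun j => d (j + 1)) (fun j => hd _) ⟨m, by omega⟩ j (by omega)

section Dyn

variable {X : Type} [TopologicalSpace X] [AddAction (Fin n → ℤ) X]
  [ContinuousConstVAdd (Fin n → ℤ) X]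

lemma open_pre {U : Set X} (hU : IsOpen U) (v : Z n) : IsOpen {x : X | v +ᵥ x ∈ U} :=
  hU.preimage (continuous_const_vadd v)

lemma far_return (hT : TT n X) (k0 : Fin n) (a : ℕ) (r : Z n) {U V : Set X} (hU : IsOpen U)
    (hV : IsOpen V) (hUn : U.Nonempty) (hVn : V.Nonempty) (B : ℤ) :
    ∃ v : Z n, (∀ k, (6:ℤ) ^ a ∣ v k - r k) ∧ B ≤ v k0 ∧ ∃ x ∈ U, v +ᵥ x ∈ V := by
  obtain ⟨v0, h1, x0, h2, h3⟩ := hT a r U V hU hV hUn hVn
  have hU' : IsOpen (U ∩ {x : X | v0 +ᵥ x ∈ V}) := hU.inter (open_pre hV v0)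
  set b : ℕ := (B - v0 k0).toNat with hb
  obtain ⟨l, h4, x, h5, h6⟩ := hT (a + b + 1) (((6:ℤ) ^ (a + b)) • e k0) _ _ hU' hU'
    ⟨x0, h2, h3⟩ ⟨x0, h2, h3⟩
  have h7 : ∀ k, (6:ℤ) ^ a ∣ l k := fun k => by
    have := ((pow_dvd_pow (6:ℤ) (by omega : a ≤ a + b + 1)).trans (h4 k)).add
      (((pow_dvd_pow (6:ℤ) (by omega : a ≤ a + b))).mul_right (e k0 k))
    simpa using this
  have h8 : B - v0 k0 ≤ 6 ^ (a + b) := by
    have h9 : a + b < 6 ^ (a + b) := Nat.lt_pow_self (by norm_num)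
    have h10 : ((a + b : ℕ) : ℤ) < 6 ^ (a + b) := by exact_mod_cast h9
    omega
  obtain ⟨m, hm⟩ := h4 k0
  simp only [Pi.smul_apply, e_same, smul_eq_mul, mul_one] at hm
  have hp : (0:ℤ) < 6 ^ (a + b) := by positivity
  rw [pow_succ] at hm
  rcases le_or_gt 0 m with h9 | h9
  · refine ⟨v0 + l, fun k => ?_, ?_, x, h5.1, by rw [add_vadd]; exact h6.2⟩
    · obtain ⟨t, ht⟩ := (h1 k).add (h7 k)
      exact ⟨t, by simp only [Pi.add_apply]; linarith⟩
    · simp only [Pi.add_apply]; nlinarith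
  · refine ⟨v0 - l, fun k => ?_, ?_, l +ᵥ x, h6.1, by
      rw [← add_vadd, sub_add_cancel]; exact h5.2⟩
    · obtain ⟨t, ht⟩ := (h1 k).sub (h7 k)
      exact ⟨t, by simp only [Pi.sub_apply]; linarith⟩
    · simp only [Pi.sub_apply]; nlinarith

lemma stations (hT : TT n X) (k0 : Fin n) (a : ℕ) (r : ℕ → Z n) (Γ : ℤ) {W V : Set X}
    (hW : IsOpen W) (hV : IsOpen V) (hWn : W.Nonempty) (hVn : V.Nonempty) (N : ℕ) :
    ∃ (W' : Set X) (v : ℕ → Z n), IsOpen W' ∧ W'.Nonempty ∧ W' ⊆ W ∧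
      (∀ i, i < N → (∀ k, (6:ℤ) ^ a ∣ v i k - r i k) ∧ ∀ x ∈ W', v i +ᵥ x ∈ V) ∧
      ∀ i i', i < i' → i' < N → v i k0 + Γ ≤ v i' k0 := by
  induction N with
  | zero => exact ⟨W, fun _ => 0, hW, hWn, le_rfl, by simp, by simp⟩
  | succ N ih =>
    obtain ⟨W', v, h1, h2, h3, h4, h5⟩ := ih
    obtain ⟨B, -, hB⟩ := exists_bound (fun i => v i k0 + Γ) N 0
    obtain ⟨w, h6, h7, x, h8, h9⟩ := far_return hT k0 a (r N) h1 hV h2 hVn B
    refine ⟨W' ∩ {x : X | w +ᵥ x ∈ V}, Function.update v N w, h1.inter (open_pre hV w),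
      ⟨x, h8, h9⟩, Set.inter_subset_left.trans h3, fun i hi => ?_, fun i i' hi hi' => ?_⟩
    · rcases Nat.lt_succ_iff_lt_or_eq.1 hi with hi | rfl
      · rw [Function.update_of_ne hi.ne]
        exact ⟨(h4 i hi).1, fun x hx => (h4 i hi).2 x hx.1⟩
      · rw [Function.update_self]
        exact ⟨h6, fun x hx => hx.2⟩
    · rw [Function.update_of_ne (by omega : i ≠ N)]
      rcases Nat.lt_succ_iff_lt_or_eq.1 hi' with hi' | rfl
      · rw [Function.update_of_ne hi'.ne]; exact h5 i i' hi hi'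
      · rw [Function.update_self]; exact (hB i hi).trans h7

lemma decide_all {ι : Type} (T : Finset ι) (O : ι → Set X) (hO : ∀ i ∈ T, IsOpen (O i))
    {W : Set X} (hW : IsOpen W) (hWn : W.Nonempty) :
    ∃ W' : Set X, IsOpen W' ∧ W'.Nonempty ∧ W' ⊆ W ∧
      ∀ i ∈ T, ∀ x ∈ W', ∀ y ∈ W', (x ∈ O i ↔ y ∈ O i) := by
  classical
  induction T using Finset.induction_on with
  | empty => exact ⟨W, hW, hWn, le_rfl, by simp⟩
  | insert i T _ ih =>
    obtain ⟨W', h1, h2, h3, h4⟩ := ih fun j hj => hO j (mem_insert_of_mem hj)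
    by_cases h5 : (W' ∩ O i).Nonempty
    · refine ⟨W' ∩ O i, h1.inter (hO i (mem_insert_self _ _)), h5,
        Set.inter_subset_left.trans h3, fun j hj x hx y hy => ?_⟩
      rcases mem_insert.1 hj with rfl | hj
      · exact iff_of_true hx.2 hy.2
      · exact h4 j hj x hx.1 y hy.1
    · refine ⟨W', h1, h2, h3, fun j hj x hx y hy => ?_⟩
      rcases mem_insert.1 hj with rfl | hj
      · exact iff_of_false (fun h => h5 ⟨x, hx, h⟩) (fun h => h5 ⟨y, hy, h⟩)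
      · exact h4 j hj x hx y hy

lemma sep_nhds [T2Space X] (T : Finset (Z n)) (x y : X) (h : ∀ w ∈ T, w +ᵥ y ≠ x) :
    ∃ U V : Set X, IsOpen U ∧ IsOpen V ∧ x ∈ U ∧ y ∈ V ∧ ∀ w ∈ T, ∀ y' ∈ V, w +ᵥ y' ∉ U := by
  classical
  induction T using Finset.induction_on with
  | empty => exact ⟨Set.univ, Set.univ, isOpen_univ, isOpen_univ, trivial, trivial, by simp⟩
  | insert w T _ ih =>
    obtain ⟨U, V, h1, h2, h3, h4, h5⟩ := ih fun j hj => h j (mem_insert_of_mem hj)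
    obtain ⟨A, B, h6, h7, h8, h9, h10⟩ := t2_separation (h w (mem_insert_self _ _))
    refine ⟨U ∩ B, V ∩ {y : X | w +ᵥ y ∈ A}, h1.inter h7, h2.inter (open_pre h6 w), ⟨h3, h9⟩,
      ⟨h4, h8⟩, fun j hj y' hy' hU => ?_⟩
    rcases mem_insert.1 hj with rfl | hj
    · exact Set.disjoint_left.1 h10 hy'.2 hU.2
    · exact h5 j hj y' hy'.1 hU.1

structure Stage (n : ℕ) (X : Type) : Type where
  U : Set X
  V : Set X
  x : X
  K : ℕ
  a : ℕ
  S : ℤ
  v : ℕ → Z n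

structure Stage.Self (k0 : Fin n) (W : ℕ → Set X) (s : ℕ) (d : Stage n X) : Prop where
  oU : IsOpen d.U
  oV : IsOpen d.V
  xU : d.x ∈ d.U
  nV : d.V.Nonempty
  UW : d.U ⊆ W s
  s0 : Rw n ≤ d.S
  a1 : 1 ≤ d.a
  aK : d.a + 3 ≤ d.K
  kk : kst n ≤ d.K
  bd : Bd n ≤ 3 ^ (d.K - 2)
  sep : ∀ y ∈ d.U, ∀ w : Z n, w ≠ 0 → nb w (2 * Rp n s d.K d.S) → w +ᵥ y ∉ d.U
  avoid : ∀ y ∈ d.V, ∀ w : Z n, nb w (rho n d.K) → w +ᵥ y ∉ d.U
  vin : ∀ i, i < (6 ^ n) ^ d.a → nb (d.v i) (3 ^ (d.K - 2))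
  vgap : ∀ i i', i < i' → i' < (6 ^ n) ^ d.a → d.v i k0 + 8 * 3 ^ d.a ≤ d.v i' k0
  vdig : ∀ i, i < (6 ^ n) ^ d.a → ∀ j, j < d.a → ∀ k, d.v i k / 6 ^ j % 6 = emb (dg n i j) k

structure Stage.Pair (t s : ℕ) (c d : Stage n X) : Prop where
  ss : c.S + 2 * Rp n t c.K c.S ≤ d.S
  aa : c.K + 2 ≤ d.a
  VV : d.V ⊆ c.V
  dec : ∀ y ∈ d.U, ∀ w : Z n, nb w (Rp n s d.K d.S) → (w +ᵥ y ∈ c.U ↔ w +ᵥ d.x ∈ c.U)
  st : ∀ i, i < (6 ^ n) ^ d.a → d.v i +ᵥ d.x ∈ c.V

lemma exists_stage [T2Space X] (hT : TT n X) (hf : IsFree n X) (k0 : Fin n) {W : ℕ → Set X}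
    (hW : ∀ s, IsOpen (W s) ∧ (W s).Nonempty) (s : ℕ) (f : ℕ → Stage n X)
    (h1 : ∀ t, t < s → Stage.Self k0 W t (f t))
    (h2 : ∀ t t', t < t' → t' < s → Stage.Pair t t' (f t) (f t')) :
    ∃ d, Stage.Self k0 W s d ∧ ∀ t, t < s → Stage.Pair t s (f t) d := by
  classical
  obtain ⟨V0, hV1, hV2, hV3⟩ : ∃ V0 : Set X, IsOpen V0 ∧ V0.Nonempty ∧
      ∀ t, t < s → V0 ⊆ (f t).V := by
    rcases s with _ | s
    · exact ⟨W 0, (hW 0).1, (hW 0).2, by simp⟩
    · refine ⟨(f s).V, (h1 s (by omega)).oV, (h1 s (by omega)).nV, fun t ht => ?_⟩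
      rcases Nat.lt_succ_iff_lt_or_eq.1 ht with ht | rfl
      · exact (h2 t s ht (by omega)).VV
      · exact le_rfl
  obtain ⟨a, ha1, ha2⟩ : ∃ a : ℕ, 1 ≤ a ∧ ∀ t, t < s → (f t).K + 2 ≤ a := by
    obtain ⟨A, h3, h4⟩ := exists_bound (fun t => ((f t).K + 2 : ℕ)) s 1
    exact ⟨A.toNat, by omega, fun t ht => by have := h4 t ht; omega⟩
  obtain ⟨S, hS1, hS2⟩ := exists_bound (fun t => (f t).S + 2 * Rp n t (f t).K (f t).S) s (Rw n)
  obtain ⟨W1, v, hW1, hW1n, hW1s, hv1, hv2⟩ := stations hT k0 a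
    (fun i k => ∑ j ∈ range a, 6 ^ j * emb (dg n i j) k) (8 * 3 ^ a) (hW s).1 hV1 (hW s).2 hV2
    ((6 ^ n) ^ a)
  obtain ⟨B, hB1, hB2⟩ := exists_bound (fun i => (l1 (v i) : ℤ)) ((6 ^ n) ^ a) (Bd n)
  obtain ⟨K, hK1, hK2, hK3⟩ : ∃ K : ℕ, a + 3 ≤ K ∧ kst n ≤ K ∧ B ≤ 3 ^ (K - 2) := by
    refine ⟨B.toNat + a + kst n + 3, by omega, by omega, ?_⟩
    have h3 : B.toNat + a + kst n + 3 - 2 < 3 ^ (B.toNat + a + kst n + 3 - 2) :=
      Nat.lt_pow_self (by norm_num)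
    have h4 : ((B.toNat + a + kst n + 3 - 2 : ℕ) : ℤ) < 3 ^ (B.toNat + a + kst n + 3 - 2) := by
      exact_mod_cast h3
    omega
  obtain ⟨W2, hW2, hW2n, hW2s, hdec⟩ := decide_all
    (range s ×ˢ (finite_nb (n := n) (Rp n s K S)).toFinset)
    (fun r => {x : X | r.2 +ᵥ x ∈ (f r.1).U})
    (fun r hr => open_pre (h1 r.1 (mem_range.1 (mem_product.1 hr).1)).oU r.2) hW1 hW1n
  obtain ⟨u, -, hu, x, hx, hux⟩ := far_return hT k0 0 0 hW2 hV1 hW2n hV2 (rho n K + 1)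
  obtain ⟨U1, V1, a1, a2, a3, a4, a5⟩ := sep_nhds (finite_nb (n := n) (rho n K)).toFinset x (u +ᵥ x)
    (fun w hw => by
      rw [← add_vadd]
      refine hf _ _ fun h3 => ?_
      have h4 := (Set.Finite.mem_toFinset _).1 hw k0
      have h5 := congrFun h3 k0
      simp only [Pi.add_apply, Pi.zero_apply] at h5
      rw [abs_le] at h4
      omega)
  obtain ⟨U2, V2, b1, b2, b3, b4, b5⟩ := sep_nhds
    ((finite_nb (n := n) (2 * Rp n s K S)).toFinset.erase 0) x x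
    (fun w hw => hf _ _ (ne_of_mem_erase hw))
  refine ⟨⟨W2 ∩ U1 ∩ (U2 ∩ V2), V0 ∩ V1, x, K, a, S, v⟩, ⟨(hW2.inter a1).inter (b1.inter b2),
    hV1.inter a2, ⟨⟨hx, a3⟩, b3, b4⟩, ⟨_, hux, a4⟩, fun y hy => hW1s (hW2s hy.1.1), hS1, ha1, hK1,
    hK2, hB1.trans hK3, fun y hy w hw hw' hU => ?_, fun y hy w hw hU => ?_, fun i hi k => ?_, hv2,
    fun i hi j hj k => ?_⟩, fun t ht => ⟨hS2 t ht, ha2 t ht, fun y hy => hV3 t ht hy.1,
      fun y hy w hw => ?_, fun i hi => hV3 t ht ((hv1 i hi).2 x (hW2s hx))⟩⟩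
  · exact b5 w (mem_erase.2 ⟨hw, (Set.Finite.mem_toFinset _).2 hw'⟩) y hy.2.2 hU.2.1
  · exact a5 w ((Set.Finite.mem_toFinset _).2 hw) y hy.2 hU.1.2
  · have h3 := hB2 i hi
    have h4 : (v i k).natAbs ≤ l1 (v i) :=
      Finset.single_le_sum (f := fun k => (v i k).natAbs) (fun _ _ => Nat.zero_le _) (mem_univ k)
    show |v i k| ≤ 3 ^ (K - 2)
    rw [Int.abs_eq_natAbs]; omega
  · exact six_digits a _ (fun j => emb (dg n i j) k) (fun j => emb_bound _ _) ((hv1 i hi).1 k) j hj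
  · exact hdec (t, w) (mem_product.2 ⟨mem_range.2 ht, (Set.Finite.mem_toFinset _).2 hw⟩) y
      hy.1.1 x hx

theorem main_solved [PolishSpace X] [Nonempty X] [Nontrivial (Fin n)] (hT : TT n X)
    (hf : IsFree n X) (k0 : Fin n) : HasBaireLabelling (mainLCL k0) X := by
  classical
  obtain ⟨W, hW, hWb⟩ : ∃ W : ℕ → Set X, (∀ s, IsOpen (W s) ∧ (W s).Nonempty) ∧
      ∀ O : Set X, IsOpen O → O.Nonempty → ∃ s, W s ⊆ O := by
    obtain ⟨b, hb1, hb2, hb3⟩ := TopologicalSpace.exists_countable_basis X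
    obtain ⟨W, rfl⟩ := hb1.exists_eq_range (by
      obtain ⟨t, ht, -⟩ := hb3.exists_subset_of_mem_open (Set.mem_univ (Classical.arbitrary X))
        isOpen_univ
      exact ⟨t, ht⟩)
    refine ⟨W, fun s => ⟨hb3.isOpen ⟨s, rfl⟩, Set.nonempty_iff_ne_empty.2 fun h => hb2 ⟨s, h⟩⟩,
      fun O hO ⟨x, hx⟩ => ?_⟩
    obtain ⟨_, ⟨s, rfl⟩, -, h⟩ := hb3.exists_subset_of_mem_open hx hO
    exact ⟨s, h⟩
  have : Inhabited (Stage n X) := ⟨⟨∅, ∅, Classical.arbitrary X, 0, 0, 0, fun _ => 0⟩⟩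
  obtain ⟨f, hs, hp⟩ := exists_seq (Stage.Self k0 W) Stage.Pair (exists_stage hT hf k0 hW)
  let p : Plan n := ⟨fun s => (f s).K, fun s => (f s).a, fun s => (f s).S, fun s => (f s).v,
    fun s t => {w | w +ᵥ (f s).x ∈ (f t).U}⟩
  have hsep : ∀ t (x : X) (w w' : Z n), w +ᵥ x ∈ (f t).U → w' +ᵥ x ∈ (f t).U →
      nb (w - w') (2 * Rp n t (f t).K (f t).S) → w = w' := by
    intro t x w w' h1 h2 h3
    by_contra h4
    exact (hs t).sep _ h2 _ (sub_ne_zero.2 h4) h3 (by rwa [← add_vadd, sub_add_cancel])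
  have hOK : p.OK k0 := by
    refine ⟨⟨fun t => (hs t).s0, fun t s h => (hp t s h).ss, fun t s h => ?_⟩,
      fun t s h => (hp t s h).aa, fun s => (hs s).a1, fun s => (hs s).aK, fun s => (hs s).kk,
      fun s t w hw w' hw' => hsep t _ w w' hw hw', fun s t w hw t' ht y hy => ?_,
      fun s => (hs s).vin, fun s => (hs s).vgap, fun s => (hs s).vdig,
      fun s t i w ht hi hw h => ?_⟩
    · have := (hp t s h).aa; have := (hs s).aK
      simp only [p]; omega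
    · have := (hp t' t ht).dec _ hw y hy
      rw [← add_vadd, add_comm y w] at this
      exact this
    · exact (hs t).avoid _ ((hp t s ht).st i hi) _ h.comm (by rwa [← add_vadd, sub_add_cancel])
  let Occ : X → ℕ → Z n → Prop := fun x s w => w +ᵥ x ∈ (f s).U ∧ nb w (3 ^ ((f s).K - 2))
  let F : X → Lab n := fun x =>
    if h : ∃ r : ℕ × Z n, Occ x r.1 r.2 then p.zz k0 h.choose.1 (-h.choose.2) else default
  have key : ∀ x s w t w', Occ x s w → Occ x t w' → t ≤ s → p.zz k0 s (-w) = p.zz k0 t (-w') := by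
    intro x s w t w' h1 h2 ht
    have h3 : (3:ℤ) ^ ((f t).K - 2) ≤ 3 ^ (f s).K := pow_le_pow_right₀ (by norm_num) (by
      rcases ht.lt_or_eq with h4 | h4
      · have := hOK.pr.kk _ _ h4; simp only [p] at this; omega
      · rw [h4]; omega)
    have h4 : (3:ℤ) ^ ((f s).K - 2) ≤ 3 ^ (f s).K := pow_le_pow_right₀ (by norm_num) (by omega)
    have h5 : nb (w' - w) (Rp n s (f s).K (f s).S) := (h2.2.sub h1.2).mono (by
      have := rho_pos n (f s).K
      have := hOK.pr.rho_le s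
      simp only [p] at this; omega)
    rcases ht.lt_or_eq with ht | rfl
    · have h6 := ((hp t s ht).dec _ h1.1 _ h5).1 (by rw [← add_vadd, sub_add_cancel]; exact h2.1)
      rw [← hOK.zz_copy ht h6 h2.2.neg]
      congr 1; abel
    · have := hOK.pr.Rpos t
      rw [hsep t x w' w h2.1 h1.1 (h5.mono (by simp only [p] at this; omega))]
  have hF : ∀ x s w, Occ x s w → F x = p.zz k0 s (-w) := by
    intro x s w h1
    have hex : ∃ r : ℕ × Z n, Occ x r.1 r.2 := ⟨(s, w), h1⟩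
    simp only [F]
    rw [dif_pos hex]
    rcases le_total s hex.choose.1 with h2 | h2
    · exact key x _ _ _ _ hex.choose_spec h1 h2
    · exact (key x _ _ _ _ h1 hex.choose_spec h2).symm
  let G : Set X := {x | ∃ (s : ℕ) (w : Z n), w +ᵥ x ∈ (f s).U ∧ nb w (3 ^ ((f s).K - 2) - Bd n)}
  have hopen : ∀ Q : ℕ → Z n → Prop, IsOpen {x : X | ∃ (s : ℕ) (w : Z n), w +ᵥ x ∈ (f s).U ∧ Q s w} := by
    intro Q
    simp only [Set.ofPred_exists]
    refine isOpen_iUnion fun s => isOpen_iUnion fun w => ?_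
    by_cases hQ : Q s w
    · simp only [hQ, and_true]; exact open_pre (hs s).oU w
    · simp [hQ]
  have hG : G ∈ residual X := by
    refine residual_of_dense_open (hopen _) (dense_iff_inter_open.2 fun O hO hOn => ?_)
    obtain ⟨s, h1⟩ := hWb O hO hOn
    refine ⟨(f s).x, h1 ((hs s).UW (hs s).xU), s, 0, by rw [zero_vadd]; exact (hs s).xU,
      nb_zero (by have := (hs s).bd; omega)⟩
  refine ⟨F, fun l => ?_, {x | ∀ v : Z n, v +ᵥ x ∈ G}, ?_, fun v y hy w => ?_, fun y hy => ?_⟩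
  · refine (hopen fun s w => nb w (3 ^ ((f s).K - 2)) ∧ p.zz k0 s (-w) = l).baireMeasurableSet.congr
      ?_
    filter_upwards [hG] with x hx
    obtain ⟨s, w, h1, h2⟩ := hx
    have h3 : Occ x s w := ⟨h1, h2.mono (by have := Bd_pos n; omega)⟩
    apply propext
    constructor
    · rintro ⟨s', w', h4, h5, h6⟩
      exact (hF x s' w' ⟨h4, h5⟩).trans h6
    · intro h4
      exact ⟨s, w, h1, h3.2, (hF x s w h3).symm.trans h4⟩
  · exact eventually_countable_forall.2 fun v =>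
      (tendsto_residual_of_isOpenMap (continuous_const_vadd v) (isOpenMap_vadd v)).eventually hG
  · rw [← add_vadd]; exact hy _
  · obtain ⟨s, w, h1, h2⟩ := hy 0
    rw [zero_vadd] at h1
    refine (mainLCL_iff k0 fun v => F (v +ᵥ y)).2 ((hOK.zz_rule (s := s) h2.neg).local
      fun v hv => ?_)
    rw [hF (v +ᵥ y) s (w - v) ⟨by rwa [← add_vadd, sub_add_cancel], by simpa using h2.sub hv⟩]
    congr 1; abel

end Dyn

end Pool.Agent.MP_c4ca5b_lc

end
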