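import Mathlib

section

namespace Pool.Agent.MP_c4ca5b_lc

open Finset

abbrev Z (n : ℕ) := Fin n → ℤ

variable {n : ℕ}

def e (k : Fin n) : Z n := Pi.single k 1

@[simp] lemma e_same (k : Fin n) : e k k = 1 := by simp [e]

lemma e_ne {k l : Fin n} (h : l ≠ k) : e k l = 0 := by simp [e, h]

lemma e_apply (k l : Fin n) : e k l = if l = k then 1 else 0 := by
  simp [e, Pi.single_apply]

/-- sup-norm bound -/
def nb (y : Z n) (R : ℤ) : Prop := ∀ k, |y k| ≤ R

lemma nb.mono {y : Z n} {R R' : ℤ} (h : nb y R) (h' : R ≤ R') : nb y R' :=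
  fun k => (h k).trans h'

lemma nb.add {y y' : Z n} {R R' : ℤ} (h : nb y R) (h' : nb y' R') : nb (y + y') (R + R') :=
  fun k => (abs_add_le _ _).trans (add_le_add (h k) (h' k))

lemma nb.neg {y : Z n} {R : ℤ} (h : nb y R) : nb (-y) R := fun k => by
  simpa using h k

lemma nb.sub {y y' : Z n} {R R' : ℤ} (h : nb y R) (h' : nb y' R') : nb (y - y') (R + R') := by
  rw [sub_eq_add_neg]; exact h.add h'.neg

lemma nb_zero {R : ℤ} (h : 0 ≤ R) : nb (0 : Z n) R := fun _ => by simpa using h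

lemma nb_e (k : Fin n) : nb (e k) 1 := fun l => by
  rw [e_apply]; split_ifs <;> simp

lemma nb.comm {y y' : Z n} {R : ℤ} (h : nb (y - y') R) : nb (y' - y) R := by
  have := h.neg; simpa using this

lemma finite_nb (R : ℤ) : {y : Z n | nb y R}.Finite := by
  have : {y : Z n | nb y R} = Set.pi Set.univ (fun _ => Set.Icc (-R) R) := by
    ext y; simp [nb, abs_le]
    constructor
    · intro h; exact ⟨fun i => (h i).1, fun i => (h i).2⟩
    · intro h i; exact ⟨h.1 i, h.2 i⟩
  rw [this]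
  exact Set.Finite.pi' (fun _ => Set.finite_Icc _ _) |>.subset (fun y hy i => hy i trivial)

def l1 (y : Z n) : ℕ := ∑ k, (y k).natAbs

lemma l1_step (y : Z n) (hy : y ≠ 0) :
    ∃ k, (∃ y', y = y' + e k ∧ l1 y' + 1 = l1 y) ∨ (∃ y', y' = y + e k ∧ l1 y' + 1 = l1 y) := by
  obtain ⟨k, hk⟩ : ∃ k, y k ≠ 0 := by
    by_contra h; push Not at h; exact hy (funext h)
  have key : ∀ y' : Z n, (∀ l, l ≠ k → y' l = y l) → (y' k).natAbs + 1 = (y k).natAbs →
      l1 y' + 1 = l1 y := by
    intro y' h1 h2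
    unfold l1
    rw [← Finset.add_sum_erase _ _ (Finset.mem_univ k),
      ← Finset.add_sum_erase _ (fun l => (y l).natAbs) (Finset.mem_univ k)]
    have : ∑ x ∈ univ.erase k, (y' x).natAbs = ∑ x ∈ univ.erase k, (y x).natAbs :=
      Finset.sum_congr rfl (fun l hl => by rw [h1 l (Finset.ne_of_mem_erase hl)])
    omega
  refine ⟨k, ?_⟩
  rcases lt_or_gt_of_ne hk with h | h
  · right
    refine ⟨y + e k, rfl, key _ (fun l hl => by simp [e_ne hl]) ?_⟩
    simp; omega
  · left
    refine ⟨y - e k, by simp, key _ (fun l hl => by simp [e_ne hl]) ?_⟩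
    simp; omega

lemma unit_induction {P : Z n → Prop} (u0 : Z n) (h0 : P u0)
    (hs : ∀ u k, P u ↔ P (u + e k)) (u : Z n) : P u := by
  have : ∀ N, ∀ y, l1 y = N → P (u0 + y) := by
    intro N
    induction N with
    | zero =>
      intro y hy
      have : y = 0 := by
        by_contra h
        obtain ⟨k, ⟨y', -, h2⟩ | ⟨y', -, h2⟩⟩ := l1_step y h <;> omega
      simpa [this] using h0
    | succ N ih =>
      intro y hy
      have : y ≠ 0 := by
        rintro rfl; simp [l1] at hy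
      obtain ⟨k, ⟨y', h1, h2⟩ | ⟨y', h1, h2⟩⟩ := l1_step y this
      · have := (hs _ k).1 (ih y' (by omega))
        rw [h1, ← add_assoc]; exact this
      · have := ih y' (by omega)
        rw [h1, ← add_assoc] at this
        exact (hs _ k).2 this
  simpa using this _ (u - u0) rfl

lemma lip_l1 {F : Z n → ℤ} {L : ℤ} (h : ∀ u k, |F (u + e k) - F u| ≤ L) (u : Z n) :
    ∀ N, ∀ y, l1 y = N → |F (u + y) - F u| ≤ N * L := by
  intro N
  induction N with
  | zero =>
    intro y hy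
    have : y = 0 := by
      by_contra h
      obtain ⟨k, ⟨y', -, h2⟩ | ⟨y', -, h2⟩⟩ := l1_step y h <;> omega
    simp [this]
  | succ N ih =>
    intro y hy
    have : y ≠ 0 := by
      rintro rfl; simp [l1] at hy
    obtain ⟨k, ⟨y', h1, h2⟩ | ⟨y', h1, h2⟩⟩ := l1_step y this
    · have h3 := ih y' (by omega)
      have h4 := h (u + y') k
      rw [h1, ← add_assoc]
      push_cast
      rw [abs_le] at *
      constructor <;> linarith [h3.1, h3.2, h4.1, h4.2]
    · have h3 := ih y' (by omega)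
      have h4 := h (u + y) k
      rw [h1, ← add_assoc] at h3
      push_cast
      rw [abs_le] at *
      constructor <;> linarith [h3.1, h3.2, h4.1, h4.2]

lemma l1_le {y : Z n} {R : ℤ} (h : nb y R) : (l1 y : ℤ) ≤ n * R := by
  unfold l1
  push_cast
  calc ∑ k, |y k| ≤ ∑ _k : Fin n, R := Finset.sum_le_sum (fun k _ => h k)
    _ = n * R := by simp

lemma lip_nb {F : Z n → ℤ} (h : ∀ u k, |F (u + e k) - F u| ≤ 1) (u y : Z n) {R : ℤ}
    (hy : nb y R) : |F (u + y) - F u| ≤ n * R := by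
  have := lip_l1 h u _ y rfl
  have h2 := l1_le hy
  linarith

/-- primitive on the integers -/
lemma exists_prim : ∃ pr : (ℤ → ℤ) → ℤ → ℤ, ∀ h t, pr h (t + 1) - pr h t = h t := by
  have : ∀ h : ℤ → ℤ, ∃ p : ℤ → ℤ, ∀ t, p (t + 1) - p t = h t := by
    intro h
    refine ⟨fun t => ∑ i ∈ Finset.range t.toNat, h i - ∑ i ∈ Finset.range (-t).toNat, h (-1 - i), ?_⟩
    intro t
    rcases lt_or_ge t 0 with ht | ht
    · obtain ⟨m, rfl⟩ : ∃ m : ℕ, t = -1 - m := ⟨(-1 - t).toNat, by omega⟩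
      have h1 : (-1 - (m : ℤ) + 1).toNat = 0 := by omega
      have h2 : (-1 - (m : ℤ)).toNat = 0 := by omega
      have h3 : (-(-1 - (m : ℤ) + 1)).toNat = m := by omega
      have h4 : (-(-1 - (m : ℤ))).toNat = m + 1 := by omega
      simp only [h1, h2, h3, h4, Finset.sum_range_succ]
      simp
    · obtain ⟨m, rfl⟩ : ∃ m : ℕ, t = m := ⟨t.toNat, by omega⟩
      have h1 : ((m : ℤ) + 1).toNat = m + 1 := by omega
      have h2 : ((m : ℤ)).toNat = m := by omega
      have h3 : (-((m : ℤ) + 1)).toNat = 0 := by omega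
      have h4 : (-((m : ℤ))).toNat = 0 := by omega
      simp only [h1, h2, h3, h4, Finset.sum_range_succ]
      simp
  choose pr hpr using this
  exact ⟨pr, hpr⟩

/-- a closed 1-form on `ℤ^n` is exact -/
lemma exists_potential (g : Fin n → Z n → ℤ)
    (hg : ∀ i k u, g i (u + e k) - g i u = g k (u + e i) - g k u) :
    ∃ F : Z n → ℤ, ∀ i u, F (u + e i) - F u = g i u := by
  obtain ⟨pr, hpr⟩ := exists_prim
  have : ∀ S : Finset (Fin n), ∃ F : Z n → ℤ, ∀ i ∈ S, ∀ u, F (u + e i) - F u = g i u := by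
    intro S
    induction S using Finset.induction_on with
    | empty => exact ⟨fun _ => 0, by simp⟩
    | insert k S hk ih =>
      obtain ⟨F, hF⟩ := ih
      let r : Z n → ℤ := fun u => g k u - (F (u + e k) - F u)
      have hr : ∀ i ∈ S, ∀ u, r (u + e i) = r u := by
        intro i hi u
        have h1 := hF i hi u
        have h2 := hF i hi (u + e k)
        have h3 := hg i k u
        simp only [r]
        rw [show u + e i + e k = u + e k + e i by abel]
        linarith
      refine ⟨fun u => F u + pr (fun t => r (Function.update u k t)) (u k), ?_⟩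
      intro i hi u
      rcases Finset.mem_insert.1 hi with rfl | hi
      · have h1 : (fun t => r (Function.update (u + e i) i t)) =
            (fun t => r (Function.update u i t)) := by
          funext t; congr 1; funext l
          by_cases hl : l = i
          · subst hl; simp
          · simp [Function.update_of_ne hl, e_ne hl]
        have h2 := hpr (fun t => r (Function.update u i t)) (u i)
        simp only [h1, Pi.add_apply, e_same]
        simp only [Function.update_eq_self] at h2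
        simp only [r] at h2 ⊢
        linarith
      · have hik : i ≠ k := fun h => hk (h ▸ hi)
        have h1 : (fun t => r (Function.update (u + e i) k t)) =
            (fun t => r (Function.update u k t)) := by
          funext t
          rw [← hr i hi (Function.update u k t)]
          congr 1; funext l
          by_cases hl : l = k
          · subst hl; simp [e_ne hik.symm]
          · simp [Function.update_of_ne hl]
        have h2 := hF i hi u
        simp only [h1, Pi.add_apply, e_ne hik.symm, add_zero]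
        linarith
  obtain ⟨F, hF⟩ := this Finset.univ
  exact ⟨F, fun i u => hF i (Finset.mem_univ _) u⟩

/-! ### The flexible base grid -/

/-- macro step -/
def Mc (n : ℕ) : ℤ := 2 * (n + 1)
/-- additive constant in coarse injectivity -/
def C1 (n : ℕ) : ℤ := Mc n * (n * Mc n + 1)
/-- window radius for fibres -/
def Rw (n : ℕ) : ℤ := Mc n + C1 n

lemma Mc_pos (n : ℕ) : 2 ≤ Mc n := by unfold Mc; omega
lemma C1_pos (n : ℕ) : 2 ≤ C1 n := by
  unfold C1; have := Mc_pos n; have : (0:ℤ) ≤ n * Mc n := by positivity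
  nlinarith
lemma Rw_pos (n : ℕ) : 4 ≤ Rw n := by
  unfold Rw; have := Mc_pos n; have := C1_pos n; omega

structure IsGrid (ψ : Z n → Z n) : Prop where
  lip : ∀ u i k, |ψ (u + e i) k - ψ u k| ≤ 1
  exp : ∀ u i k, |ψ (u + Mc n • e i) k - ψ u k - (n + 1) * e i k| ≤ 1
  surp : ∀ u k, ∃ y, nb y (Rw n) ∧ ψ (u + y) = ψ u + e k
  surm : ∀ u k, ∃ y, nb y (Rw n) ∧ ψ (u + y) + e k = ψ u

lemma IsGrid.lip_nb {ψ : Z n → Z n} (h : IsGrid ψ) (u y : Z n) {R : ℤ} (hy : nb y R) :
    nb (ψ (u + y) - ψ u) (n * R) := fun k =>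
  Pool.Agent.MP_c4ca5b_lc.lip_nb (F := fun u => ψ u k) (fun u i => h.lip u i k) u y hy

lemma IsGrid.surj {ψ : Z n → Z n} (h : IsGrid ψ) : Function.Surjective ψ := by
  intro c
  refine unit_induction (P := fun c => ∃ u, ψ u = c) (ψ 0) ⟨0, rfl⟩ ?_ c
  intro c k
  constructor
  · rintro ⟨u, rfl⟩
    obtain ⟨y, -, hy⟩ := h.surp u k
    exact ⟨_, hy⟩
  · rintro ⟨u, hu⟩
    obtain ⟨y, -, hy⟩ := h.surm u k
    exact ⟨u + y, by rw [hu] at hy; exact add_right_cancel hy⟩

lemma exists_max_coord (q : Z n) : ∃ Q : ℤ, 0 ≤ Q ∧ nb q Q ∧ (Q = 0 ∨ ∃ i, |q i| = Q) := by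
  rcases Nat.eq_zero_or_pos n with rfl | hn
  · exact ⟨0, le_rfl, fun k => k.elim0, Or.inl rfl⟩
  · have : Nonempty (Fin n) := ⟨⟨0, hn⟩⟩
    obtain ⟨i, hi⟩ := Finite.exists_max (fun i => |q i|)
    exact ⟨|q i|, abs_nonneg _, hi, Or.inr ⟨i, rfl⟩⟩

lemma IsGrid.coarse {ψ : Z n → Z n} (h : IsGrid ψ) (u u' : Z n) {D : ℤ} (hD0 : 0 ≤ D)
    (hD : nb (ψ u' - ψ u) D) : nb (u' - u) (Mc n * D + C1 n) := by
  have hM := Mc_pos n
  set y := u' - u with hy
  let q : Z n := fun k => y k / Mc n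
  let r : Z n := fun k => y k % Mc n
  have hqr : u' = u + Mc n • q + r := by
    funext k
    have := Int.mul_ediv_add_emod (y k) (Mc n)
    simp only [q, r, Pi.add_apply, Pi.smul_apply, smul_eq_mul]
    have h2 : y k = u' k - u k := rfl
    linarith
  have hr : nb r (Mc n) := fun k => by
    have h1 := Int.emod_nonneg (y k) (show Mc n ≠ 0 by omega)
    have h2 := Int.emod_lt_of_pos (y k) (show 0 < Mc n by omega)
    simp only [r]; rw [abs_le]; constructor <;> linarith
  obtain ⟨Q, hQ0, hQ, hQi⟩ := exists_max_coord q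
  have hQb : Q ≤ D + n * Mc n := by
    rcases hQi with rfl | ⟨i, hi⟩
    · have : (0:ℤ) ≤ n * Mc n := by positivity
      linarith
    · have h1 := Pool.Agent.MP_c4ca5b_lc.lip_nb
        (F := fun q => ψ (u + Mc n • q) i - (n + 1) * q i) (fun v k => by
          have := h.exp (u + Mc n • v) k i
          simp only [smul_add, Pi.add_apply, ← add_assoc]
          convert this using 2; ring) 0 q hQ
      have h2 := h.lip_nb (u + Mc n • q) r hr i
      rw [← hqr] at h2
      have h3 := hD i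
      simp only [zero_add, smul_zero, add_zero, Pi.zero_apply, mul_zero, sub_zero,
        Pi.sub_apply] at h1 h2 h3
      have h4 : |(n + 1 : ℤ) * q i| = (n + 1) * Q := by
        rw [abs_mul, hi, abs_of_nonneg (by positivity)]
      have h5 : |(n + 1 : ℤ) * q i| ≤ n * Q + n * Mc n + D := by
        rw [abs_le] at *
        constructor <;> linarith [h1.1, h1.2, h2.1, h2.2, h3.1, h3.2]
      linarith
  intro k
  have h1 : y k = Mc n * q k + r k := (Int.mul_ediv_add_emod (y k) (Mc n)).symm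
  have h2 := hQ k
  have h3 := hr k
  rw [h1]
  calc |Mc n * q k + r k| ≤ |Mc n * q k| + |r k| := abs_add_le _ _
    _ ≤ Mc n * Q + Mc n := by
        rw [abs_mul, abs_of_nonneg (by omega : (0:ℤ) ≤ Mc n)]
        nlinarith
    _ ≤ Mc n * D + C1 n := by
        unfold C1; nlinarith

lemma IsGrid.fibre {ψ : Z n → Z n} (h : IsGrid ψ) {u u' : Z n} (huu : ψ u' = ψ u) :
    nb (u' - u) (Rw n) := by
  have := h.coarse u u' (D := 0) le_rfl (by rw [huu, sub_self]; exact nb_zero le_rfl)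
  refine this.mono ?_
  unfold Rw; have := Mc_pos n; omega

/-! ### The ternary hierarchy -/

def par (C : Z n) : Z n := fun k => C k / 3

def anc (h : ℕ) (C : Z n) : Z n := fun k => C k / 3 ^ h

@[simp] lemma anc_zero (C : Z n) : anc 0 C = C := by funext k; simp [anc]

lemma anc_succ (h : ℕ) (C : Z n) : anc (h + 1) C = par (anc h C) := by
  funext k; simp only [anc, par]
  rw [Int.ediv_ediv_of_nonneg (by positivity), pow_succ]

lemma anc_succ' (h : ℕ) (C : Z n) : anc (h + 1) C = anc h (par C) := by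
  funext k; simp only [anc, par]
  rw [Int.ediv_ediv_of_nonneg (by positivity), pow_succ']

lemma anc_add (h h' : ℕ) (C : Z n) : anc (h + h') C = anc h' (anc h C) := by
  funext k; simp only [anc]
  rw [Int.ediv_ediv_of_nonneg (by positivity), pow_add]

lemma anc_eq_iff (h : ℕ) (C A : Z n) :
    anc h C = A ↔ ∀ k, 3 ^ h * A k ≤ C k ∧ C k < 3 ^ h * A k + 3 ^ h := by
  have hp : (0:ℤ) < 3 ^ h := by positivity
  rw [funext_iff]
  refine forall_congr' fun k => ?_
  simp only [anc]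
  constructor
  · intro hA
    rw [← hA]
    have h1 := Int.mul_ediv_add_emod (C k) (3 ^ h)
    have h2 := Int.emod_nonneg (C k) hp.ne'
    have h3 := Int.emod_lt_of_pos (C k) hp
    constructor <;> linarith
  · rintro ⟨h1, h2⟩
    apply le_antisymm
    · have : C k / 3 ^ h < A k + 1 := (Int.ediv_lt_iff_lt_mul hp).2 (by linarith)
      omega
    · exact (Int.le_ediv_iff_mul_le hp).2 (by linarith)

lemma anc_add_smul (h : ℕ) (C q : Z n) : anc h (C + (3 ^ h : ℤ) • q) = anc h C + q := by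
  funext k
  simp only [anc, Pi.add_apply, Pi.smul_apply, smul_eq_mul]
  rw [Int.add_mul_ediv_left _ _ (by positivity)]

lemma par_add_smul (C q : Z n) : par (C + (3 : ℤ) • q) = par C + q := by
  funext k
  simp only [par, Pi.add_apply, Pi.smul_apply, smul_eq_mul]
  omega

abbrev Pos (n : ℕ) := Fin n → ZMod 3

def pos (C : Z n) : Pos n := fun k => (C k : ZMod 3)

def ep (k : Fin n) : Pos n := Pi.single k 1

def ctr : Pos n := fun _ => 1

lemma pos_add_e (C : Z n) (k : Fin n) : pos (C + e k) = pos C + ep k := by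
  funext l
  simp only [pos, ep, e, Pi.add_apply, Pi.single_apply]
  split_ifs <;> simp

lemma pos_add_smul (C q : Z n) : pos (C + (3 : ℤ) • q) = pos C := by
  funext l
  simp only [pos, Pi.add_apply, Pi.smul_apply, smul_eq_mul]
  push_cast
  have : (3 : ZMod 3) = 0 := rfl
  rw [this]; simp

lemma cast_eq_zero_iff (a : ℤ) : (a : ZMod 3) = 0 ↔ a % 3 = 0 := by
  have := ZMod.intCast_eq_intCast_iff' a 0 3
  simpa using this

lemma cast_eq_one_iff (a : ℤ) : (a : ZMod 3) = 1 ↔ a % 3 = 1 := by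
  have := ZMod.intCast_eq_intCast_iff' a 1 3
  simpa using this

lemma cast_eq_two_iff (a : ℤ) : (a : ZMod 3) = 2 ↔ a % 3 = 2 := by
  have := ZMod.intCast_eq_intCast_iff' a 2 3
  simpa using this

lemma pos_zero_iff (C : Z n) (k : Fin n) : pos C k = 0 ↔ C k % 3 = 0 := cast_eq_zero_iff _
lemma pos_one_iff (C : Z n) (k : Fin n) : pos C k = 1 ↔ C k % 3 = 1 := cast_eq_one_iff _
lemma pos_two_iff (C : Z n) (k : Fin n) : pos C k = 2 ↔ C k % 3 = 2 := cast_eq_two_iff _

lemma pos_eq_ctr_iff (C : Z n) : pos C = ctr ↔ ∀ k, C k % 3 = 1 := by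
  rw [funext_iff]; exact forall_congr' fun k => pos_one_iff C k

lemma par_add_e_of_ne {C : Z n} {k : Fin n} (h : pos C k ≠ 2) : par (C + e k) = par C := by
  rw [Ne, pos_two_iff] at h
  funext l
  simp only [par, Pi.add_apply, e_apply]
  split_ifs with hl
  · subst hl; omega
  · simp

lemma par_add_e_of_eq {C : Z n} {k : Fin n} (h : pos C k = 2) : par (C + e k) = par C + e k := by
  rw [pos_two_iff] at h
  funext l
  simp only [par, Pi.add_apply, e_apply]
  split_ifs with hl
  · subst hl; omega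
  · simp

lemma eq_of_par_pos {C D : Z n} (h1 : par C = par D) (h2 : pos C = pos D) : C = D := by
  funext k
  have a := congrFun h1 k
  have b := (ZMod.intCast_eq_intCast_iff' (C k) (D k) 3).1 (congrFun h2 k)
  simp only [par] at a
  push_cast at b
  omega

end Pool.Agent.MP_c4ca5b_lc

end

section

namespace Pool.Agent.MP_c4ca5b_lc

open Finset

variable {n : ℕ}

/-- A system of local rules on the ternary pyramid. -/
structure Sys (n : ℕ) (L : Type) : Type where
  sp : L → Prop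
  SR : L → Prop
  VR : Pos n → L → L → Prop
  PS : L → Prop
  HR : Fin n → Pos n → L → L → L → Prop

structure Mk (n : ℕ) (L : Type) : Type where
  ps : Pos n
  lam : L
  mu : L

structure Face (n : ℕ) (L : Type) : Type where
  tag : Pos n
  lo : Mk n L
  up : Mk n L

structure Pay (n : ℕ) (L : Type) : Type where
  fp : Fin n → Face n L
  fm : Fin n → Face n L

instance {L : Type} [Finite L] : Finite (Mk n L) :=
  Finite.of_injective (fun m : Mk n L => (m.ps, m.lam, m.mu)) (by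
    rintro ⟨a, b, c⟩ ⟨a', b', c'⟩ h; simp at h; simp [h])

instance {L : Type} [Finite L] : Finite (Face n L) :=
  Finite.of_injective (fun m : Face n L => (m.tag, m.lo, m.up)) (by
    rintro ⟨a, b, c⟩ ⟨a', b', c'⟩ h; simp at h; simp [h])

instance {L : Type} [Finite L] : Finite (Pay n L) :=
  Finite.of_injective (fun m : Pay n L => (m.fp, m.fm)) (by
    rintro ⟨a, b⟩ ⟨a', b'⟩ h; simp at h; simp [h])

instance {L : Type} [Inhabited L] : Inhabited (Mk n L) := ⟨⟨0, default, default⟩⟩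
instance {L : Type} [Inhabited L] : Inhabited (Face n L) := ⟨⟨0, default, default⟩⟩
instance {L : Type} [Inhabited L] : Inhabited (Pay n L) := ⟨⟨default, default⟩⟩

def proper (k : Fin n) (π : Pos n) : Prop := ∃ l, l ≠ k ∧ π l ≠ 0

lemma proper_add (k : Fin n) (π : Pos n) : proper k (π + ep k) ↔ proper k π := by
  unfold proper
  refine exists_congr fun l => and_congr_right fun hl => ?_
  simp [ep, hl]

variable {L : Type} (S : Sys n L)

def Sys.Rel (k : Fin n) (m m' : Mk n L) : Prop :=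
  m'.ps = m.ps + ep k ∧ (m.ps k ≠ 2 → ¬ S.sp m.lam → ¬ S.sp m'.lam → m.mu = m'.mu) ∧
  S.SR m.lam ∧ (S.sp m.lam → m.ps = ctr) ∧
  (¬ S.sp m.lam → S.VR m.ps m.lam m.mu ∧ S.HR k m.ps m.lam m'.lam m.mu)

def Sys.PC (m : Mk n L) (lp : L) : Prop :=
  (S.sp m.lam → S.PS lp) ∧ (¬ S.sp m.lam → m.mu = lp)

def Sys.Chk (k : Fin n) (m : Mk n L) (f : Face n L) : Prop :=
  proper k m.ps → f.tag = m.ps ∧ S.PC m f.lo.lam

def Sys.Kind (π : Pos n) (M : Mk n L) (p : Pay n L) : Prop :=
  (∀ k, proper k π → (p.fp k).tag = π ∧ (p.fp k).lo = M ∧ (p.fm k).tag + ep k = π ∧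
      (p.fm k).up = M ∧ (π k ≠ 2 → (p.fp k).up = M) ∧ (π k = 2 → S.Rel k M (p.fp k).up)) ∧
  (∀ k, ¬ proper k π → p.fp k = p.fm k ∧ S.Chk k M (p.fp k))

def Sys.K0 (p : Pay n L) : Prop := ∃ π M, π ≠ 0 ∧ S.Kind π M p

abbrev Cfg (n : ℕ) (L : Type) := Z n → Mk n L × Pay n L

structure Sys.Valid (ζ : Cfg n L) : Prop where
  k0 : ∀ c, S.K0 (ζ c).2
  rel : ∀ c k, S.Rel k (ζ c).1 (ζ (c + e k)).1
  face : ∀ c k, (ζ c).2.fp k = (ζ (c + e k)).2.fm k
  chk : ∀ c k, S.Chk k (ζ c).1 ((ζ c).2.fp k)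

def offs (ζ : Cfg n L) : Z n := fun k => -(((ζ 0).1.ps k).val : ℤ)

def one : Z n := fun _ => 1

def der (k0 : Fin n) (ζ : Cfg n L) : Cfg n L := fun C =>
  (((ζ ((3 : ℤ) • C + offs ζ + one)).2.fp k0).lo, (ζ ((3 : ℤ) • C + offs ζ)).2)

variable {S}

lemma ep_ne_zero (k : Fin n) : ep k ≠ 0 := by
  intro h; have := congrFun h k; simp [ep] at this

lemma Sys.Valid.ps_eq {ζ : Cfg n L} (h : S.Valid ζ) (c : Z n) :
    (ζ c).1.ps = pos (c - offs ζ) := by
  refine unit_induction (P := fun c => (ζ c).1.ps = pos (c - offs ζ)) 0 ?_ ?_ c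
  · funext k; simp [pos, offs]
  · intro u k
    rw [(h.rel u k).1, show u + e k - offs ζ = u - offs ζ + e k by abel, pos_add_e]
    simp

lemma exists_proper [Nontrivial (Fin n)] {π : Pos n} (h : π ≠ 0) : ∃ k, proper k π := by
  obtain ⟨l, hl⟩ : ∃ l, π l ≠ 0 := by
    by_contra h'; push Not at h'; exact h (funext h')
  obtain ⟨k, hk⟩ := exists_ne l
  exact ⟨k, l, hk.symm, hl⟩

lemma Sys.Valid.kind [Nontrivial (Fin n)] {ζ : Cfg n L} (h : S.Valid ζ) (c : Z n)
    (hc : (ζ c).1.ps ≠ 0) : ∃ M, S.Kind (ζ c).1.ps M (ζ c).2 := by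
  obtain ⟨π, M, hπ, hK⟩ := h.k0 c
  obtain ⟨k, hk⟩ := exists_proper hc
  have h1 := (h.chk c k hk).1
  have h2 : (ζ c).1.ps = (ζ (c - e k)).1.ps + ep k := by
    have := (h.rel (c - e k) k).1
    rwa [sub_add_cancel] at this
  have h3 : ((ζ c).2.fm k).tag = (ζ (c - e k)).1.ps := by
    have := h.face (c - e k) k
    rw [sub_add_cancel] at this
    rw [← this]
    exact (h.chk _ k (by rw [h2, proper_add] at hk; exact hk)).1
  by_cases hp : proper k π
  · have := (hK.1 k hp).1
    rw [h1] at this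
    exact ⟨M, this ▸ hK⟩
  · have := (hK.2 k hp).1
    rw [this, h3] at h1
    rw [h1] at h2
    exact absurd (by simpa using h2) (ep_ne_zero k)

lemma pos_tri (C o : Z n) (y : Z n) : pos ((3 : ℤ) • C + o + y - o) = pos y := by
  rw [show (3 : ℤ) • C + o + y - o = y + (3:ℤ) • C by abel, pos_add_smul]

lemma proper_pos_iff (k : Fin n) (y : Z n) : proper k (pos y) ↔ ∃ l, l ≠ k ∧ y l % 3 ≠ 0 := by
  unfold proper
  simp only [Ne, pos_zero_iff]

lemma pos_ne_zero_iff (y : Z n) : pos y ≠ 0 ↔ ∃ l, y l % 3 ≠ 0 := by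
  rw [Ne, funext_iff, not_forall]
  simp only [Pi.zero_apply, pos_zero_iff]

/-- The internal label of a cell with non-zero position is the label of its parent. -/
lemma Sys.Valid.kind_der [Nontrivial (Fin n)] (k0 : Fin n) {ζ : Cfg n L} (h : S.Valid ζ)
    (C y : Z n) (hy : ∀ k, 0 ≤ y k ∧ y k < 3) (hy0 : pos y ≠ 0) :
    S.Kind (pos y) (der k0 ζ C).1 (ζ ((3 : ℤ) • C + offs ζ + y)).2 := by
  set o := offs ζ with ho
  have hps : ∀ y, (ζ ((3 : ℤ) • C + o + y)).1.ps = pos y := fun y => by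
    rw [h.ps_eq, pos_tri]
  have hK : ∀ y, pos y ≠ 0 → ∃ M, S.Kind (pos y) M (ζ ((3 : ℤ) • C + o + y)).2 := fun y hy => by
    have := h.kind ((3 : ℤ) • C + o + y) (by rw [hps]; exact hy)
    rwa [hps] at this
  -- one step
  have step : ∀ y k M M', proper k (pos y) → y k % 3 ≠ 2 →
      S.Kind (pos y) M (ζ ((3 : ℤ) • C + o + y)).2 →
      S.Kind (pos (y + e k)) M' (ζ ((3 : ℤ) • C + o + (y + e k))).2 → M = M' := by
    intro y k M M' hp h2 hM hM'
    have a := (hM.1 k hp).2.2.2.2.1 (by rw [Ne, pos_two_iff]; exact h2)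
    have b := (hM'.1 k (by rw [pos_add_e, proper_add]; exact hp)).2.2.2.1
    have c := h.face ((3 : ℤ) • C + o + y) k
    rw [add_assoc _ y] at c
    rw [← a, c, b]
  have hone : pos (one : Z n) ≠ 0 := by
    rw [pos_ne_zero_iff]; exact ⟨k0, by simp [one]⟩
  have hprop1 : ∀ k, proper k (pos (one : Z n)) := fun k => by
    obtain ⟨l, hl⟩ := exists_ne k
    rw [proper_pos_iff]; exact ⟨l, hl, by simp [one]⟩
  obtain ⟨M1, hM1⟩ := hK one hone
  have hM1' : (der k0 ζ C).1 = M1 := (hM1.1 k0 (hprop1 k0)).2.1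
  rw [hM1']
  have main : ∀ N, ∀ y : Z n, (∀ k, 0 ≤ y k ∧ y k < 3) → pos y ≠ 0 → l1 (y - one) = N →
      S.Kind (pos y) M1 (ζ ((3 : ℤ) • C + o + y)).2 := by
    intro N
    induction N with
    | zero =>
      intro y _ _ hN
      have : y = one := by
        by_contra hne
        obtain ⟨k, ⟨y', -, h2⟩ | ⟨y', -, h2⟩⟩ := l1_step (y - one) (sub_ne_zero.2 hne) <;> omega
      rw [this]; exact hM1
    | succ N ih =>
      intro y hy hy0 hN
      have key : ∀ (y' : Z n) (k : Fin n), (∀ l, l ≠ k → y' l = y l) →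
          (y' k - 1).natAbs + 1 = (y k - 1).natAbs → l1 (y' - one) = N := by
        intro y' k h1 h2
        unfold l1 at hN ⊢
        rw [← Finset.add_sum_erase _ _ (Finset.mem_univ k)] at hN ⊢
        have : ∑ x ∈ univ.erase k, ((y' - one : Z n) x).natAbs =
            ∑ x ∈ univ.erase k, ((y - one : Z n) x).natAbs :=
          Finset.sum_congr rfl (fun l hl => by
            simp only [Pi.sub_apply]; rw [h1 l (Finset.ne_of_mem_erase hl)])
        simp only [Pi.sub_apply, one] at hN this ⊢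
        omega
      obtain ⟨M, hM⟩ := hK y hy0
      by_cases hz : ∃ k, y k = 0
      · obtain ⟨k, hk⟩ := hz
        have hp : proper k (pos y) := by
          rw [proper_pos_iff]
          obtain ⟨l, hl⟩ := (pos_ne_zero_iff y).1 hy0
          exact ⟨l, by rintro rfl; omega, hl⟩
        have h1 := ih (y + e k) (fun l => by
            have := hy l
            rw [Pi.add_apply, e_apply]; split_ifs with h
            · subst h; omega
            · omega)
          (by rw [pos_ne_zero_iff]; exact ⟨k, by simp [hk]⟩)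
          (key _ k (fun l hl => by simp [e_ne hl]) (by simp [hk]))
        rw [← step y k M M1 hp (by omega) hM h1]; exact hM
      · push Not at hz
        obtain ⟨k, hk⟩ : ∃ k, y k = 2 := by
          by_contra h2; push Not at h2
          have : y = one := funext fun k => by
            have := hy k; have := hz k; have := h2 k; simp only [one]; omega
          rw [this] at hN; simp [l1] at hN
        obtain ⟨l, hl⟩ := exists_ne k
        have hp : proper k (pos (y - e k)) := by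
          rw [proper_pos_iff]
          refine ⟨l, hl, ?_⟩
          have := hy l; have := hz l
          simp only [Pi.sub_apply, e_ne hl]; omega
        have h1 := ih (y - e k) (fun l => by
            have := hy l
            rw [Pi.sub_apply, e_apply]; split_ifs with h
            · subst h; omega
            · omega)
          (by rw [pos_ne_zero_iff]; exact ⟨k, by simp [hk]⟩)
          (key _ k (fun l hl => by simp [e_ne hl]) (by simp [hk]))
        have := step (y - e k) k M1 M hp (by simp [hk]) h1 (by rw [sub_add_cancel]; exact hM)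
        rw [this]; exact hM
  exact main _ y hy hy0 rfl

lemma bound_e (k : Fin n) (a : ℤ) (ha : 0 ≤ a ∧ a < 3) : ∀ l, 0 ≤ (a • e k) l ∧ (a • e k) l < 3 := by
  intro l
  simp only [Pi.smul_apply, smul_eq_mul, e_apply]; split_ifs <;> omega

lemma not_proper_e (k : Fin n) (a : ℤ) : ¬ proper k (pos (a • e k)) := by
  rw [proper_pos_iff]
  rintro ⟨l, hl, h⟩
  simp [e_ne hl] at h

lemma Sys.Valid.der [Nontrivial (Fin n)] (k0 : Fin n) {ζ : Cfg n L} (h : S.Valid ζ) :
    S.Valid (der k0 ζ) := by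
  have wire : ∀ C k (a : ℤ), a = 1 ∨ a = 2 →
      S.Kind (pos (a • e k)) (Pool.Agent.MP_c4ca5b_lc.der k0 ζ C).1
        (ζ ((3 : ℤ) • C + offs ζ + a • e k)).2 := by
    intro C k a ha
    refine h.kind_der k0 C _ (bound_e k a (by omega)) ?_
    rw [pos_ne_zero_iff]; exact ⟨k, by simp; omega⟩
  have f1 : ∀ C k, (ζ ((3 : ℤ) • C + offs ζ)).2.fp k =
      (ζ ((3 : ℤ) • C + offs ζ + (1:ℤ) • e k)).2.fp k := by
    intro C k
    rw [((wire C k 1 (Or.inl rfl)).2 k (not_proper_e k 1)).1, h.face, one_smul]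
  constructor
  · intro C; exact h.k0 _
  · intro C k
    obtain ⟨l, hl⟩ := exists_ne k
    have h1 := h.kind_der k0 C (one + e k) (fun l => by
      simp only [Pi.add_apply, one, e_apply]; split_ifs <;> omega)
      (by rw [pos_ne_zero_iff]; exact ⟨k, by simp [one]⟩)
    have h2 := h.kind_der k0 (C + e k) (one - e k) (fun l => by
      simp only [Pi.sub_apply, one, e_apply]; split_ifs <;> omega)
      (by rw [pos_ne_zero_iff]; exact ⟨l, by simp [one, e_ne hl]⟩)
    have p1 : proper k (pos (one + e k)) := by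
      rw [proper_pos_iff]; exact ⟨l, hl, by simp [one, e_ne hl]⟩
    have p2 : proper k (pos (one - e k)) := by
      rw [proper_pos_iff]; exact ⟨l, hl, by simp [one, e_ne hl]⟩
    have a := (h1.1 k p1).2.2.2.2.2 (by rw [pos_two_iff]; simp [one])
    have b := (h2.1 k p2).2.2.2.1
    have c := h.face ((3 : ℤ) • C + offs ζ + (one + e k)) k
    rw [show (3 : ℤ) • C + offs ζ + (one + e k) + e k =
      (3 : ℤ) • (C + e k) + offs ζ + (one - e k) by
        funext i; simp only [Pi.add_apply, Pi.smul_apply, Pi.sub_apply, smul_eq_mul]; ring] at c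
    rw [c, b] at a
    exact a
  · intro C k
    show (ζ ((3 : ℤ) • C + offs ζ)).2.fp k = (ζ ((3 : ℤ) • (C + e k) + offs ζ)).2.fm k
    rw [f1, h.face]
    rw [show (3 : ℤ) • C + offs ζ + (1:ℤ) • e k + e k = (3 : ℤ) • C + offs ζ + (2:ℤ) • e k by
        funext i; simp only [Pi.add_apply, Pi.smul_apply, smul_eq_mul]; ring]
    rw [← ((wire C k 2 (Or.inr rfl)).2 k (not_proper_e k 2)).1, h.face]
    congr 3
    funext i; simp only [Pi.add_apply, Pi.smul_apply, smul_eq_mul]; ring
  · intro C k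
    show S.Chk k _ ((ζ ((3 : ℤ) • C + offs ζ)).2.fp k)
    rw [f1]
    exact ((wire C k 1 (Or.inl rfl)).2 k (not_proper_e k 1)).2

lemma ep_ne_ctr [Nontrivial (Fin n)] (k : Fin n) : ep k ≠ ctr := by
  obtain ⟨l, hl⟩ := exists_ne k
  intro h; have := congrFun h l; simp [ep, ctr, hl] at this

lemma zero_ne_ctr [Nontrivial (Fin n)] (k : Fin n) : (0 : Pos n) ≠ ctr := by
  intro h; have := congrFun h k; simp [ctr] at this

lemma Sys.Valid.pc [Nontrivial (Fin n)] (k0 : Fin n) {ζ : Cfg n L} (h : S.Valid ζ) (c : Z n) :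
    S.PC (ζ c).1 (Pool.Agent.MP_c4ca5b_lc.der k0 ζ (par (c - offs ζ))).1.lam := by
  have main : ∀ c, (ζ c).1.ps ≠ 0 →
      S.PC (ζ c).1 (Pool.Agent.MP_c4ca5b_lc.der k0 ζ (par (c - offs ζ))).1.lam := by
    intro c hc
    let y : Z n := fun k => (c k - offs ζ k) % 3
    have hcy : (3 : ℤ) • par (c - offs ζ) + offs ζ + y = c := by
      funext k; simp only [Pi.add_apply, Pi.smul_apply, smul_eq_mul, par, y, Pi.sub_apply]; omega
    have hp : (ζ c).1.ps = pos y := by
      conv_lhs => rw [← hcy]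
      rw [h.ps_eq, pos_tri]
    have hK := h.kind_der k0 (par (c - offs ζ)) y (fun k => by simp only [y]; omega) (hp ▸ hc)
    rw [hcy, ← hp] at hK
    obtain ⟨k, hk⟩ := exists_proper hc
    have := (h.chk c k hk).2
    rwa [(hK.1 k hk).2.1] at this
  by_cases hc : (ζ c).1.ps = 0
  · have r := h.rel c k0
    have hns : ¬ S.sp (ζ c).1.lam := fun hs => zero_ne_ctr k0 (hc ▸ r.2.2.2.1 hs)
    have hp' : (ζ (c + e k0)).1.ps = ep k0 := by rw [r.1, hc, zero_add]
    have hns' : ¬ S.sp (ζ (c + e k0)).1.lam := fun hs =>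
      ep_ne_ctr k0 (hp' ▸ (h.rel (c + e k0) k0).2.2.2.1 hs)
    have h1 := (main (c + e k0) (by rw [hp']; exact ep_ne_zero k0)).2 hns'
    have h2 := r.2.1 (by rw [hc]; show (0 : ZMod 3) ≠ 2; decide) hns hns'
    refine ⟨fun hs => absurd hs hns, fun _ => ?_⟩
    rw [h2, h1, show c + e k0 - offs ζ = c - offs ζ + e k0 by abel, par_add_e_of_ne]
    rw [← h.ps_eq, hc]; show (0 : ZMod 3) ≠ 2; decide
  · exact main c hc

lemma Sys.Valid.lift {α : Type} (F : Filter α) (k0 : Fin n) {ζ : Cfg n L} (h : S.Valid ζ)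
    (τ : α → Z n) (hτ : ∀ c, ∀ᶠ v in F, ζ (c + τ v) = ζ c) :
    ∃ τ' : α → Z n, (∀ᶠ v in F, τ v = (3 : ℤ) • τ' v) ∧
      ∀ C, ∀ᶠ v in F, Pool.Agent.MP_c4ca5b_lc.der k0 ζ (C + τ' v) =
        Pool.Agent.MP_c4ca5b_lc.der k0 ζ C := by
  have h3 : ∀ᶠ v in F, τ v = (3 : ℤ) • par (τ v) := by
    filter_upwards [hτ (offs ζ)] with v hv
    have h1 := h.ps_eq (offs ζ + τ v)
    rw [hv, h.ps_eq] at h1
    funext k
    have h2 := congrFun h1 k
    simp only [sub_self, add_sub_cancel_left] at h2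
    have h4 : pos (0 : Z n) k = 0 := by simp [pos]
    rw [h4, eq_comm, pos_zero_iff] at h2
    simp only [Pi.smul_apply, smul_eq_mul, par]; omega
  refine ⟨fun v => par (τ v), h3, fun C => ?_⟩
  filter_upwards [h3, hτ ((3 : ℤ) • C + offs ζ + one), hτ ((3 : ℤ) • C + offs ζ)] with v h1 h2 h4
  unfold Pool.Agent.MP_c4ca5b_lc.der
  rw [smul_add, ← h1, ← h2, ← h4]
  congr 1
  · congr 4; abel
  · congr 2; abel

/-! ### Standard pyramids -/

def Sub (K j : ℕ) (C : Z n) : Prop := j ≤ K ∧ anc (K - j) C = 0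

lemma sub_iff {K j : ℕ} {C : Z n} :
    Sub K j C ↔ j ≤ K ∧ ∀ k, 0 ≤ C k ∧ C k < 3 ^ (K - j) := by
  unfold Sub; rw [anc_eq_iff]; simp

lemma Sub.par {K j : ℕ} {C : Z n} (h : Sub K j C) (hj : j < K) : Sub K (j + 1) (par C) := by
  refine ⟨hj, ?_⟩
  rw [← anc_succ', show K - (j + 1) + 1 = K - j by omega]; exact h.2

lemma Sub.root {K : ℕ} {C : Z n} (h : Sub K K C) : C = 0 := by
  have := h.2; simpa using this

lemma sub_root (K : ℕ) : Sub K K (0 : Z n) := ⟨le_rfl, by simp⟩

structure Sys.Pyr (S : Sys n L) (K : ℕ) (lam : ℕ → Z n → L) : Prop where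
  sr : ∀ j C, Sub K j C → S.SR (lam j C)
  spc : ∀ j C, j < K → Sub K j C → S.sp (lam j C) →
    pos C = ctr ∧ S.PS (lam (j + 1) (par C))
  vr : ∀ j C, j < K → Sub K j C → ¬ S.sp (lam j C) →
    S.VR (pos C) (lam j C) (lam (j + 1) (par C))
  hr : ∀ j C k, j < K → Sub K j C → Sub K j (C + e k) → ¬ S.sp (lam j C) →
    S.HR k (pos C) (lam j C) (lam j (C + e k)) (lam (j + 1) (par C))

open Classical in
noncomputable def Sys.mk' (S : Sys n L) [Inhabited L] (lam : ℕ → Z n → L) (j : ℕ) (C : Z n) :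
    Mk n L :=
  ⟨if S.sp (lam j C) then ctr else pos C, lam j C,
    if S.sp (lam j C) then default else lam (j + 1) (par C)⟩

open Classical in
noncomputable def Sys.face (S : Sys n L) [Inhabited L] (lam : ℕ → Z n → L) (k : Fin n)
    (j : ℕ) (C : Z n) : Face n L :=
  if h1 : proper k (pos C) then
    ⟨pos C, S.mk' lam (j + 1) (par C), S.mk' lam (j + 1) (par (C + e k))⟩
  else if h2 : ∃ l, l ≠ k ∧ C l ≠ 0 then S.face lam k (j + 1) (par C) else default
termination_by ∑ l ∈ univ.erase k, (C l).natAbs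
decreasing_by
  rw [proper_pos_iff] at h1
  push Not at h1
  obtain ⟨l, hl, hl0⟩ := h2
  refine Finset.sum_lt_sum (fun i hi => ?_) ⟨l, by simp [hl], ?_⟩
  · have := h1 i (Finset.ne_of_mem_erase hi)
    simp only [par]; omega
  · have := h1 l hl
    simp only [par]; omega

variable [Inhabited L]

lemma Sys.face_proper (lam : ℕ → Z n → L) {k : Fin n} (j : ℕ) {C : Z n} (h : proper k (pos C)) :
    S.face lam k j C =
      ⟨pos C, S.mk' lam (j + 1) (par C), S.mk' lam (j + 1) (par (C + e k))⟩ := by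
  rw [Sys.face, dif_pos h]

lemma Sys.face_not (lam : ℕ → Z n → L) {k : Fin n} (j : ℕ) {C : Z n} (h : ¬ proper k (pos C)) :
    S.face lam k j C = S.face lam k (j + 1) (par C) := by
  rw [Sys.face, dif_neg h]
  split_ifs with h2
  · rfl
  · push Not at h2
    have h3 : ∀ l, l ≠ k → par C l = 0 := fun l hl => by simp [par, h2 l hl]
    rw [Sys.face, dif_neg, dif_neg]
    · rintro ⟨l, hl, h4⟩; exact h4 (h3 l hl)
    · rw [proper_pos_iff]; rintro ⟨l, hl, h4⟩; rw [h3 l hl] at h4; simp at h4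

noncomputable def Sys.enc (S : Sys n L) (lam : ℕ → Z n → L) (j : ℕ) (C : Z n) :
    Mk n L × Pay n L :=
  (S.mk' lam j C, ⟨fun k => S.face lam k j C, fun k => S.face lam k j (C - e k)⟩)

def InZ (K j : ℕ) (C : Z n) : Prop := j < K ∧ anc (K - 1 - j) C = one

lemma inZ_iff {K j : ℕ} {C : Z n} :
    InZ K j C ↔ j < K ∧ ∀ k, 3 ^ (K - 1 - j) ≤ C k ∧ C k < 2 * 3 ^ (K - 1 - j) := by
  unfold InZ; rw [anc_eq_iff]; simp only [one, mul_one, two_mul]

lemma InZ.par {K j : ℕ} {C : Z n} (h : InZ K j C) (hj : j + 1 < K) : InZ K (j + 1) (par C) := by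
  refine ⟨hj, ?_⟩
  rw [← anc_succ', show K - 1 - (j + 1) + 1 = K - 1 - j by omega]; exact h.2

lemma InZ.sub_near {K j : ℕ} {C D : Z n} (h : InZ K j C) (hD : nb (D - C) 1) : Sub K j D := by
  rw [inZ_iff] at h; rw [sub_iff]
  refine ⟨h.1.le, fun k => ?_⟩
  have h1 := h.2 k
  have h2 := hD k
  have h3 : (3:ℤ) ^ (K - j) = 3 * 3 ^ (K - 1 - j) := by
    rw [show K - j = K - 1 - j + 1 by have := h.1; omega, pow_succ']
  have h4 : (0:ℤ) < 3 ^ (K - 1 - j) := by positivity
  rw [Pi.sub_apply, abs_le] at h2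
  constructor <;> linarith [h1.1, h1.2, h2.1, h2.2]

lemma InZ.sub {K j : ℕ} {C : Z n} (h : InZ K j C) : Sub K j C :=
  h.sub_near (by rw [sub_self]; exact nb_zero zero_le_one)

lemma InZ.sub_add {K j : ℕ} {C : Z n} (h : InZ K j C) (k : Fin n) : Sub K j (C + e k) :=
  h.sub_near (by rw [add_sub_cancel_left]; exact nb_e k)

lemma InZ.sub_sub {K j : ℕ} {C : Z n} (h : InZ K j C) (k : Fin n) : Sub K j (C - e k) :=
  h.sub_near (by rw [sub_sub_cancel_left]; exact (nb_e k).neg)

lemma InZ.top {K j : ℕ} {C : Z n} (h : InZ K j C) (hj : ¬ j + 1 < K) : C = one := by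
  have h1 := h.2
  rw [show K - 1 - j = 0 by have := h.1; omega] at h1
  simpa using h1

lemma Sys.Pyr.mk_ps {K : ℕ} {lam : ℕ → Z n → L} (h : S.Pyr K lam) {j : ℕ} {C : Z n} (hj : j < K)
    (hC : Sub K j C) : (S.mk' lam j C).ps = pos C := by
  unfold Sys.mk'
  by_cases hs : S.sp (lam j C)
  · simp [hs, (h.spc j C hj hC hs).1]
  · simp [hs]

lemma Sys.Pyr.rel {K : ℕ} {lam : ℕ → Z n → L} (h : S.Pyr K lam) {j : ℕ} {C : Z n} {k : Fin n}
    (hj : j < K) (hC : Sub K j C) (hC' : Sub K j (C + e k)) :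
    S.Rel k (S.mk' lam j C) (S.mk' lam j (C + e k)) := by
  refine ⟨?_, ?_, h.sr j C hC, ?_, ?_⟩
  · rw [h.mk_ps hj hC, h.mk_ps hj hC', pos_add_e]
  · rw [h.mk_ps hj hC]
    intro h2 h3 h4
    simp only [Sys.mk'] at h3 h4 ⊢
    rw [if_neg h3, if_neg h4, par_add_e_of_ne h2]
  · intro hs
    rw [h.mk_ps hj hC]; exact (h.spc j C hj hC hs).1
  · intro hs
    rw [h.mk_ps hj hC]
    simp only [Sys.mk'] at hs ⊢
    rw [if_neg hs]
    exact ⟨h.vr j C hj hC hs, h.hr j C k hj hC hC' hs⟩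

lemma Sys.Pyr.chk {K : ℕ} {lam : ℕ → Z n → L} (h : S.Pyr K lam) {j : ℕ} {C : Z n} (k : Fin n)
    (hj : j < K) (hC : Sub K j C) : S.Chk k (S.mk' lam j C) (S.face lam k j C) := by
  intro hp
  rw [h.mk_ps hj hC] at hp ⊢
  rw [S.face_proper lam j hp]
  refine ⟨rfl, fun hs => (h.spc j C hj hC hs).2, fun hs => ?_⟩
  simp only [Sys.mk'] at hs ⊢
  rw [if_neg hs]

lemma proper_one [Nontrivial (Fin n)] (k : Fin n) : proper k (pos (one : Z n)) := by
  obtain ⟨l, hl⟩ := exists_ne k
  rw [proper_pos_iff]; exact ⟨l, hl, by simp [one]⟩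

lemma proper_sub_e (k : Fin n) (C : Z n) : proper k (pos (C - e k)) ↔ proper k (pos C) := by
  rw [← proper_add, ← pos_add_e, sub_add_cancel]

lemma Sys.Pyr.k0 [Nontrivial (Fin n)] {K : ℕ} {lam : ℕ → Z n → L} (h : S.Pyr K lam) :
    ∀ (d j : ℕ) (C : Z n), j + d = K → InZ K j C → S.K0 (S.enc lam j C).2 := by
  intro d
  induction d with
  | zero => intro j C hj hC; have := hC.1; omega
  | succ d ih =>
    intro j C hj hC
    by_cases hp : pos C = 0
    · have hj1 : j + 1 < K := by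
        by_contra hn
        obtain ⟨k, -⟩ := exists_pair_ne (Fin n)
        obtain ⟨l, -, hl⟩ := proper_one k
        rw [← hC.top hn, hp] at hl
        exact hl rfl
      have := ih (j + 1) (par C) (by omega) (hC.par hj1)
      have hnp : ∀ k, ¬ proper k (pos C) := by
        rintro k ⟨l, -, hl⟩; rw [hp] at hl; exact hl rfl
      convert this using 1
      simp only [Sys.enc]
      congr 1
      · funext k; exact S.face_not lam j (hnp k)
      · funext k
        rw [S.face_not lam j (by rw [proper_sub_e]; exact hnp k)]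
        congr 1
        have h2 : pos (C - e k) k = 2 := by
          have := (pos_zero_iff C k).1 (by rw [hp]; rfl)
          rw [pos_two_iff]; simp; omega
        have := par_add_e_of_eq h2
        rw [sub_add_cancel] at this
        rw [this]; simp
    · refine ⟨pos C, S.mk' lam (j + 1) (par C), hp, fun k hk => ?_, fun k hk => ?_⟩
      · simp only [Sys.enc]
        rw [S.face_proper lam j hk, S.face_proper lam j ((proper_sub_e k C).2 hk)]
        refine ⟨rfl, rfl, by simp only; rw [← pos_add_e, sub_add_cancel], by simp, fun h2 => ?_,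
          fun h2 => ?_⟩
        · simp only; rw [par_add_e_of_ne h2]
        · simp only; rw [par_add_e_of_eq h2]
          have hj1 : j + 1 < K := by
            by_contra hn
            rw [hC.top hn, pos_two_iff] at h2
            simp [one] at h2
          exact h.rel hj1 (hC.par hj1).sub ((hC.par hj1).sub_add k)
      · simp only [Sys.enc]
        have hj1 : j + 1 < K := by
          by_contra hn
          rw [hC.top hn] at hk
          exact hk (proper_one k)
        rw [S.face_not lam j hk, S.face_not lam j (by rw [proper_sub_e]; exact hk)]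
        refine ⟨?_, h.chk k hj1 (hC.par hj1).sub⟩
        congr 1
        have h2 : pos (C - e k) k ≠ 2 := by
          have h3 : pos C k ≠ 0 := by
            intro h3; apply hp; funext l
            by_cases hl : l = k
            · rw [hl]; exact h3
            · by_contra h4; exact hk ⟨l, hl, h4⟩
          rw [Ne, pos_zero_iff] at h3
          rw [Ne, pos_two_iff]; simp; omega
        have := par_add_e_of_ne h2
        rwa [sub_add_cancel] at this

section Translate

variable {K : ℕ} {lam lam' : ℕ → Z n → L} {q : Z n}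

lemma pow_smul_succ {K j : ℕ} (hj : j < K) (q : Z n) :
    ((3:ℤ) ^ (K - j)) • q = (3:ℤ) • (((3:ℤ) ^ (K - (j + 1))) • q) := by
  rw [smul_smul, show K - j = K - (j + 1) + 1 by omega, pow_succ']

lemma Sys.mk'_translate
    (h : ∀ j C, Sub K j C → lam' j (C + ((3:ℤ) ^ (K - j)) • q) = lam j C)
    (hs : S.sp (lam K 0)) {j : ℕ} {C : Z n} (hC : Sub K j C) :
    S.mk' lam' j (C + ((3:ℤ) ^ (K - j)) • q) = S.mk' lam j C := by
  unfold Sys.mk'
  rw [h j C hC]
  by_cases hsp : S.sp (lam j C)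
  · simp [hsp]
  · have hj : j < K := by
      rcases hC.1.lt_or_eq with h1 | h1
      · exact h1
      · subst h1; rw [hC.root] at hsp; exact absurd hs hsp
    simp only [hsp, if_false]
    rw [pow_smul_succ hj, pos_add_smul, par_add_smul, h _ _ (hC.par hj)]

lemma Sys.face_translate [Nontrivial (Fin n)]
    (h : ∀ j C, Sub K j C → lam' j (C + ((3:ℤ) ^ (K - j)) • q) = lam j C)
    (hs : S.sp (lam K 0)) (k : Fin n) :
    ∀ (d j : ℕ) (C : Z n), j + d = K → (InZ K j C ∨ InZ K j (C + e k)) →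
      S.face lam' k j (C + ((3:ℤ) ^ (K - j)) • q) = S.face lam k j C := by
  intro d
  induction d with
  | zero => intro j C hj hC; rcases hC with hC | hC <;> (have := hC.1; omega)
  | succ d ih =>
    intro j C hj hC
    have hjK : j < K := by omega
    have hs1 : Sub K j C := by
      rcases hC with hC | hC
      · exact hC.sub
      · simpa using hC.sub_sub k
    have hs2 : Sub K j (C + e k) := by
      rcases hC with hC | hC
      · exact hC.sub_add k
      · exact hC.sub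
    have hpos : pos (C + ((3:ℤ) ^ (K - j)) • q) = pos C := by
      rw [pow_smul_succ hjK, pos_add_smul]
    by_cases hp : proper k (pos C)
    · rw [S.face_proper lam j hp, S.face_proper lam' j (hpos ▸ hp), hpos]
      rw [show C + ((3:ℤ) ^ (K - j)) • q + e k = C + e k + ((3:ℤ) ^ (K - j)) • q by abel]
      rw [pow_smul_succ hjK, par_add_smul, par_add_smul,
        S.mk'_translate h hs (hs1.par hjK), S.mk'_translate h hs (hs2.par hjK)]
    · rw [S.face_not lam j hp, S.face_not lam' j (hpos ▸ hp), pow_smul_succ hjK, par_add_smul]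
      have hj1 : j + 1 < K := by
        by_contra hn
        rcases hC with hC | hC
        · rw [hC.top hn] at hp; exact hp (proper_one k)
        · have := hC.top hn
          rw [← proper_add, ← pos_add_e, this] at hp; exact hp (proper_one k)
      refine ih (j + 1) (par C) (by omega) ?_
      rcases hC with hC | hC
      · exact Or.inl (hC.par hj1)
      · have := hC.par hj1
        by_cases h2 : pos C k = 2
        · rw [par_add_e_of_eq h2] at this; exact Or.inr this
        · rw [par_add_e_of_ne h2] at this; exact Or.inl this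

lemma Sys.enc_translate [Nontrivial (Fin n)]
    (h : ∀ j C, Sub K j C → lam' j (C + ((3:ℤ) ^ (K - j)) • q) = lam j C)
    (hs : S.sp (lam K 0)) {C : Z n} (hC : InZ K 0 C) :
    S.enc lam' 0 (C + ((3:ℤ) ^ K) • q) = S.enc lam 0 C := by
  unfold Sys.enc
  have h1 := S.mk'_translate h hs hC.sub
  rw [Nat.sub_zero] at h1
  rw [h1]
  congr 2
  · funext k
    exact S.face_translate h hs k K 0 C (by omega) (Or.inl hC)
  · funext k
    rw [show C + ((3:ℤ) ^ K) • q - e k = C - e k + ((3:ℤ) ^ K) • q by abel]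
    exact S.face_translate h hs k K 0 (C - e k) (by omega) (Or.inr (by simpa using hC))

end Translate

end Pool.Agent.MP_c4ca5b_lc

end

section

namespace Pool.Agent.MP_c4ca5b_lc

open Finset

variable {n : ℕ}

def Bd (n : ℕ) : ℤ := 3 * Mc n + C1 n + 7

lemma Bd_ge (n : ℕ) : Rw n ≤ Bd n := by
  unfold Rw Bd; have := Mc_pos n; omega

lemma Bd_pos (n : ℕ) : 0 ≤ Bd n := le_trans (by have := Rw_pos n; omega) (Bd_ge n)

abbrev Bx (n : ℕ) := {v : Z n // nb v (Bd n)}

instance : Finite (Bx n) := (finite_nb (Bd n)).to_subtype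

instance : Inhabited (Bx n) := ⟨⟨0, nb_zero (Bd_pos n)⟩⟩

open Classical in
noncomputable def clamp (v : Z n) : Bx n := if h : nb v (Bd n) then ⟨v, h⟩ else default

lemma clamp_val {v : Z n} (h : nb v (Bd n)) : (clamp v).1 = v := by
  unfold clamp; rw [dif_pos h]

structure Lam (n : ℕ) : Type where
  sp : Prop
  hi : Prop
  top : Prop
  G : Prop
  W : Prop
  cin : Prop
  done : Prop
  g : Prop
  st : Prop
  Fm : Fin n → Prop
  Fp : Fin n → Prop
  d : Bx n
  inc : Fin n → Bx n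
  s : Fin (6 ^ n)
  ptr : Option (Fin n)
  ch : Pos n

instance : Finite (Lam n) :=
  Finite.of_injective (fun m : Lam n => (m.sp, m.hi, m.top, m.G, m.W, m.cin, m.done, m.g, m.st,
    m.Fm, m.Fp, m.d, m.inc, m.s, m.ptr, m.ch)) (by
    rintro ⟨⟩ ⟨⟩ h; simp only [Prod.mk.injEq] at h; simp only [Lam.mk.injEq]; exact h)

instance : Inhabited (Lam n) :=
  ⟨⟨True, True, True, True, True, True, True, True, True, fun _ => True, fun _ => True,
    default, fun _ => default, ⟨0, by positivity⟩, none, 0⟩⟩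

def emb (s : Fin (6 ^ n)) : Z n := fun k => ((finFunctionFinEquiv.symm s k : Fin 6) : ℕ)

open Classical in
def sys (k0 : Fin n) : Sys n (Lam n) where
  sp l := l.sp
  SR l := (l.sp → l.hi ∧ ∀ k, l.Fm k ∧ l.Fp k) ∧ (l.top → l.G) ∧ (¬ l.hi → l.Fm k0 → l.s.val = 0) ∧
    (l.top → l.Fm k0 → ¬ l.done) ∧ (l.top → l.Fp k0 → l.done ∨ l.cin) ∧
    (l.top → l.W → (∀ k, k ≠ k0 → l.Fm k) → l.g) ∧
    (l.g → (l.ptr = none ∧ l.st) ∨ ∃ k, k ≠ k0 ∧ l.ptr = some k ∧ ¬ l.Fp k)
  VR π l m := (∀ k, (l.Fm k ↔ m.Fm k ∧ π k = 0) ∧ (l.Fp k ↔ m.Fp k ∧ π k = 2)) ∧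
    (l.hi → m.hi) ∧ (m.hi → ¬ l.hi → m.top) ∧
    (¬ l.hi → (l.G ↔ m.G ∧ π k0 = 2) ∧ (l.W ↔ m.W) ∧ (m.cin ↔ l.cin ∧ l.s.val + 1 = 6 ^ n) ∧
      (l.st ↔ m.st ∧ m.ch = π) ∧ (l.st → l.d.1 = emb l.s))
  PS m := ¬ m.hi ∧ ¬ (m.st ∧ m.ch = ctr)
  HR k π l l' m := ¬ l.Fp k → ¬ l'.Fm k → (l.hi ↔ l'.hi) ∧
    ((l.inc k).1 = l'.d.1 - l.d.1 + (if π k = 2 then (6 : ℤ) • (m.inc k).1 else 0)) ∧
    (¬ l.hi → l'.s.val = if k = k0 ∧ l.G ∧ l.cin then (l.s.val + 1) % 6 ^ n else l.s.val) ∧
    (l.top → k = k0 → (l'.done ↔ l.done ∨ l.cin)) ∧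
    (l.g → l.ptr = some k → l'.g)

structure Base (K : ℕ) (lam : ℕ → Z n → Lam n) (x : Z n → Z n) : Prop where
  low : ∀ c, Sub K 0 c → ¬ (lam 0 c).hi ∧ ((lam 0 c).cin ↔ (lam 0 c).W)
  inc : ∀ c k, Sub K 0 c → Sub K 0 (c + e k) → ¬ (lam 0 c).Fp k → ¬ (lam 0 (c + e k)).Fm k →
    ((lam 0 c).inc k).1 = x (c + e k) - x c

/-! ### The carpet lemma -/

def Fr (T : ℕ → Z n → Prop) (h : ℕ) (C : Z n) : Prop := ∀ i, i < h → ¬ T i (anc i C)

lemma fr_of_dvd {T : ℕ → Z n → Prop} (hT : ∀ i D, T i D → pos D = ctr) {h : ℕ} {C : Z n}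
    {l : Fin n} (a : ℤ) (hl : C l = 3 ^ h * a) : Fr T h C := by
  intro i hi hT'
  have := (pos_eq_ctr_iff _).1 (hT _ _ hT') l
  simp only [anc] at this
  rw [hl, show h = i + (h - i - 1) + 1 by omega, pow_succ, pow_add, mul_assoc, mul_assoc,
    Int.mul_ediv_cancel_left _ (by positivity)] at this
  have h2 : 3 ^ (h - i - 1) * (3 * a) = 3 * (3 ^ (h - i - 1) * a) := by ring
  omega

lemma anc_smul (h : ℕ) (A : Z n) : anc h (((3:ℤ) ^ h) • A) = A := by
  have := anc_add_smul h 0 A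
  rw [zero_add] at this
  rw [this]; funext k; simp [anc]

lemma anc_smul_sub (h : ℕ) (A : Z n) (k : Fin n) :
    anc h (((3:ℤ) ^ h) • (A + e k) - e k) = A := by
  rw [anc_eq_iff]
  intro l
  have : (0:ℤ) < 3 ^ h := by positivity
  simp only [Pi.sub_apply, Pi.smul_apply, Pi.add_apply, smul_eq_mul, e_apply]
  split_ifs <;> constructor <;> linarith

lemma carpet [Nontrivial (Fin n)] {α : Type} {T : ℕ → Z n → Prop}
    (hT : ∀ i D, T i D → pos D = ctr) (F : Z n → α) :
    ∀ (h : ℕ) (A : Z n), (∀ C k, anc h C = A → anc h (C + e k) = A → Fr T h C →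
      Fr T h (C + e k) → F C = F (C + e k)) →
      ∀ C, anc h C = A → Fr T h C → F C = F (((3:ℤ) ^ h) • A) := by
  intro h
  induction h with
  | zero => intro A _ C hC _; rw [anc_zero] at hC; simp [hC]
  | succ h ih =>
    intro A H
    have up : ∀ C A', anc h C = A' → ¬ T h A' → Fr T h C → Fr T (h + 1) C := by
      intro C A' h1 h2 h3 i hi
      rcases Nat.lt_succ_iff_lt_or_eq.1 hi with hi | rfl
      · exact h3 i hi
      · rw [h1]; exact h2
    have inner : ∀ A', par A' = A → ¬ T h A' → ∀ C, anc h C = A' → Fr T h C →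
        F C = F (((3:ℤ) ^ h) • A') := by
      intro A' hA hT'
      refine ih A' fun C k h1 h2 h3 h4 => ?_
      exact H C k (by rw [anc_succ, h1, hA]) (by rw [anc_succ, h2, hA]) (up _ _ h1 hT' h3)
        (up _ _ h2 hT' h4)
    have link : ∀ A' k, par A' = A → par (A' + e k) = A → ¬ T h A' → ¬ T h (A' + e k) →
        F (((3:ℤ) ^ h) • A') = F (((3:ℤ) ^ h) • (A' + e k)) := by
      intro A' k h1 h2 h3 h4
      obtain ⟨l, hl⟩ := exists_ne k
      have f1 : Fr T h (((3:ℤ) ^ h) • (A' + e k) - e k) :=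
        fr_of_dvd hT (l := l) (A' l) (by simp [e_ne hl])
      have f2 : Fr T h (((3:ℤ) ^ h) • (A' + e k)) :=
        fr_of_dvd hT (l := l) (A' l) (by simp [e_ne hl])
      rw [← inner A' h1 h3 _ (anc_smul_sub h A' k) f1]
      have := H (((3:ℤ) ^ h) • (A' + e k) - e k) k (by rw [anc_succ, anc_smul_sub, h1])
        (by rw [sub_add_cancel, anc_succ, anc_smul, h2]) (up _ _ (anc_smul_sub h A' k) h3 f1)
        (by rw [sub_add_cancel]; exact up _ _ (anc_smul h _) h4 f2)
      rwa [sub_add_cancel] at this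
    have main : ∀ N, ∀ y : Z n, l1 y = N → (∀ k, 0 ≤ y k ∧ y k < 3) → ¬ T h ((3:ℤ) • A + y) →
        F (((3:ℤ) ^ h) • ((3:ℤ) • A + y)) = F (((3:ℤ) ^ h) • ((3:ℤ) • A)) := by
      intro N
      induction N with
      | zero =>
        intro y hN _ _
        have : y = 0 := by
          by_contra hne
          obtain ⟨k, ⟨y', -, h2⟩ | ⟨y', -, h2⟩⟩ := l1_step y hne <;> omega
        simp [this]
      | succ N ihN =>
        intro y hN hy hTy
        obtain ⟨k, hk, hk2⟩ : ∃ k, 0 < y k ∧ ¬ ∀ l, (y - e k) l = 1 := by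
          obtain ⟨k, hk⟩ : ∃ k, y k ≠ 0 := by
            by_contra h'; push Not at h'
            have : y = 0 := funext h'
            rw [this] at hN; simp [l1] at hN
          by_cases h1 : ∀ l, (y - e k) l = 1
          · obtain ⟨l, hl⟩ := exists_ne k
            have a := h1 l
            have b := h1 k
            simp only [Pi.sub_apply, e_ne hl, e_same] at a b
            refine ⟨l, by omega, fun h2 => ?_⟩
            have := h2 k
            simp only [Pi.sub_apply, e_ne hl.symm] at this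
            omega
          · exact ⟨k, by have := hy k; omega, h1⟩
        have hy' : ∀ l, 0 ≤ (y - e k) l ∧ (y - e k) l < 3 := fun l => by
          have := hy l
          rw [Pi.sub_apply, e_apply]; split_ifs with h
          · subst h; omega
          · omega
        have hpar : ∀ y : Z n, (∀ k, 0 ≤ y k ∧ y k < 3) → par ((3:ℤ) • A + y) = A := by
          intro y hy; funext l
          have := hy l
          simp only [par, Pi.add_apply, Pi.smul_apply, smul_eq_mul]; omega
        have hT2 : ¬ T h ((3:ℤ) • A + (y - e k)) := by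
          intro h3
          apply hk2
          intro l
          have a := (pos_eq_ctr_iff _).1 (hT _ _ h3) l
          have b := hy' l
          simp only [Pi.add_apply, Pi.smul_apply, smul_eq_mul] at a
          omega
        have hl : l1 (y - e k) = N := by
          unfold l1 at hN ⊢
          rw [← Finset.add_sum_erase _ _ (Finset.mem_univ k)] at hN ⊢
          have : ∑ x ∈ univ.erase k, ((y - e k : Z n) x).natAbs = ∑ x ∈ univ.erase k, (y x).natAbs :=
            Finset.sum_congr rfl (fun l hl => by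
              simp [e_ne (Finset.ne_of_mem_erase hl)])
          rw [this]; simp only [Pi.sub_apply, e_same]; omega
        rw [← ihN (y - e k) hl hy' hT2]
        have e1 : (3:ℤ) • A + (y - e k) + e k = (3:ℤ) • A + y := by abel
        have := link ((3:ℤ) • A + (y - e k)) k (hpar _ hy') (by rw [e1]; exact hpar _ hy) hT2
          (by rw [e1]; exact hTy)
        rw [this, e1]
    intro C hC hF
    have h1 : ¬ T h (anc h C) := hF h (Nat.lt_succ_self h)
    have h2 : par (anc h C) = A := by rw [← anc_succ, hC]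
    rw [inner _ h2 h1 C rfl (fun i hi => hF i (Nat.lt_succ_of_lt hi))]
    let y : Z n := fun k => anc h C k % 3
    have h3 : anc h C = (3:ℤ) • A + y := by
      funext k; rw [← h2]
      simp only [par, Pi.add_apply, Pi.smul_apply, smul_eq_mul, y]; omega
    rw [h3, main _ y rfl (fun k => by simp only [y]; omega) (h3 ▸ h1), smul_smul, pow_succ]

/-! ### Arithmetic -/

lemma counter_step (P : ℕ) (s s' : ℕ → ℕ) (W : Prop) [Decidable W] (c : ℕ → Prop)
    [DecidablePred c] (hs : ∀ j, s j < P) (hc0 : c 0 ↔ W)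
    (a : ℕ) (hc : ∀ j, j < a → (c (j + 1) ↔ c j ∧ s j + 1 = P))
    (hs' : ∀ j, j < a → s' j = if c j then (s j + 1) % P else s j) :
    ∑ j ∈ range a, s' j * P ^ j + (if c a then P ^ a else 0) =
      ∑ j ∈ range a, s j * P ^ j + (if W then 1 else 0) := by
  induction a with
  | zero => simp [hc0]
  | succ a ih =>
    have ih := ih (fun j hj => hc j (by omega)) (fun j hj => hs' j (by omega))
    rw [sum_range_succ, sum_range_succ, hs' a (by omega)]
    have h1 := hc a (by omega)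
    by_cases h2 : c a
    · by_cases h3 : s a + 1 = P
      · have : c (a + 1) := h1.2 ⟨h2, h3⟩
        simp only [h2, this, if_true] at ih ⊢
        rw [h3, Nat.mod_self, pow_succ]
        have : P ^ a * P = s a * P ^ a + P ^ a := by rw [← h3]; ring
        omega
      · have : ¬ c (a + 1) := fun h => h3 (h1.1 h).2
        simp only [h2, this, if_true, if_false] at ih ⊢
        rw [Nat.mod_eq_of_lt (by have := hs a; omega), add_mul]
        omega
    · have : ¬ c (a + 1) := fun h => h2 (h1.1 h).1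
      simp only [h2, this, if_false] at ih ⊢
      omega

lemma digits_lt (P : ℕ) (s : ℕ → ℕ) (hs : ∀ j, s j < P) (a : ℕ) :
    ∑ j ∈ range a, s j * P ^ j < P ^ a := by
  induction a with
  | zero => simp
  | succ a ih =>
    rw [sum_range_succ, pow_succ]
    have := hs a
    have h2 : (s a + 1) * P ^ a ≤ P * P ^ a := Nat.mul_le_mul_right _ this
    nlinarith

lemma digits_inj (P : ℕ) (s s' : ℕ → ℕ) (hs : ∀ j, s j < P) (hs' : ∀ j, s' j < P) (a : ℕ)
    (h : ∑ j ∈ range a, s j * P ^ j = ∑ j ∈ range a, s' j * P ^ j) : ∀ j, j < a → s j = s' j := by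
  induction a with
  | zero => simp
  | succ a ih =>
    rw [sum_range_succ, sum_range_succ] at h
    have h1 := digits_lt P s hs a
    have h2 := digits_lt P s' hs' a
    have h3 : s a = s' a := by
      rcases lt_trichotomy (s a) (s' a) with h4 | h4 | h4
      · have : (s a + 1) * P ^ a ≤ s' a * P ^ a := Nat.mul_le_mul_right _ h4
        rw [add_mul, one_mul] at this; omega
      · exact h4
      · have : (s' a + 1) * P ^ a ≤ s a * P ^ a := Nat.mul_le_mul_right _ h4
        rw [add_mul, one_mul] at this; omega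
    rw [h3] at h
    intro j hj
    rcases Nat.lt_succ_iff_lt_or_eq.1 hj with hj | rfl
    · exact ih (by omega) j hj
    · exact h3

lemma six_expand (r : ℤ) (a : ℕ) :
    ∑ j ∈ range a, 6 ^ j * (r / 6 ^ j % 6) = r - 6 ^ a * (r / 6 ^ a) := by
  induction a with
  | zero => simp
  | succ a ih =>
    rw [sum_range_succ, ih, pow_succ, ← Int.ediv_ediv_of_nonneg (by positivity)]
    have := Int.mul_ediv_add_emod (r / 6 ^ a) 6
    have h2 : r / 6 ^ a % 6 = r / 6 ^ a - 6 * (r / 6 ^ a / 6) := by linarith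
    rw [h2]; ring

/-- the digit vector of `r` at level `j` -/
def dig (r : Z n) (j : ℕ) : Fin (6 ^ n) :=
  finFunctionFinEquiv fun k => ⟨(r k / 6 ^ j % 6).toNat, by omega⟩

lemma emb_dig (r : Z n) (j : ℕ) (k : Fin n) : emb (dig r j) k = r k / 6 ^ j % 6 := by
  simp only [emb, dig, Equiv.symm_apply_apply]
  omega

lemma emb_bound (s : Fin (6 ^ n)) (k : Fin n) : 0 ≤ emb s k ∧ emb s k < 6 := by
  have := (finFunctionFinEquiv.symm s k).2
  simp only [emb]; omega

end Pool.Agent.MP_c4ca5b_lc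

end

section

set_option linter.unusedSectionVars false

namespace Pool.Agent.MP_c4ca5b_lc

open Finset

variable {n : ℕ}

def Tj (lam : ℕ → Z n → Lam n) (j : ℕ) : ℕ → Z n → Prop :=
  fun i D => (lam (j + i) D).sp ∧ pos D = ctr

def Free (K : ℕ) (lam : ℕ → Z n → Lam n) (j : ℕ) (C : Z n) : Prop := Fr (Tj lam j) (K - j) C

lemma Tj_ctr (lam : ℕ → Z n → Lam n) (j : ℕ) : ∀ i D, Tj lam j i D → pos D = ctr :=
  fun _ _ h => h.2

variable {K : ℕ} {lam : ℕ → Z n → Lam n} {x : Z n → Z n} {k0 : Fin n}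

lemma Free.par {j : ℕ} {C : Z n} (h : Free K lam j C) : Free K lam (j + 1) (par C) := by
  intro i hi hT
  refine h (i + 1) (by omega) ?_
  rw [anc_succ']
  unfold Tj at hT ⊢
  rwa [show j + (i + 1) = j + 1 + i by omega]

lemma Free.anc {j : ℕ} {C : Z n} (h : Free K lam j C) (i : ℕ) : Free K lam (j + i) (anc i C) := by
  induction i with
  | zero => simpa using h
  | succ i ih => rw [anc_succ]; exact ih.par

lemma free_split {j h : ℕ} {C : Z n} (h1 : Fr (Tj lam j) h C)
    (h2 : Free K lam (j + h) (anc h C)) : Free K lam j C := by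
  intro i hi hT
  rcases lt_or_ge i h with h3 | h3
  · exact h1 i h3 hT
  · obtain ⟨i', rfl⟩ := Nat.exists_eq_add_of_le h3
    refine h2 i' (by omega) ?_
    rw [← anc_add]
    unfold Tj at hT ⊢
    rwa [add_assoc]

lemma free_of {j : ℕ} {C : Z n} (h1 : ¬ (lam j C).sp) (h2 : Free K lam (j + 1) (par C)) :
    Free K lam j C := by
  refine free_split (h := 1) ?_ (by rw [anc_succ, anc_zero]; exact h2)
  intro i hi hT
  obtain rfl : i = 0 := by omega
  exact h1 (by simpa using hT.1)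

lemma Free.fr {j h : ℕ} {C : Z n} (h1 : Free K lam j C) (hh : j + h ≤ K) : Fr (Tj lam j) h C :=
  fun i hi => h1 i (by omega)

lemma free_root (C : Z n) : Free K lam K C := fun i hi => by omega

lemma Sub.anc {j : ℕ} {C : Z n} (h : Sub K j C) (i : ℕ) (hi : j + i ≤ K) :
    Sub K (j + i) (anc i C) := by
  refine ⟨hi, ?_⟩
  rw [← anc_add, show i + (K - (j + i)) = K - j by omega]; exact h.2

lemma sub_of_anc {j i : ℕ} {C : Z n} (h : Sub K (j + i) (anc i C)) : Sub K j C := by
  have h1 := h.1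
  refine ⟨by omega, ?_⟩
  rw [show K - j = i + (K - (j + i)) by omega, anc_add]; exact h.2

lemma Free.not_sp (hP : (sys k0).Pyr K lam) {j : ℕ} {C : Z n} (h : Free K lam j C) (hj : j < K)
    (hC : Sub K j C) : ¬ (lam j C).sp := by
  intro hs
  refine h 0 (by omega) ⟨by simpa using hs, ?_⟩
  rw [anc_zero]; exact (hP.spc j C hj hC hs).1

lemma down_ind {Q : ℕ → Z n → Prop} {a : ℕ} (ha : a ≤ K)
    (h0 : ∀ A, Sub K a A → Free K lam a A → Q a A)
    (hs : ∀ j C, j < a → Sub K j C → Free K lam j C → Q (j + 1) (par C) → Q j C) :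
    ∀ j C, j ≤ a → Sub K j C → Free K lam j C → Q j C := by
  have : ∀ d j C, j + d = a → Sub K j C → Free K lam j C → Q j C := by
    intro d
    induction d with
    | zero => intro j C hj; obtain rfl : j = a := hj; exact h0 C
    | succ d ih =>
      intro j C hj h1 h2
      exact hs j C (by omega) h1 h2 (ih (j + 1) _ (by omega) (h1.par (by omega)) h2.par)
  intro j C hj
  exact this (a - j) j C (by omega)

lemma pow_sub_succ {K j : ℕ} (hj : j < K) : (3:ℤ) ^ (K - j) = 3 * 3 ^ (K - (j + 1)) := by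
  rw [show K - j = K - (j + 1) + 1 by omega, pow_succ']

lemma flag_m (hP : (sys k0).Pyr K lam) (k : Fin n) :
    ∀ j C, j ≤ K → Sub K j C → Free K lam j C →
      ((lam j C).Fm k ↔ (lam K 0).Fm k ∧ C k = 0) := by
  refine down_ind le_rfl (fun A hA _ => by rw [hA.root]; simp) ?_
  intro j C hj hC hF ih
  rw [((hP.vr j C hj hC (hF.not_sp hP hj hC)).1 k).1, ih, pos_zero_iff]
  simp only [par]
  constructor
  · rintro ⟨⟨h1, h2⟩, h3⟩; exact ⟨h1, by omega⟩
  · rintro ⟨h1, h2⟩; exact ⟨⟨h1, by omega⟩, by omega⟩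

lemma flag_p (hP : (sys k0).Pyr K lam) (k : Fin n) :
    ∀ j C, j ≤ K → Sub K j C → Free K lam j C →
      ((lam j C).Fp k ↔ (lam K 0).Fp k ∧ C k + 1 = 3 ^ (K - j)) := by
  refine down_ind le_rfl (fun A hA _ => by rw [hA.root]; simp) ?_
  intro j C hj hC hF ih
  rw [((hP.vr j C hj hC (hF.not_sp hP hj hC)).1 k).2, ih, pos_two_iff, pow_sub_succ hj]
  simp only [par]
  constructor
  · rintro ⟨⟨h1, h2⟩, h3⟩; exact ⟨h1, by omega⟩
  · rintro ⟨h1, h2⟩; exact ⟨⟨h1, by omega⟩, by omega⟩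

lemma active (hP : (sys k0).Pyr K lam) {j : ℕ} {C : Z n} {k : Fin n} (hC : Sub K j C)
    (hC' : Sub K j (C + e k)) (hF : Free K lam j C) (hF' : Free K lam j (C + e k)) :
    ¬ (lam j C).Fp k ∧ ¬ (lam j (C + e k)).Fm k := by
  rw [flag_p hP k j C hC.1 hC hF, flag_m hP k j _ hC.1 hC' hF']
  have h1 := (sub_iff.1 hC).2 k
  have h2 := (sub_iff.1 hC').2 k
  simp only [Pi.add_apply, e_same] at h2 ⊢
  constructor <;> rintro ⟨-, h⟩ <;> omega

lemma lt_of_pair {j : ℕ} {C : Z n} {k : Fin n} (hC : Sub K j C) (hC' : Sub K j (C + e k)) :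
    j < K := by
  rcases hC.1.lt_or_eq with h | rfl
  · exact h
  · have h1 := congrFun hC'.root k
    rw [hC.root] at h1; simp at h1

open Classical in
lemma hrel (hP : (sys k0).Pyr K lam) {j : ℕ} {C : Z n} {k : Fin n} (hC : Sub K j C)
    (hC' : Sub K j (C + e k)) (hF : Free K lam j C) (hF' : Free K lam j (C + e k)) :
    ((lam j C).hi ↔ (lam j (C + e k)).hi) ∧
    (((lam j C).inc k).1 = (lam j (C + e k)).d.1 - (lam j C).d.1 +
      (if pos C k = 2 then (6 : ℤ) • ((lam (j + 1) (par C)).inc k).1 else 0)) ∧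
    (¬ (lam j C).hi → (lam j (C + e k)).s.val = if k = k0 ∧ (lam j C).G ∧ (lam j C).cin then
      ((lam j C).s.val + 1) % 6 ^ n else (lam j C).s.val) ∧
    ((lam j C).top → k = k0 → ((lam j (C + e k)).done ↔ (lam j C).done ∨ (lam j C).cin)) ∧
    ((lam j C).g → (lam j C).ptr = some k → (lam j (C + e k)).g) := by
  have hj := lt_of_pair hC hC'
  have ha := active hP hC hC' hF hF'
  exact hP.hr j C k hj hC hC' (hF.not_sp hP hj hC) ha.1 ha.2

def Hs (lam : ℕ → Z n → Lam n) (a : ℕ) (c : Z n) : Z n :=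
  ∑ j ∈ range a, ((6 : ℤ) ^ j) • (lam j (anc j c)).d.1

lemma tele (hP : (sys k0).Pyr K lam) (hB : Base K lam x) {c : Z n} {k : Fin n} (hC : Sub K 0 c)
    (hC' : Sub K 0 (c + e k)) (hF : Free K lam 0 c) (hF' : Free K lam 0 (c + e k)) :
    ∀ a, a ≤ K → (anc a (c + e k) = anc a c ∧
        x (c + e k) - x c = Hs lam a (c + e k) - Hs lam a c) ∨
      (anc a (c + e k) = anc a c + e k ∧ x (c + e k) - x c = Hs lam a (c + e k) - Hs lam a c +
        ((6 : ℤ) ^ a) • ((lam a (anc a c)).inc k).1) := by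
  intro a
  induction a with
  | zero =>
    intro _
    right
    have ha := active hP hC hC' hF hF'
    simp [Hs, hB.inc c k hC hC' ha.1 ha.2]
  | succ a ih =>
    intro ha
    rcases ih (by omega) with ⟨h1, h2⟩ | ⟨h1, h2⟩
    · left
      refine ⟨by rw [anc_succ, anc_succ, h1], ?_⟩
      simp only [Hs, sum_range_succ] at h2 ⊢
      rw [h2, h1]; abel
    · have s1 := hC.anc a (by omega)
      have s2 := hC'.anc a (by omega)
      have f1 := hF.anc a
      have f2 := hF'.anc a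
      rw [zero_add] at s1 s2 f1 f2
      rw [h1] at s2 f2
      have hr := (hrel hP s1 s2 f1 f2).2.1
      by_cases h3 : pos (anc a c) k = 2
      · right
        rw [if_pos h3] at hr
        refine ⟨by rw [anc_succ, anc_succ, h1, par_add_e_of_eq h3], ?_⟩
        simp only [Hs, sum_range_succ] at h2 ⊢
        rw [h2, h1, hr, anc_succ, pow_succ, mul_smul, smul_add, smul_sub]; abel
      · left
        rw [if_neg h3] at hr
        refine ⟨by rw [anc_succ, anc_succ, h1, par_add_e_of_ne h3], ?_⟩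
        simp only [Hs, sum_range_succ] at h2 ⊢
        rw [h2, h1, hr, add_zero, smul_sub]; abel

lemma rigid [Nontrivial (Fin n)] (hP : (sys k0).Pyr K lam) (hB : Base K lam x) {a : ℕ}
    (ha : a ≤ K) {c : Z n} (hC : Sub K 0 c) (hF : Free K lam 0 c) (k : Fin n) :
    (6 : ℤ) ^ a ∣ (x c - Hs lam a c) k - (x 0 - Hs lam a 0) k := by
  have := carpet (Tj_ctr lam 0) (fun c => fun k => (x c - Hs lam a c) k % 6 ^ a) K 0
    (fun C l h1 h2 h3 h4 => ?_) c (by simpa using hC.2) (by simpa [Free] using hF)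
  · have h1 := congrFun this k
    rw [smul_zero] at h1
    exact Int.ModEq.dvd h1.symm
  · have s1 : Sub K 0 C := ⟨by omega, by simpa using h1⟩
    have s2 : Sub K 0 (C + e l) := ⟨by omega, by simpa using h2⟩
    funext k
    rcases tele hP hB s1 s2 (by simpa [Free] using h3) (by simpa [Free] using h4) a ha with
      ⟨-, h5⟩ | ⟨-, h5⟩
    · have := congrFun h5 k
      simp only [Pi.sub_apply] at this ⊢
      congr 1; linarith
    · have := congrFun h5 k
      simp only [Pi.sub_apply, Pi.add_apply, Pi.smul_apply, smul_eq_mul] at this ⊢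
      rw [show x (C + e l) k - Hs lam a (C + e l) k = x C k - Hs lam a C k +
        6 ^ a * ((lam a (anc a C)).inc l).1 k by linarith, Int.add_mul_emod_self_left]

lemma sub_zero' {j : ℕ} (hj : j ≤ K) : Sub K j (0 : Z n) := by
  rw [sub_iff]; exact ⟨hj, fun k => ⟨le_rfl, by simp⟩⟩

lemma free_zero (k0 : Fin n) (j : ℕ) : Free K lam j (0 : Z n) :=
  fr_of_dvd (Tj_ctr lam j) (l := k0) 0 (by simp)

lemma par_zero : par (0 : Z n) = 0 := by funext k; simp [par]

lemma exists_level [Nontrivial (Fin n)] (hP : (sys k0).Pyr K lam) (hB : Base K lam x)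
    (hs : (lam K 0).sp) : ∃ a, 1 ≤ a ∧ a ≤ K ∧
      ∀ j C, Sub K j C → Free K lam j C → ((lam j C).hi ↔ a ≤ j) := by
  classical
  have hc : ∀ j C, Sub K j C → Free K lam j C → ((lam j C).hi ↔ (lam j 0).hi) := by
    intro j C hC hF
    have := carpet (Tj_ctr lam j) (fun C => (lam j C).hi) (K - j) 0 (fun C l h1 h2 h3 h4 =>
      propext (hrel hP ⟨hC.1, h1⟩ ⟨hC.1, h2⟩ h3 h4).1) C hC.2 hF
    rw [smul_zero] at this
    exact iff_of_eq this
  have hK : (lam K 0).hi := ((hP.sr K 0 (sub_root K)).1 hs).1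
  have hex : ∃ j, j ≤ K ∧ (lam j 0).hi := ⟨K, le_rfl, hK⟩
  have hmono : ∀ j, j < K → (lam j 0).hi → (lam (j + 1) 0).hi := by
    intro j hj h
    have := (hP.vr j 0 hj (sub_zero' hj.le) ((free_zero k0 j).not_sp hP hj (sub_zero' hj.le))).2.1 h
    rwa [par_zero] at this
  refine ⟨Nat.find hex, ?_, (Nat.find_spec hex).1, fun j C hC hF => ?_⟩
  · rw [Nat.one_le_iff_ne_zero]
    intro h0
    have := (Nat.find_spec hex).2
    rw [h0] at this
    exact (hB.low 0 (sub_zero' (by omega))).1 this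
  · rw [hc j C hC hF]
    refine ⟨fun h => Nat.find_min' hex ⟨hC.1, h⟩, fun h => ?_⟩
    have h1 := hC.1
    clear hC hF
    induction j, h using Nat.le_induction with
    | base => exact (Nat.find_spec hex).2
    | succ j _ ih => exact hmono j (by omega) (ih (by omega))

section Cover

variable [Nontrivial (Fin n)] (hP : (sys k0).Pyr K lam) (hB : Base K lam x) {a : ℕ} (ha1 : 1 ≤ a)
  (haK : a ≤ K) (hhi : ∀ j C, Sub K j C → Free K lam j C → ((lam j C).hi ↔ a ≤ j))
include hP hB ha1 haK hhi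

lemma free_high : ∀ j C, a ≤ j + 1 → Sub K j C → Free K lam j C := by
  have : ∀ d j C, j + d = K → a ≤ j + 1 → Sub K j C → Free K lam j C := by
    intro d
    induction d with
    | zero => intro j C hj _ _; obtain rfl : j = K := hj; exact free_root C
    | succ d ih =>
      intro j C hj h1 h2
      have hs := h2.par (by omega)
      have hf := ih (j + 1) _ (by omega) (by omega) hs
      refine free_of (fun hsp => ?_) hf
      exact (hP.spc j C (by omega) h2 hsp).2.1 ((hhi _ _ hs hf).2 h1)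
  intro j C h1 h2
  exact this (K - j) j C (by have := h2.1; omega) h1 h2

lemma corner_sub {j : ℕ} (hj : j ≤ a) {A : Z n} (hA : Sub K a A) :
    Sub K j (((3:ℤ) ^ (a - j)) • A) := by
  refine sub_of_anc (i := a - j) ?_
  rw [anc_smul, show j + (a - j) = a by omega]; exact hA

lemma free_of_fr {j : ℕ} (hj : j ≤ a) {C : Z n} (hC : Sub K j C) (hF : Fr (Tj lam j) (a - j) C) :
    Free K lam j C :=
  free_split hF (free_high hP hB ha1 haK hhi _ _ (by omega) (hC.anc _ (by omega)))

lemma corner_free {j : ℕ} (hj : j ≤ a) {A : Z n} (hA : Sub K a A) :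
    Free K lam j (((3:ℤ) ^ (a - j)) • A) :=
  free_of_fr hP hB ha1 haK hhi hj (corner_sub hP hB ha1 haK hhi hj hA)
    (fr_of_dvd (Tj_ctr lam j) (l := k0) (A k0) (by simp))

lemma par_corner {j : ℕ} (hj : j < a) (A : Z n) :
    par (((3:ℤ) ^ (a - j)) • A) = ((3:ℤ) ^ (a - (j + 1))) • A := by
  have := par_add_smul 0 (((3:ℤ) ^ (a - (j + 1))) • A)
  rw [zero_add, par_zero, zero_add] at this
  rw [pow_smul_succ hj, this]

lemma vrel {j : ℕ} (hj : j < a) {C : Z n} (hC : Sub K j C) (hF : Free K lam j C) :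
    ((lam j C).G ↔ (lam (j + 1) (par C)).G ∧ pos C k0 = 2) ∧
    ((lam j C).W ↔ (lam (j + 1) (par C)).W) ∧
    ((lam (j + 1) (par C)).cin ↔ (lam j C).cin ∧ (lam j C).s.val + 1 = 6 ^ n) ∧
    ((lam j C).st ↔ (lam (j + 1) (par C)).st ∧ (lam (j + 1) (par C)).ch = pos C) ∧
    ((lam j C).st → (lam j C).d.1 = emb (lam j C).s) :=
  (hP.vr j C (by omega) hC (hF.not_sp hP (by omega) hC)).2.2.2
    (by rw [hhi j C hC hF]; omega)

lemma top_of {A : Z n} (hA : Sub K a A) : (lam a A).top := by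
  have h1 := corner_sub hP hB ha1 haK hhi (j := a - 1) (by omega) hA
  have h2 := corner_free hP hB ha1 haK hhi (j := a - 1) (by omega) hA
  have h3 := (hP.vr (a - 1) _ (by omega) h1 (h2.not_sp hP (by omega) h1)).2.2.1
  rw [par_corner hP hB ha1 haK hhi (by omega), show a - 1 + 1 = a by omega, Nat.sub_self,
    pow_zero, one_smul] at h3
  refine h3 ((hhi _ _ hA (free_high hP hB ha1 haK hhi _ _ (by omega) hA)).2 le_rfl) ?_
  rw [hhi _ _ h1 h2]; omega

lemma G_iff : ∀ j C, j ≤ a → Sub K j C → Free K lam j C →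
    ((lam j C).G ↔ (3:ℤ) ^ (a - j) ∣ C k0 + 1) := by
  refine down_ind haK (fun A hA _ => ?_) ?_
  · simpa using (hP.sr a A hA).2.1 (top_of hP hB ha1 haK hhi hA)
  · intro j C hj hC hF ih
    rw [(vrel hP hB ha1 haK hhi hj hC hF).1, ih, pos_two_iff, pow_sub_succ hj]
    simp only [par]
    constructor
    · rintro ⟨⟨m, h1⟩, h2⟩
      exact ⟨m, by rw [mul_assoc]; omega⟩
    · rintro ⟨m, h1⟩
      rw [mul_assoc] at h1
      exact ⟨⟨m, by omega⟩, by omega⟩

lemma W_iff : ∀ j C, j ≤ a → Sub K j C → Free K lam j C →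
    ((lam j C).W ↔ (lam a (anc (a - j) C)).W) := by
  refine down_ind haK (fun A _ _ => by simp) ?_
  intro j C hj hC hF ih
  rw [(vrel hP hB ha1 haK hhi hj hC hF).2.1, ih, ← anc_succ',
    show a - (j + 1) + 1 = a - j by omega]

open Classical in
lemma s_const {j : ℕ} (hj : j < a) {C : Z n} (hC : Sub K j C) (hF : Free K lam j C) :
    (lam j C).s = (lam j (((3:ℤ) ^ (a - j)) • anc (a - j) C)).s := by
  have hA : Sub K a (anc (a - j) C) := by
    have := hC.anc (a - j) (by omega)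
    rwa [show j + (a - j) = a by omega] at this
  refine carpet (Tj_ctr lam j) (fun C => (lam j C).s) (a - j) _ (fun D k h1 h2 h3 h4 => ?_) C rfl
    (hF.fr (by omega))
  have s1 : Sub K j D := sub_of_anc (i := a - j) (by
    rw [h1, show j + (a - j) = a by omega]; exact hA)
  have s2 : Sub K j (D + e k) := sub_of_anc (i := a - j) (by
    rw [h2, show j + (a - j) = a by omega]; exact hA)
  have f1 := free_of_fr hP hB ha1 haK hhi hj.le s1 h3
  have f2 := free_of_fr hP hB ha1 haK hhi hj.le s2 h4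
  have h5 := (hrel hP s1 s2 f1 f2).2.2.1 (by rw [hhi _ _ s1 f1]; omega)
  rw [if_neg] at h5
  · exact (Fin.ext h5).symm
  · rintro ⟨rfl, h6, -⟩
    rw [G_iff hP hB ha1 haK hhi j D hj.le s1 f1] at h6
    obtain ⟨m, hm⟩ := h6
    have b1 := ((anc_eq_iff _ _ _).1 h1) k
    have b2 := ((anc_eq_iff _ _ _).1 h2) k
    simp only [Pi.add_apply, e_same] at b2
    rw [hm] at b2
    have hp : (0:ℤ) < 3 ^ (a - j) := by positivity
    have c1 : m < anc (a - j) C k + 1 := by
      by_contra hh; push Not at hh; nlinarith [b2.2]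
    have c2 : anc (a - j) C k < m := by
      by_contra hh; push Not at hh; nlinarith [b1.1]
    omega

lemma cin_iff : ∀ j, j ≤ a → ∀ C, Sub K j C → Free K lam j C →
    ((lam j C).cin ↔ (lam a (anc (a - j) C)).W ∧
      ∀ i, i < j → (lam i (((3:ℤ) ^ (a - i)) • anc (a - j) C)).s.val + 1 = 6 ^ n) := by
  intro j
  induction j with
  | zero =>
    intro _ C hC hF
    rw [(hB.low C hC).2, W_iff hP hB ha1 haK hhi 0 C (by omega) hC hF]; simp
  | succ j ih =>
    intro hj C hC hF
    have hpar : par ((3:ℤ) • C) = C := by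
      have := par_add_smul 0 C
      rwa [zero_add, par_zero, zero_add] at this
    have s1 : Sub K j ((3:ℤ) • C) := sub_of_anc (i := 1) (by
      rw [anc_succ, anc_zero, hpar]; exact hC)
    have f1 : Free K lam j ((3:ℤ) • C) := free_split (h := 1)
      (fr_of_dvd (Tj_ctr lam j) (l := k0) (C k0) (by simp))
      (by rw [anc_succ, anc_zero, hpar]; exact hF)
    have h1 := (vrel hP hB ha1 haK hhi (by omega) s1 f1).2.2.1
    have h2 : anc (a - j) ((3:ℤ) • C) = anc (a - (j + 1)) C := by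
      rw [show a - j = a - (j + 1) + 1 by omega, anc_succ', hpar]
    rw [hpar] at h1
    rw [h1, ih (by omega) _ s1 f1, s_const hP hB ha1 haK hhi (by omega) s1 f1, h2]
    constructor
    · rintro ⟨⟨h3, h4⟩, h5⟩
      refine ⟨h3, fun i hi => ?_⟩
      rcases Nat.lt_succ_iff_lt_or_eq.1 hi with hi | rfl
      · exact h4 i hi
      · exact h5
    · rintro ⟨h3, h4⟩
      exact ⟨⟨h3, fun i hi => h4 i (by omega)⟩, h4 j (by omega)⟩

open Classical in
lemma cross {j : ℕ} (hj : j < a) {A : Z n} {k : Fin n} (hA : Sub K a A) (hA' : Sub K a (A + e k)) :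
    (lam j (((3:ℤ) ^ (a - j)) • (A + e k))).s.val =
      if k = k0 ∧ (lam a A).W ∧ ∀ i, i < j → (lam i (((3:ℤ) ^ (a - i)) • A)).s.val + 1 = 6 ^ n
      then ((lam j (((3:ℤ) ^ (a - j)) • A)).s.val + 1) % 6 ^ n
      else (lam j (((3:ℤ) ^ (a - j)) • A)).s.val := by
  obtain ⟨l, hl⟩ := exists_ne k
  set C := ((3:ℤ) ^ (a - j)) • (A + e k) - e k with hCdef
  have h1 : anc (a - j) C = A := anc_smul_sub _ _ _
  have s1 : Sub K j C := sub_of_anc (i := a - j) (by
    rw [h1, show j + (a - j) = a by omega]; exact hA)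
  have f1 : Free K lam j C := free_of_fr hP hB ha1 haK hhi hj.le s1
    (fr_of_dvd (Tj_ctr lam j) (l := l) (A l) (by simp [hCdef, e_ne hl]))
  have e1 : C + e k = ((3:ℤ) ^ (a - j)) • (A + e k) := by simp [hCdef]
  have s2 := corner_sub hP hB ha1 haK hhi hj.le hA'
  have f2 := corner_free hP hB ha1 haK hhi hj.le hA'
  rw [← e1] at s2 f2
  have h5 := (hrel hP s1 s2 f1 f2).2.2.1 (by rw [hhi _ _ s1 f1]; omega)
  rw [e1, s_const hP hB ha1 haK hhi hj s1 f1, cin_iff hP hB ha1 haK hhi j hj.le C s1 f1,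
    G_iff hP hB ha1 haK hhi j C hj.le s1 f1, h1] at h5
  rw [h5]
  congr 1
  apply propext
  refine and_congr_right fun hk => and_iff_right ?_
  subst hk
  exact ⟨A k + 1, by simp [hCdef]; ring⟩

lemma g_chain (hs : (lam K 0).sp) : ∀ (N : ℕ) (A : Z n), Sub K a A →
    l1 (((3:ℤ) ^ (K - a)) • one - A) = N → (lam a A).g →
    ∃ A', Sub K a A' ∧ (lam a A').st ∧ ∀ j, j < a →
      (lam j (((3:ℤ) ^ (a - j)) • A')).s = (lam j (((3:ℤ) ^ (a - j)) • A)).s := by
  intro N
  induction N using Nat.strong_induction_on with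
  | _ N ih =>
    intro A hA hN hg
    rcases (hP.sr a A hA).2.2.2.2.2.2 hg with ⟨-, h1⟩ | ⟨k, hk, h1, h2⟩
    · exact ⟨A, hA, h1, fun _ _ => rfl⟩
    · have fA := free_high hP hB ha1 haK hhi _ _ (by omega) hA
      rw [flag_p hP k a A haK hA fA] at h2
      have hb := (sub_iff.1 hA).2
      have h3 : A k + 1 < 3 ^ (K - a) := by
        have := hb k
        have h4 : A k + 1 ≠ 3 ^ (K - a) := fun h =>
          h2 ⟨(((hP.sr K 0 (sub_root K)).1 hs).2 k).2, h⟩
        omega
      have hA' : Sub K a (A + e k) := by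
        rw [sub_iff]
        refine ⟨haK, fun l => ?_⟩
        have := hb l
        rw [Pi.add_apply, e_apply]; split_ifs with h
        · subst h; omega
        · omega
      have hg' := (hrel hP hA hA' fA
        (free_high hP hB ha1 haK hhi _ _ (by omega) hA')).2.2.2.2 hg h1
      obtain ⟨A', h5, h6, h7⟩ := ih (l1 (((3:ℤ) ^ (K - a)) • one - (A + e k))) (by
        rw [← hN]
        unfold l1
        refine Finset.sum_lt_sum (fun l _ => ?_) ⟨k, mem_univ _, ?_⟩
        · have := hb l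
          simp only [Pi.sub_apply, Pi.add_apply, Pi.smul_apply, one, smul_eq_mul, mul_one, e_apply]
          split_ifs with h
          · subst h; omega
          · omega
        · simp only [Pi.sub_apply, Pi.add_apply, Pi.smul_apply, one, smul_eq_mul, mul_one, e_same]
          omega) _ hA' rfl hg'
      refine ⟨A', h5, h6, fun j hj => ?_⟩
      rw [h7 j hj]
      apply Fin.ext
      rw [cross hP hB ha1 haK hhi hj hA hA', if_neg (fun h => hk h.1)]

lemma st_chain : ∀ j, j ≤ a → ∀ C, Sub K j C → Free K lam j C → (lam j C).st →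
    ∃ c, Sub K 0 c ∧ Free K lam 0 c ∧ anc j c = C ∧ (lam 0 c).st ∧
      ∀ i, i < j → (lam i (anc i c)).d.1 = emb (lam i (anc i c)).s := by
  intro j
  induction j with
  | zero => intro _ C hC hF hst; exact ⟨C, hC, hF, by simp, hst, by simp⟩
  | succ j ih =>
    intro hj C hC hF hst
    let D : Z n := fun k => 3 * C k + ((lam (j + 1) C).ch k).val
    have hv : ∀ k, (((lam (j + 1) C).ch k).val : ℤ) < 3 := fun k => by
      have := ZMod.val_lt ((lam (j + 1) C).ch k); omega
    have hpar : par D = C := by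
      funext k; have := hv k; simp only [par, D]; omega
    have hpos : pos D = (lam (j + 1) C).ch := by
      funext k; simp only [pos, D]; push_cast
      have : (3 : ZMod 3) = 0 := rfl
      rw [this]; simp
    have s1 : Sub K j D := sub_of_anc (i := 1) (by rw [anc_succ, anc_zero, hpar]; exact hC)
    have hns : ¬ (lam j D).sp := by
      intro h
      have := hP.spc j D (by omega) s1 h
      rw [hpar] at this
      exact this.2.2 ⟨hst, by rw [← hpos]; exact this.1⟩
    have f1 : Free K lam j D := free_of hns (by rw [hpar]; exact hF)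
    have hv := vrel hP hB ha1 haK hhi (by omega) s1 f1
    have hst' : (lam j D).st := hv.2.2.2.1.2 (by rw [hpar]; exact ⟨hst, hpos.symm⟩)
    obtain ⟨c, h1, h2, h3, h4, h5⟩ := ih (by omega) D s1 f1 hst'
    refine ⟨c, h1, h2, by rw [anc_succ, h3, hpar], h4, fun i hi => ?_⟩
    rcases Nat.lt_succ_iff_lt_or_eq.1 hi with hi | rfl
    · exact h5 i hi
    · rw [h3]; exact hv.2.2.2.2 hst'

open Classical in
lemma all_values (hs : (lam K 0).sp) (y : ℕ) (hy : y < (6 ^ n) ^ a) :
    ∃ A, Sub K a A ∧ (lam a A).g ∧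
      ∑ j ∈ range a, (lam j (((3:ℤ) ^ (a - j)) • A)).s.val * (6 ^ n) ^ j = y := by
  have hroot := ((hP.sr K 0 (sub_root K)).1 hs).2
  let L : ℕ → Z n := fun t => (t : ℤ) • e k0
  have hL : ∀ t, L (t + 1) = L t + e k0 := fun t => by simp only [L]; push_cast; rw [add_smul, one_smul]
  have hLs : ∀ t : ℕ, (t : ℤ) < 3 ^ (K - a) → Sub K a (L t) := fun t ht => by
    rw [sub_iff]
    refine ⟨haK, fun k => ?_⟩
    have : (0:ℤ) < 3 ^ (K - a) := by positivity
    simp only [L, Pi.smul_apply, smul_eq_mul, e_apply]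
    split_ifs <;> omega
  let V : ℕ → ℕ := fun t => ∑ j ∈ range a, (lam j (((3:ℤ) ^ (a - j)) • L t)).s.val * (6 ^ n) ^ j
  let Good : ℕ → Prop := fun y => ∃ t : ℕ, (t : ℤ) < 3 ^ (K - a) ∧ (lam a (L t)).W ∧ V t = y
  let c : ℕ → ℕ → Prop := fun t j => (lam a (L t)).W ∧
    ∀ i, i < j → (lam i (((3:ℤ) ^ (a - i)) • L t)).s.val + 1 = 6 ^ n
  have hc : ∀ t j, c t (j + 1) ↔ c t j ∧ (lam j (((3:ℤ) ^ (a - j)) • L t)).s.val + 1 = 6 ^ n := by
    intro t j
    constructor
    · rintro ⟨h3, h4⟩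
      exact ⟨⟨h3, fun i hi => h4 i (by omega)⟩, h4 j (by omega)⟩
    · rintro ⟨⟨h3, h4⟩, h5⟩
      refine ⟨h3, fun i hi => ?_⟩
      rcases Nat.lt_succ_iff_lt_or_eq.1 hi with hi | rfl
      · exact h4 i hi
      · exact h5
  have hcin : ∀ t : ℕ, (t : ℤ) < 3 ^ (K - a) → ((lam a (L t)).cin ↔ c t a) := fun t ht => by
    have := cin_iff hP hB ha1 haK hhi a le_rfl _ (hLs t ht)
      (free_high hP hB ha1 haK hhi _ _ (by omega) (hLs t ht))
    rwa [Nat.sub_self, anc_zero] at this
  have hlast : ∀ t : ℕ, c t a → V t + 1 = (6 ^ n) ^ a := fun t h => by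
    have := counter_step (6 ^ n) (fun j => (lam j (((3:ℤ) ^ (a - j)) • L t)).s.val) (fun _ => 0)
      (lam a (L t)).W (c t) (fun j => Fin.is_lt _) (by simp [c]) a (fun j _ => hc t j)
      (fun j hj => by
        rw [if_pos ⟨h.1, fun i hi => h.2 i (by omega)⟩, h.2 j hj, Nat.mod_self])
    rw [if_pos h, if_pos h.1] at this
    simp only [zero_mul, sum_const_zero, zero_add] at this
    exact this.symm
  have hstep : ∀ t : ℕ, ((t + 1 : ℕ) : ℤ) < 3 ^ (K - a) → ¬ c t a →
      V (t + 1) = V t + if (lam a (L t)).W then 1 else 0 := fun t ht h => by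
    have := counter_step (6 ^ n) (fun j => (lam j (((3:ℤ) ^ (a - j)) • L t)).s.val)
      (fun j => (lam j (((3:ℤ) ^ (a - j)) • L (t + 1))).s.val)
      (lam a (L t)).W (c t) (fun j => Fin.is_lt _) (by simp [c]) a (fun j _ => hc t j)
      (fun j hj => by
        rw [hL, cross hP hB ha1 haK hhi hj (hLs t (by push_cast at ht; omega))
          (by rw [← hL]; exact hLs _ ht)]
        simp only [true_and, c])
    rw [if_neg h] at this
    exact this
  have hfin : ∀ t : ℕ, (t : ℤ) < 3 ^ (K - a) → c t a → (∀ y, y < V t → Good y) →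
      ∀ y, y < (6 ^ n) ^ a → Good y := by
    intro t ht h1 h2 y hy
    have := hlast t h1
    rcases lt_or_ge y (V t) with h3 | h3
    · exact h2 y h3
    · exact ⟨t, ht, h1.1, by omega⟩
  have inv : ∀ t : ℕ, (t : ℤ) < 3 ^ (K - a) →
      ((lam a (L t)).done → ∀ y, y < (6 ^ n) ^ a → Good y) ∧
      (¬ (lam a (L t)).done → ∀ y, y < V t → Good y) := by
    intro t
    induction t with
    | zero =>
      intro ht
      have hL0 : L 0 = 0 := by simp [L]
      have s0 := hLs 0 ht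
      refine ⟨fun h => ?_, fun _ y hy => ?_⟩
      · exfalso
        refine (hP.sr a _ s0).2.2.2.1 (top_of hP hB ha1 haK hhi s0) ?_ h
        rw [flag_m hP k0 a _ haK s0 (free_high hP hB ha1 haK hhi _ _ (by omega) s0)]
        exact ⟨(hroot k0).1, by simp [hL0]⟩
      · exfalso
        have : V 0 = 0 := by
          refine Finset.sum_eq_zero fun j hj => ?_
          have hj := Finset.mem_range.1 hj
          rw [hL0, smul_zero]
          have s1 : Sub K j (0 : Z n) := sub_zero' (by omega)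
          rw [(hP.sr j 0 s1).2.2.1 (by rw [hhi _ _ s1 (free_zero k0 j)]; omega) (by
            rw [flag_m hP k0 j _ (by omega) s1 (free_zero k0 j)]; exact ⟨(hroot k0).1, rfl⟩)]
          simp
        omega
    | succ t ih =>
      intro ht
      have ht' : (t : ℤ) < 3 ^ (K - a) := by push_cast at ht; omega
      have ih := ih ht'
      have s1 := hLs t ht'
      have s2 := hLs _ ht
      rw [hL] at s2
      have hd := (hrel hP s1 s2 (free_high hP hB ha1 haK hhi _ _ (by omega) s1)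
        (free_high hP hB ha1 haK hhi _ _ (by omega) s2)).2.2.2.1 (top_of hP hB ha1 haK hhi s1) rfl
      rw [← hL, hcin t ht'] at hd
      rw [hd]
      refine ⟨fun h => ?_, fun h y hy => ?_⟩
      · by_cases h1 : (lam a (L t)).done
        · exact ih.1 h1
        · exact hfin t ht' (h.resolve_left h1) (ih.2 h1)
      · push Not at h
        rw [hstep t ht h.2] at hy
        split_ifs at hy with hW
        · rcases lt_or_ge y (V t) with h3 | h3
          · exact ih.2 h.1 y h3
          · exact ⟨t, ht', hW, by omega⟩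
        · exact ih.2 h.1 y hy
  have hT : (((3 ^ (K - a) - 1 : ℕ) : ℤ)) + 1 = 3 ^ (K - a) := by
    have : 0 < 3 ^ (K - a) := by positivity
    rw [Nat.cast_sub (by omega)]; push_cast; ring
  have hG : Good y := by
    have ht : (((3 ^ (K - a) - 1 : ℕ) : ℤ)) < 3 ^ (K - a) := by omega
    have s1 := hLs _ ht
    have := (hP.sr a _ s1).2.2.2.2.1 (top_of hP hB ha1 haK hhi s1) (by
      rw [flag_p hP k0 a _ haK s1 (free_high hP hB ha1 haK hhi _ _ (by omega) s1)]
      exact ⟨(hroot k0).2, by simp only [L, Pi.smul_apply, e_same, smul_eq_mul, mul_one]; exact hT⟩)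
    by_cases h1 : (lam a (L (3 ^ (K - a) - 1))).done
    · exact (inv _ ht).1 h1 y hy
    · exact hfin _ ht ((hcin _ ht).1 (this.resolve_left h1)) ((inv _ ht).2 h1) y hy
  obtain ⟨t, ht, hW, hV⟩ := hG
  have s1 := hLs t ht
  refine ⟨L t, s1, (hP.sr a _ s1).2.2.2.2.2.1 (top_of hP hB ha1 haK hhi s1) hW fun k hk => ?_, hV⟩
  rw [flag_m hP k a _ haK s1 (free_high hP hB ha1 haK hhi _ _ (by omega) s1)]
  exact ⟨(hroot k).1, by simp [L, e_ne hk]⟩

lemma cover_aux (hs : (lam K 0).sp) (r : Z n) :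
    ∃ c, Sub K 0 c ∧ (lam 0 c).st ∧ ∀ k, (6 : ℤ) ^ a ∣ x c k - r k := by
  set r' : Z n := r - (x 0 - Hs lam a 0) with hr'
  obtain ⟨A, hA, hg, hV⟩ := all_values hP hB ha1 haK hhi hs
    (∑ j ∈ range a, (dig r' j).val * (6 ^ n) ^ j) (digits_lt _ _ (fun j => Fin.is_lt _) a)
  have hd := digits_inj _ _ _ (fun j => Fin.is_lt _) (fun j => Fin.is_lt _) a hV
  obtain ⟨A', hA', hst, hs'⟩ := g_chain hP hB ha1 haK hhi hs _ A hA rfl hg
  obtain ⟨c, h1, h2, h3, h4, h5⟩ := st_chain hP hB ha1 haK hhi a le_rfl A' hA'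
    (free_high hP hB ha1 haK hhi _ _ (by omega) hA') hst
  refine ⟨c, h1, h4, fun k => ?_⟩
  have h6 : Hs lam a c k = r' k - 6 ^ a * (r' k / 6 ^ a) := by
    rw [← six_expand]
    simp only [Hs, Finset.sum_apply, Pi.smul_apply, smul_eq_mul]
    refine Finset.sum_congr rfl fun j hj => ?_
    have hj := Finset.mem_range.1 hj
    have s1 := h1.anc j (by omega)
    have f1 := h2.anc j
    rw [zero_add] at s1 f1
    rw [h5 j hj, s_const hP hB ha1 haK hhi hj s1 f1, ← anc_add, show j + (a - j) = a by omega, h3,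
      hs' j hj, Fin.ext (hd j hj), emb_dig]
  obtain ⟨m, hm⟩ := rigid hP hB haK h1 h2 k
  refine ⟨m - r' k / 6 ^ a, ?_⟩
  simp only [Pi.sub_apply, hr'] at hm h6 ⊢
  rw [mul_sub]; linarith

end Cover

theorem cover [Nontrivial (Fin n)] (hP : (sys k0).Pyr K lam) (hB : Base K lam x)
    (hs : (lam K 0).sp) : ∃ a,
      (∀ c, Sub K 0 c → (∀ j, j < a → ¬ (lam j (anc j c)).sp) → Free K lam 0 c) ∧
      ∀ r : Z n, ∃ c, Sub K 0 c ∧ (lam 0 c).st ∧ ∀ k, (6 : ℤ) ^ a ∣ x c k - r k := by
  obtain ⟨a, ha1, haK, hhi⟩ := exists_level hP hB hs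
  refine ⟨a, fun c hc h => free_of_fr hP hB ha1 haK hhi (by omega) hc fun i hi hT => ?_,
    cover_aux hP hB ha1 haK hhi hs⟩
  exact h i (by omega) (by simpa using hT.1)

theorem exists_not_st [Nontrivial (Fin n)] (hP : (sys k0).Pyr 1 lam) (hB : Base 1 lam x) :
    ∃ c, ¬ (lam 0 c).st := by
  by_contra h
  push Not at h
  have s0 : Sub 1 0 (0 : Z n) := sub_zero' (by omega)
  have s1 : Sub 1 0 (e k0) := by
    rw [sub_iff]; refine ⟨by omega, fun k => ?_⟩
    rw [e_apply]; split_ifs <;> simp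
  have p0 : pos (0 : Z n) = 0 := by funext k; simp [pos]
  have p1 : pos (e k0) = ep k0 := by
    have := pos_add_e 0 k0; rwa [zero_add, p0, zero_add] at this
  have n0 : ¬ (lam 0 0).sp := fun hs => zero_ne_ctr k0 (p0 ▸ (hP.spc 0 0 (by omega) s0 hs).1)
  have n1 : ¬ (lam 0 (e k0)).sp := fun hs => ep_ne_ctr k0 (p1 ▸ (hP.spc 0 _ (by omega) s1 hs).1)
  have a0 := (((hP.vr 0 0 (by omega) s0 n0).2.2.2 (hB.low 0 s0).1).2.2.2.1.1 (h 0)).2
  have a1 := (((hP.vr 0 _ (by omega) s1 n1).2.2.2 (hB.low _ s1).1).2.2.2.1.1 (h _)).2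
  rw [(s1.par (by omega)).root] at a1
  rw [par_zero, a1, p0, p1] at a0
  exact ep_ne_zero k0 a0

end Pool.Agent.MP_c4ca5b_lc

end

section

set_option linter.unusedSectionVars false

namespace Pool.Agent.MP_c4ca5b_lc

open Finset

variable {n : ℕ}

abbrev RF (n : ℕ) := Z n → Fin n → ℝ

lemma nb_iff_norm {y : Z n} {R : ℤ} (hR : 0 ≤ R) : nb y R ↔ ‖y‖ ≤ R := by
  rw [pi_norm_le_iff_of_nonneg (by exact_mod_cast hR)]
  refine forall_congr' fun k => ?_
  rw [Int.norm_eq_abs]; norm_cast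

noncomputable def bump (R L : ℤ) (y : Z n) : ℝ := max 0 (min 1 (((R : ℝ) - ‖y‖) / L))

lemma bump_nonneg (R L : ℤ) (y : Z n) : 0 ≤ bump R L y := le_max_left _ _

lemma bump_le_one (R L : ℤ) (y : Z n) : bump R L y ≤ 1 :=
  max_le zero_le_one (min_le_left _ _)

lemma bump_eq_one {R L : ℤ} (hL : 0 < L) (hLR : L ≤ R) {y : Z n} (hy : nb y (R - L)) :
    bump R L y = 1 := by
  rw [nb_iff_norm (by omega)] at hy
  push_cast at hy
  have hL' : (0:ℝ) < L := by exact_mod_cast hL
  unfold bump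
  rw [min_eq_left, max_eq_right zero_le_one]
  rw [le_div_iff₀ hL']; linarith

lemma bump_lip {R L S : ℤ} (hL : 0 < L) (hS : 0 ≤ S) {y y' : Z n} (h : nb (y - y') S) :
    |bump R L y - bump R L y'| ≤ S / L := by
  rw [nb_iff_norm hS] at h
  have hL' : (0:ℝ) < L := by exact_mod_cast hL
  have h1 : |‖y‖ - ‖y'‖| ≤ S := (abs_norm_sub_norm_le y y').trans h
  have h2 : |((R : ℝ) - ‖y‖) / L - ((R : ℝ) - ‖y'‖) / L| ≤ S / L := by
    rw [← sub_div, abs_div, abs_of_pos hL']
    refine div_le_div_of_nonneg_right ?_ hL'.le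
    rw [show (R : ℝ) - ‖y‖ - (R - ‖y'‖) = -(‖y‖ - ‖y'‖) by ring, abs_neg]; exact h1
  unfold bump
  refine le_trans ?_ h2
  rw [max_comm 0, max_comm 0]
  refine (abs_max_sub_max_le_abs _ _ _).trans ?_
  rw [min_comm 1, min_comm 1]
  exact abs_min_sub_min_le_max _ _ _ _ |>.trans (by simp)

lemma bump_eq_zero {R L : ℤ} (hL : 0 < L) (hR : 0 ≤ R) {y : Z n} (hy : ¬ nb y R) :
    bump R L y = 0 := by
  rw [nb_iff_norm hR, not_le] at hy
  have hL' : (0:ℝ) < L := by exact_mod_cast hL
  unfold bump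
  refine max_eq_left ((min_le_right _ _).trans ?_)
  exact div_nonpos_of_nonpos_of_nonneg (by linarith) hL'.le

noncomputable def eta (K : ℕ) (G : ℝ) : ℝ :=
  3 ^ (K + 1) * Int.fract ((3 ^ K / 2 + 3 ^ K - G) / 3 ^ (K + 1))

lemma eta_nonneg (K : ℕ) (G : ℝ) : 0 ≤ eta K G :=
  mul_nonneg (by positivity) (Int.fract_nonneg _)

lemma eta_le (K : ℕ) (G : ℝ) : eta K G ≤ 3 ^ (K + 1) := by
  unfold eta
  have := (Int.fract_lt_one ((3 ^ K / 2 + 3 ^ K - G) / 3 ^ (K + 1))).le
  have h2 : (0:ℝ) < 3 ^ (K + 1) := by positivity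
  nlinarith

lemma eta_add (K : ℕ) (G : ℝ) (m : ℤ) : eta K (G + 3 ^ (K + 1) * m) = eta K G := by
  unfold eta
  rw [show (3 ^ K / 2 + 3 ^ K - (G + 3 ^ (K + 1) * m)) / (3:ℝ) ^ (K + 1) =
    (3 ^ K / 2 + 3 ^ K - G) / 3 ^ (K + 1) - m by field_simp; ring, Int.fract_sub_intCast]

lemma eta_spec (K : ℕ) (G : ℝ) : ∃ m : ℤ, G + eta K G = 3 ^ K / 2 + 3 ^ K * (1 + 3 * m) := by
  refine ⟨-⌊(3 ^ K / 2 + 3 ^ K - G) / 3 ^ (K + 1)⌋, ?_⟩
  unfold eta Int.fract
  push_cast
  field_simp
  ring

def Sep (O : Set (Z n)) (g : ℤ) : Prop := ∀ w ∈ O, ∀ w' ∈ O, nb (w - w') g → w = w'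

open Classical in
noncomputable def step (O : Set (Z n)) (K : ℕ) (R L : ℤ) (Φ : RF n) : RF n := fun y =>
  if h : ∃ w ∈ O, nb (y - w) R then
    fun k => Φ h.choose k + bump R L (y - h.choose) * eta K (h.choose k / 2 + Φ h.choose k)
  else Φ y

section Step

variable {O : Set (Z n)} {K : ℕ} {R L : ℤ} {Φ : RF n}

lemma step_mem (hO : Sep O (2 * R)) {w y : Z n} (hw : w ∈ O) (hy : nb (y - w) R) (k : Fin n) :
    step O K R L Φ y k = Φ w k + bump R L (y - w) * eta K (w k / 2 + Φ w k) := by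
  have h : ∃ w ∈ O, nb (y - w) R := ⟨w, hw, hy⟩
  have h1 : h.choose = w := hO _ h.choose_spec.1 _ hw (by
    have := hy.sub h.choose_spec.2
    rw [show y - w - (y - h.choose) = h.choose - w by abel, ← two_mul] at this
    exact this)
  unfold step
  rw [dif_pos h, h1]

lemma step_not {y : Z n} (h : ¬ ∃ w ∈ O, nb (y - w) R) : step O K R L Φ y = Φ y := by
  unfold step; rw [dif_neg h]

def Osc (Φ : RF n) (S : ℤ) (ε : ℝ) : Prop :=
  ∀ y y', nb (y - y') S → ∀ k, |Φ y k - Φ y' k| ≤ ε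

lemma step_osc (hO : Sep O (2 * R)) (hL : 0 < L) (hR : 0 ≤ R) {S S' : ℤ} {ε : ℝ} (hS : 0 ≤ S)
    (hS' : S + 2 * R ≤ S') (h : Osc Φ S' ε) :
    Osc (step O K R L Φ) S (ε + 2 * 3 ^ (K + 1) * (S / L)) := by
  have hL' : (0:ℝ) < L := by exact_mod_cast hL
  have hS0 : (0:ℝ) ≤ S / L := div_nonneg (by exact_mod_cast hS) hL'.le
  have hN : (0:ℝ) < 3 ^ (K + 1) := by positivity
  have small : ∀ (y y' w : Z n) (G : ℝ), nb (y - y') S → ¬ nb (y' - w) R →
      |bump R L (y - w) * eta K G| ≤ 3 ^ (K + 1) * (S / L) := by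
    intro y y' w G h1 h2
    have h3 := bump_lip (R := R) hL hS (y := y - w) (y' := y' - w) (by simpa using h1)
    rw [bump_eq_zero hL hR h2, sub_zero] at h3
    rw [abs_mul, abs_of_nonneg (eta_nonneg _ _), mul_comm]
    exact mul_le_mul (eta_le _ _) h3 (abs_nonneg _) hN.le
  have one : ∀ y y', nb (y - y') S → (∃ w ∈ O, nb (y - w) R) → (¬ ∃ w ∈ O, nb (y' - w) R) → ∀ k,
      |step O K R L Φ y k - step O K R L Φ y' k| ≤ ε + 2 * 3 ^ (K + 1) * (S / L) := by
    rintro y y' h1 ⟨w, hw, hy⟩ h2 k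
    rw [step_mem hO hw hy, step_not h2]
    have a1 := h w y' ((by simpa using h1.sub hy : nb (w - y') (S + R)).mono (by omega)) k
    have a2 := small y y' w (w k / 2 + Φ w k) h1 (fun h3 => h2 ⟨w, hw, h3⟩)
    rw [abs_le] at *
    constructor <;> nlinarith [a1.1, a1.2, a2.1, a2.2]
  intro y y' h1 k
  by_cases c1 : ∃ w ∈ O, nb (y - w) R
  · by_cases c2 : ∃ w ∈ O, nb (y' - w) R
    · obtain ⟨w, hw, hy⟩ := c1
      obtain ⟨w', hw', hy'⟩ := c2
      rw [step_mem hO hw hy, step_mem hO hw' hy']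
      have a1 := h w w' (by
        have := (h1.sub hy).add hy'
        rw [show y - y' - (y - w) + (y' - w') = w - w' by abel] at this
        exact this.mono (by omega)) k
      by_cases hww : w = w'
      · subst hww
        have h3 := bump_lip (R := R) hL hS (y := y - w) (y' := y' - w) (by simpa using h1)
        have h4 : |bump R L (y - w) * eta K (w k / 2 + Φ w k) -
            bump R L (y' - w) * eta K (w k / 2 + Φ w k)| ≤ 3 ^ (K + 1) * (S / L) := by
          rw [← sub_mul, abs_mul, abs_of_nonneg (eta_nonneg _ _), mul_comm]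
          exact mul_le_mul (eta_le _ _) h3 (abs_nonneg _) hN.le
        rw [abs_le] at *
        constructor <;> nlinarith [a1.1, a1.2, h4.1, h4.2]
      · have a2 := small y y' w (w k / 2 + Φ w k) h1 (fun h3 => hww (hO _ hw _ hw' (by
          have := hy'.sub h3
          rw [show y' - w' - (y' - w) = w - w' by abel, ← two_mul] at this; exact this)))
        have a3 := small y' y w' (w' k / 2 + Φ w' k) h1.comm (fun h3 => hww (hO _ hw _ hw' (by
          have := h3.sub hy
          rw [show y - w' - (y - w) = w - w' by abel, ← two_mul] at this; exact this)))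
        rw [abs_le] at *
        constructor <;> nlinarith [a1.1, a1.2, a2.1, a2.2, a3.1, a3.2]
    · exact one y y' h1 c1 c2 k
  · by_cases c2 : ∃ w ∈ O, nb (y' - w) R
    · rw [abs_sub_comm]; exact one y' y h1.comm c2 c1 k
    · rw [step_not c1, step_not c2]
      have := h y y' (h1.mono (by omega)) k
      nlinarith

lemma step_bound (hO : Sep O (2 * R)) {κ B : ℝ} (h : ∀ y k, |Φ y k - κ| ≤ B) (y : Z n)
    (k : Fin n) : |step O K R L Φ y k - κ| ≤ B + 3 ^ (K + 1) := by
  have hN : (0:ℝ) < 3 ^ (K + 1) := by positivity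
  by_cases c1 : ∃ w ∈ O, nb (y - w) R
  · obtain ⟨w, hw, hy⟩ := c1
    rw [step_mem hO hw hy]
    have a1 := h w k
    have a2 := bump_nonneg R L (y - w)
    have a3 := bump_le_one R L (y - w)
    have a4 := eta_nonneg K (w k / 2 + Φ w k)
    have a5 := eta_le K (w k / 2 + Φ w k)
    rw [abs_le] at *
    constructor <;> nlinarith [a1.1, a1.2]
  · rw [step_not c1]; linarith [h y k]

lemma step_local {O' : Set (Z n)} {Φ' : RF n} (hO : Sep O (2 * R)) (hO' : Sep O' (2 * R))
    (hR : 0 ≤ R) {w0 m : Z n} {ρ : ℤ} (hag : ∀ y, nb y ρ → (w0 + y ∈ O ↔ y ∈ O'))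
    (h : ∀ y, nb y ρ → ∀ k, Φ (w0 + y) k + w0 k / 2 = Φ' y k + 3 ^ (K + 1) * m k) :
    ∀ y, nb y (ρ - R) → ∀ k, step O K R L Φ (w0 + y) k + w0 k / 2 =
      step O' K R L Φ' y k + 3 ^ (K + 1) * m k := by
  intro y hy k
  by_cases c1 : ∃ w ∈ O', nb (y - w) R
  · obtain ⟨w, hw, h1⟩ := c1
    have h2 : nb w ρ := by
      have := hy.sub h1
      simpa using this
    rw [step_mem hO' hw h1, step_mem hO ((hag w h2).2 hw) (by simpa using h1)]
    have h3 := h w h2 k
    rw [show (((w0 + w) k : ℤ) : ℝ) / 2 + Φ (w0 + w) k = w k / 2 + Φ' w k + 3 ^ (K + 1) * m k by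
      simp only [Pi.add_apply]; push_cast; linarith, eta_add, add_sub_add_left_eq_sub]
    linarith
  · rw [step_not c1, step_not]
    · exact h y (hy.mono (by omega)) k
    · rintro ⟨w, hw, h1⟩
      have h2 : nb (y - (w - w0)) R := by
        rwa [show y - (w - w0) = w0 + y - w by abel]
      refine c1 ⟨w - w0, (hag _ ?_).1 (by simpa using hw), h2⟩
      have := hy.sub h2
      simpa using this

lemma step_center (hO : Sep O (2 * R)) (hL : 0 < L) (hLR : L ≤ R) {w : Z n} (hw : w ∈ O) :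
    ∃ q : Z n, pos q = ctr ∧ ∀ y, nb y (R - L) → ∀ k,
      step O K R L Φ (w + y) k + w k / 2 = 3 ^ K / 2 + 3 ^ K * q k := by
  choose m hm using fun k => eta_spec K (w k / 2 + Φ w k)
  refine ⟨fun k => 1 + 3 * m k, (pos_eq_ctr_iff _).2 fun k => by omega, fun y hy k => ?_⟩
  rw [step_mem hO hw (by simpa using hy.mono (by omega)), add_sub_cancel_left,
    bump_eq_one hL hLR hy, one_mul]
  push_cast
  linarith [hm k]

end Step

lemma floor_diff {x y : ℝ} {m : ℤ} (h : |x - y - m| < 1) : |⌊x⌋ - ⌊y⌋ - m| ≤ 1 := by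
  have h1 := Int.floor_le x
  have h2 := Int.lt_floor_add_one x
  have h3 := Int.floor_le y
  have h4 := Int.lt_floor_add_one y
  rw [abs_lt] at h
  have a1 : ((⌊x⌋ - ⌊y⌋ - m : ℤ) : ℝ) < 2 := by push_cast; linarith [h.2]
  have a2 : (-2 : ℝ) < ((⌊x⌋ - ⌊y⌋ - m : ℤ) : ℝ) := by push_cast; linarith [h.1]
  have a3 : ⌊x⌋ - ⌊y⌋ - m < 2 := by exact_mod_cast a1
  have a4 : -2 < ⌊x⌋ - ⌊y⌋ - m := by exact_mod_cast a2
  rw [abs_le]; omega

noncomputable def flo (Φ : RF n) : Z n → Z n := fun u k => ⌊(u k : ℝ) / 2 + Φ u k⌋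

lemma grid_of_osc {Φ : RF n} (h : Osc Φ (Rw n) (1 / 8)) : IsGrid (flo Φ) := by
  have hR := Rw_pos n
  have sur : ∀ u c, nb (c - flo Φ u) 1 → ∃ y, nb y (Rw n) ∧ flo Φ (u + y) = c := by
    intro u c hc
    let m : Z n := fun k => ⌈2 * (c k : ℝ) + 1 / 2 - 2 * Φ u k⌉
    have hm : ∀ k, 2 * (c k : ℝ) + 1 / 2 - 2 * Φ u k ≤ m k ∧
        (m k : ℝ) < 2 * (c k : ℝ) + 1 / 2 - 2 * Φ u k + 1 := fun k =>
      ⟨Int.le_ceil _, Int.ceil_lt_add_one _⟩
    have hy : nb (m - u) (Rw n) := fun k => by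
      have h1 := hm k
      have h2 := hc k
      have h3 := Int.floor_le ((u k : ℝ) / 2 + Φ u k)
      have h4 := Int.lt_floor_add_one ((u k : ℝ) / 2 + Φ u k)
      simp only [Pi.sub_apply, flo] at h2 ⊢
      rw [abs_le] at h2
      have h5 : (-1 : ℝ) ≤ c k - ⌊(u k : ℝ) / 2 + Φ u k⌋ := by exact_mod_cast h2.1
      have h6 : (c k : ℝ) - ⌊(u k : ℝ) / 2 + Φ u k⌋ ≤ 1 := by exact_mod_cast h2.2
      have a1 : ((m k - u k : ℤ) : ℝ) < 4 := by push_cast; linarith [h1.2]
      have a2 : (-4 : ℝ) < ((m k - u k : ℤ) : ℝ) := by push_cast; linarith [h1.1]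
      have a3 : m k - u k < 4 := by exact_mod_cast a1
      have a4 : -4 < m k - u k := by exact_mod_cast a2
      rw [abs_le]; omega
    refine ⟨m - u, hy, ?_⟩
    funext k
    have h1 := hm k
    have h2 := h m u hy k
    rw [add_sub_cancel]
    simp only [flo]
    rw [Int.floor_eq_iff, abs_le] at *
    constructor <;> linarith [h1.1, h1.2, h2.1, h2.2]
  refine ⟨fun u i k => ?_, fun u i k => ?_, fun u k => sur u _ (by simpa using nb_e k),
    fun u k => ?_⟩
  · have h1 := h (u + e i) u (by simpa using (nb_e i).mono (by omega)) k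
    have := floor_diff (x := ((u + e i) k : ℝ) / 2 + Φ (u + e i) k) (y := (u k : ℝ) / 2 + Φ u k)
      (m := 0) (by
        rw [abs_le] at h1
        simp only [Pi.add_apply, e_apply]
        split_ifs <;> push_cast <;> rw [abs_lt] <;> constructor <;> linarith [h1.1, h1.2])
    simpa [flo] using this
  · have h0 : nb (Mc n • e i) (Rw n) := fun l => by
      have := Mc_pos n
      have := C1_pos n
      simp only [Pi.smul_apply, smul_eq_mul, e_apply, Rw]
      split_ifs
      · rw [mul_one, abs_of_nonneg (by omega)]; omega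
      · simp; omega
    have h1 := h (u + Mc n • e i) u (by simpa using h0) k
    exact floor_diff (by
      rw [abs_le] at h1
      simp only [Pi.add_apply, Pi.smul_apply, smul_eq_mul, Mc] at h1 ⊢
      push_cast
      rw [abs_lt]; constructor <;> linarith [h1.1, h1.2])
  · obtain ⟨y, h1, h2⟩ := sur u (flo Φ u - e k) (by simpa using (nb_e k).neg)
    exact ⟨y, h1, by rw [h2]; simp⟩

/-! ### The multi-scale drift -/

def rho (n K : ℕ) : ℤ := Mc n * (2 * 3 ^ K) + C1 n

def Lp (t K : ℕ) (S : ℤ) : ℤ := 2 * 3 ^ (K + 1) * S * 2 ^ (t + 4)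

def Rp (n t K : ℕ) (S : ℤ) : ℤ := Lp t K S + S + rho n K

lemma rho_pos (n K : ℕ) : 2 * 3 ^ K ≤ rho n K := by
  unfold rho
  have := Mc_pos n; have := C1_pos n
  have : (0:ℤ) < 3 ^ K := by positivity
  nlinarith

lemma rho_nonneg (n K : ℕ) : 0 ≤ rho n K := le_trans (by positivity) (rho_pos n K)

structure ParOK (n : ℕ) (K : ℕ → ℕ) (S : ℕ → ℤ) : Prop where
  s0 : ∀ t, Rw n ≤ S t
  ss : ∀ t s, t < s → S t + 2 * Rp n t (K t) (S t) ≤ S s
  kk : ∀ t s, t < s → K t < K s

noncomputable def down (O : ℕ → Set (Z n)) (K : ℕ → ℕ) (S : ℕ → ℤ) : ℕ → RF n → RF n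
  | 0, Φ => Φ
  | t + 1, Φ => down O K S t (step (O t) (K t) (Rp n t (K t) (S t)) (Lp t (K t) (S t)) Φ)

noncomputable def psi (O : ℕ → Set (Z n)) (K : ℕ → ℕ) (S : ℕ → ℤ) (s : ℕ) : Z n → Z n :=
  flo (down O K S s fun _ _ => 3 ^ K s / 2)

section Down

variable {K : ℕ → ℕ} {S : ℕ → ℤ} (hp : ParOK n K S)
include hp

lemma ParOK.Spos (t : ℕ) : 0 < S t := by have := hp.s0 t; have := Rw_pos n; omega

lemma ParOK.Lpos (t : ℕ) : 0 < Lp t (K t) (S t) := by
  have := hp.Spos t; unfold Lp; positivity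

lemma ParOK.Rpos (t : ℕ) : 0 ≤ Rp n t (K t) (S t) := by
  have := hp.Spos t; have := hp.Lpos t; have := rho_nonneg n (K t); unfold Rp; omega

lemma ParOK.rho_le (t : ℕ) : rho n (K t) ≤ Rp n t (K t) (S t) := by
  have := hp.Spos t; have := hp.Lpos t; unfold Rp; omega

lemma down_osc {O : ℕ → Set (Z n)} (hO : ∀ t, Sep (O t) (2 * Rp n t (K t) (S t))) :
    ∀ (s : ℕ) (Φ : RF n) (ε : ℝ), Osc Φ (S s) ε →
      Osc (down O K S s Φ) (Rw n) (ε + (1 / 8 - 1 / 2 ^ (s + 3))) := by
  intro s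
  induction s with
  | zero =>
    intro Φ ε h y y' hy k
    have := h y y' (hy.mono (hp.s0 0)) k
    norm_num [down]; exact this
  | succ s ih =>
    intro Φ ε h
    have h1 := step_osc (K := K s) (hO s) (hp.Lpos s) (hp.Rpos s) (hp.Spos s).le
      (hp.ss s (s + 1) (by omega)) h
    have h2 := ih _ _ h1
    have h3 : (0:ℝ) < S s := by exact_mod_cast hp.Spos s
    rw [down]
    convert h2 using 1
    unfold Lp
    push_cast
    field_simp
    ring

lemma psi_grid {O : ℕ → Set (Z n)} (hO : ∀ t, Sep (O t) (2 * Rp n t (K t) (S t))) (s : ℕ) :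
    IsGrid (psi O K S s) := by
  refine grid_of_osc fun y y' hy k => ?_
  have := down_osc hp hO s (fun _ _ => 3 ^ K s / 2) 0 (fun _ _ _ _ => by simp) y y' hy k
  have h2 : (0:ℝ) < 1 / 2 ^ (s + 3) := by positivity
  linarith

lemma down_bound {O : ℕ → Set (Z n)} (hO : ∀ t, Sep (O t) (2 * Rp n t (K t) (S t))) (κ : ℝ) :
    ∀ (s a : ℕ) (Φ : RF n) (B : ℝ), (∀ t, t < s → K t + 2 ≤ a) → (∀ y k, |Φ y k - κ| ≤ B) →
      ∀ y k, |down O K S s Φ y k - κ| ≤ B + 3 ^ a := by
  intro s
  induction s with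
  | zero =>
    intro a Φ B _ h y k
    have : (0:ℝ) < 3 ^ a := by positivity
    rw [down]; linarith [h y k]
  | succ s ih =>
    intro a Φ B ha h y k
    rw [down]
    have h1 := ih (K s + 1) _ _ (fun t ht => by have := hp.kk t s ht; omega)
      (step_bound (K := K s) (L := Lp s (K s) (S s)) (hO s) h) y k
    have h2 : (3:ℝ) ^ (K s + 2) ≤ 3 ^ a := pow_le_pow_right₀ (by norm_num) (ha s (by omega))
    have h3 : (0:ℝ) < 3 ^ (K s + 1) := by positivity
    rw [pow_succ (3:ℝ) (K s + 1)] at h2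
    linarith

lemma psi_bound {O : ℕ → Set (Z n)} (hO : ∀ t, Sep (O t) (2 * Rp n t (K t) (S t))) {s a : ℕ}
    (ha : ∀ t, t < s → K t + 2 ≤ a) (u : Z n) (k : Fin n) :
    u k + 3 ^ K s - 2 * 3 ^ a - 2 < 2 * psi O K S s u k ∧
      2 * psi O K S s u k ≤ u k + 3 ^ K s + 2 * 3 ^ a := by
  have h1 := down_bound hp hO (3 ^ K s / 2) s a (fun _ _ => 3 ^ K s / 2) 0 ha
    (fun _ _ => by simp) u k
  rw [abs_le] at h1
  have h2 := Int.floor_le ((u k : ℝ) / 2 + down O K S s (fun _ _ => 3 ^ K s / 2) u k)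
  have h3 := Int.lt_floor_add_one ((u k : ℝ) / 2 + down O K S s (fun _ _ => 3 ^ K s / 2) u k)
  have a1 : ((u k + 3 ^ K s - 2 * 3 ^ a - 2 : ℤ) : ℝ) < ((2 * psi O K S s u k : ℤ) : ℝ) := by
    simp only [psi, flo]; push_cast; linarith [h1.1]
  have a2 : ((2 * psi O K S s u k : ℤ) : ℝ) ≤ ((u k + 3 ^ K s + 2 * 3 ^ a : ℤ) : ℝ) := by
    simp only [psi, flo]; push_cast; linarith [h1.2]
  exact ⟨by exact_mod_cast a1, by exact_mod_cast a2⟩

lemma down_local {O O' : ℕ → Set (Z n)} (hO : ∀ t, Sep (O t) (2 * Rp n t (K t) (S t)))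
    (hO' : ∀ t, Sep (O' t) (2 * Rp n t (K t) (S t))) {w0 : Z n} {q : Z n} :
    ∀ (t : ℕ) (Φ Φ' : RF n) (ρ : ℤ) (M : ℕ), (∀ t', t' < t → K t' < M) →
      (∀ t', t' < t → ∀ y, nb y (ρ + S t) → (w0 + y ∈ O t' ↔ y ∈ O' t')) →
      (∀ y, nb y (ρ + S t) → ∀ k, Φ (w0 + y) k + w0 k / 2 = Φ' y k + 3 ^ M * q k) →
      ∀ y, nb y ρ → ∀ k, down O K S t Φ (w0 + y) k + w0 k / 2 =
        down O' K S t Φ' y k + 3 ^ M * q k := by
  intro t
  induction t with
  | zero =>
    intro Φ Φ' ρ M _ _ h y hy k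
    exact h y (hy.mono (by have := hp.Spos 0; omega)) k
  | succ t ih =>
    intro Φ Φ' ρ M hM hag h
    rw [down, down]
    have h1 := hp.ss t (t + 1) (by omega)
    have h2 := hp.Rpos t
    refine ih _ _ ρ M (fun t' ht => hM t' (by omega))
      (fun t' ht y hy => hag t' (by omega) y (hy.mono (by omega))) fun y hy k => ?_
    obtain ⟨d, hd⟩ := Nat.exists_eq_add_of_lt (hM t (by omega))
    have key : ∀ k, (3:ℝ) ^ M * q k = 3 ^ (K t + 1) * ((((3:ℤ) ^ d) • q) k : ℤ) := fun k => by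
      rw [hd]; simp only [Pi.smul_apply, smul_eq_mul]; push_cast; ring
    rw [key]
    exact step_local (hO t) (hO' t) h2 (hag t (by omega))
      (fun y hy k => by rw [← key]; exact h y hy k) y (hy.mono (by omega)) k

omit hp in
lemma down_split (O : ℕ → Set (Z n)) {t : ℕ} : ∀ (s : ℕ) (Φ : RF n), t < s → ∃ Φ',
    down O K S s Φ =
      down O K S t (step (O t) (K t) (Rp n t (K t) (S t)) (Lp t (K t) (S t)) Φ') := by
  intro s
  induction s with
  | zero => intro _ h; omega
  | succ s ih =>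
    intro Φ h
    rcases Nat.lt_succ_iff_lt_or_eq.1 h with h | rfl
    · rw [down]; exact ih _ h
    · exact ⟨Φ, by rw [down]⟩

lemma psi_copy {O O' : ℕ → Set (Z n)} (hO : ∀ t, Sep (O t) (2 * Rp n t (K t) (S t)))
    (hO' : ∀ t, Sep (O' t) (2 * Rp n t (K t) (S t))) {s t : ℕ} (hts : t < s) {w : Z n}
    (hw : w ∈ O t)
    (hag : ∀ t', t' < t → ∀ y, nb y (Rp n t (K t) (S t)) → (w + y ∈ O t' ↔ y ∈ O' t')) :
    ∃ q : Z n, pos q = ctr ∧ ∀ y, nb y (rho n (K t)) →
      psi O K S s (w + y) = psi O' K S t y + ((3:ℤ) ^ K t) • q := by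
  obtain ⟨Φ', h1⟩ := down_split (K := K) (S := S) O s (fun _ _ => 3 ^ K s / 2) hts
  have hL := hp.Lpos t
  have hS := hp.Spos t
  have hr := rho_nonneg n (K t)
  obtain ⟨q, hq, h2⟩ := step_center (K := K t) (Φ := Φ') (hO t) hL (by unfold Rp; omega) hw
  refine ⟨q, hq, fun y hy => ?_⟩
  have h3 := down_local hp hO hO' (w0 := w) (q := q) t _ (fun _ _ => 3 ^ K t / 2) (rho n (K t))
    (K t) (fun t' ht => hp.kk t' t ht)
    (fun t' ht y hy => hag t' ht y (hy.mono (by unfold Rp; omega)))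
    (fun y hy k => h2 y (hy.mono (by unfold Rp; omega)) k) y hy
  funext k
  simp only [psi, flo, Pi.add_apply, Pi.smul_apply, smul_eq_mul]
  rw [h1, ← Int.floor_add_intCast]
  congr 1
  push_cast
  linarith [h3 k]

end Down

end Pool.Agent.MP_c4ca5b_lc

end
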